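import Pool.Agent.U222.SL.Res

/-!
# The conditions on the other motive
-/

set_option autoImplicit false

namespace Pool.Agent.U222.SL

open Finset Polynomial Pool.Agent.N876.TC Pool.Agent.N876.UV Pool.Agent.W528.HA Pool.Agent.W528.HB

theorem numFac_le {N : ℕ} {β : ℂ} (hβ : IsAlgebraic ℚ β) :
    numFac N β ≤ (minpoly ℚ β).natDegree := by
  classical
  unfold numFac
  set P := (minpoly ℚ β).map (algebraMap ℚ (CyclotomicField N ℚ)) with hP
  have hP0 : P ≠ 0 := by
    rw [hP, Polynomial.map_ne_zero_iff (algebraMap ℚ _).injective]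
    exact minpoly.ne_zero hβ.isIntegral
  have h1 : Associated (UniqueFactorizationMonoid.factors P).prod P :=
    UniqueFactorizationMonoid.factors_prod hP0
  have h2 : (UniqueFactorizationMonoid.factors P).prod.natDegree = P.natDegree :=
    natDegree_eq_of_degree_eq (degree_eq_degree_of_associated h1)
  have h0 : (0 : (CyclotomicField N ℚ)[X]) ∉ UniqueFactorizationMonoid.factors P := by
    intro h
    exact (UniqueFactorizationMonoid.irreducible_of_factor _ h).ne_zero rfl
  have h3 : P.natDegree = (minpoly ℚ β).natDegree := by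
    rw [hP, Polynomial.natDegree_map]
  rw [← h3, ← h2, natDegree_multiset_prod _ h0]
  have h4 := Multiset.card_nsmul_le_sum
    (s := Multiset.map natDegree (UniqueFactorizationMonoid.factors P)) (a := 1) (by
      intro x hx
      obtain ⟨R, hR, rfl⟩ := Multiset.mem_map.1 hx
      exact (UniqueFactorizationMonoid.irreducible_of_factor _ hR).natDegree_pos)
  rwa [Multiset.card_map, smul_eq_mul, mul_one] at h4

variable {c : ℕ} [Fact c.Prime]

theorem lowConj_of_level {q lam d : ℕ} (hq : 1 < q) {β : ℂ} (hβ : IsAlgebraic ℚ β)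
    (hβd : ‖β‖ ^ 2 = (q : ℝ) ^ d) (hlev : IsIntegral ℤ ((q : ℂ) ^ lam * β / starRingEnd ℂ β)) :
    lowConj c q lam d β = ∅ := by
  rw [Set.eq_empty_iff_forall_notMem]
  rintro x ⟨hx1, hx2⟩
  have hβA : β ∈ AA := mem_algebraicClosure_iff.mpr hβ
  have hβm : minpoly ℚ β = minpoly ℚ (⟨β, hβA⟩ : AA) :=
    minpoly.algebraMap_eq (algebraMap AA ℂ).injective (⟨β, hβA⟩ : AA)
  have halg : Algebra.IsAlgebraic ℚ AA := algebraicClosure.isAlgebraic ℚ ℂ
  obtain ⟨φ, hφ⟩ := IntermediateField.exists_algHom_of_splits_of_aeval (F := ℚ) (E := AA)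
    (K := PadicAlgCl c) (x := ⟨β, hβA⟩) (y := x)
    (fun s => ⟨(halg.isAlgebraic s).isIntegral, IsAlgClosed.splits _⟩) (by rw [← hβm]; exact hx1)
  have h1 := Pool.Agent.N876.FL.lev_emb hq hβA hβd hlev (φ : AA →+* PadicAlgCl c)
  have h2 : (φ : AA →+* PadicAlgCl c) ⟨β, hβA⟩ = x := hφ
  rw [h2] at h1
  exact absurd h1 (not_le.2 hx2)

end Pool.Agent.U222.SL
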