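import Pool.Agent.N876.FL.Res

/-!
# Tate classes of products over finite fields, dimensions
-/

set_option autoImplicit false

namespace Pool.Agent.U222.SL

open Finset Polynomial TensorProduct Pool.Agent.N876.TC Pool.Agent.N876.FL

/-- the generalised eigenspace -/
noncomputable def genT (q m : ℕ) {V : Type} [AddCommGroup V] [Module ℂ V] (F : Module.End ℂ V)
    (w : ℕ) : Submodule ℂ V :=
  (F ^ m).maxGenEigenspace ((q : ℂ) ^ (m * w))

section main

variable {ι : Type} [Fintype ι] [DecidableEq ι]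
  {K W : ι → Type} [∀ i, Fintype (K i)] [∀ i, AddCommGroup (W i)] [∀ i, Module ℂ (W i)]
  [∀ i, FiniteDimensional ℂ (W i)] {B : Type} [AddCommGroup B] [Module ℂ B]
  [FiniteDimensional ℂ B] [∀ i, DecidableEq (K i)]

/-- the eigenspaces -/
theorem eig_tate {q : ℕ} (hq : 1 < q) {Φ : ∀ i, Module.End ℂ (W i)} {ΦB : Module.End ℂ B}
    (hres : NoRes q Φ ΦB)
    (hB : ∀ β, ΦB.HasEigenvalue β → IsAlgebraic ℚ β ∧ ∃ j : ℕ, ‖β‖ ^ 2 = (q : ℝ) ^ j)
    (deg : ∀ i, K i → ℕ) {m : ℕ} (hm : 0 < m) (w : ℕ)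
    {v : (⨂[ℂ] i, ((K i → ℂ) × W i)) ⊗[ℂ] B}
    (hv : ((MM (fun i => tot (q : ℂ) (deg i) (Φ i)) ΦB) ^ m) v = (q : ℂ) ^ (m * w) • v) :
    v = ∑ k : ∀ i, K i, (ev k : ⨂[ℂ] i, ((K i → ℂ) × W i)) ⊗ₜ[ℂ] (cmp k v) ∧
      ∀ k : ∀ i, K i,
        (∑ i, deg i (k i) ≤ w ∧ (ΦB ^ m) (cmp k v) =
          (q : ℂ) ^ (m * (w - ∑ i, deg i (k i))) • cmp k v) ∨ cmp k v = 0 := by
  have hq0 : (q : ℂ) ≠ 0 := by exact_mod_cast (by omega : q ≠ 0)
  have h2 : v ∈ ((MM (fun i => tot (q : ℂ) (deg i) (Φ i)) ΦB) ^ m).maxGenEigenspace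
      ((q : ℂ) ^ (m * w)) := mem_gen_of_eig _ hv
  obtain ⟨h3, h4⟩ := gen_tate' hq hres hB deg hm w h2
  refine ⟨h3, ?_⟩
  intro k
  rcases h4 k with ⟨h5, -⟩ | h5
  · left
    refine ⟨h5, ?_⟩
    have h6 := congrArg (cmp k) hv
    rw [cmp_pow, map_smul, ← pow_mul] at h6
    have h7 : (q : ℂ) ^ ((∑ i, deg i (k i)) * m) ≠ 0 := pow_ne_zero _ hq0
    have h8 : (q : ℂ) ^ (m * w) = (q : ℂ) ^ ((∑ i, deg i (k i)) * m) *
        (q : ℂ) ^ (m * (w - ∑ i, deg i (k i))) := by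
      rw [← pow_add]
      congr 1
      rw [mul_comm (∑ i, deg i (k i)) m, ← mul_add]
      congr 1
      omega
    rw [h8, mul_smul] at h6
    exact smul_right_injective _ h7 h6
  · right
    exact h5

theorem co_ev (k k' : ∀ i, K i) :
    co k (ev k' : ⨂[ℂ] i, ((K i → ℂ) × W i)) = if k = k' then 1 else 0 := by
  unfold ev
  rw [co_tprod]
  by_cases h : k = k'
  · subst h
    rw [if_pos rfl]
    refine prod_eq_one fun i _ => ?_
    show (Pi.single (k i) (1 : ℂ) : K i → ℂ) (k i) = 1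
    rw [Pi.single_eq_same]
  · rw [if_neg h]
    obtain ⟨i, hi⟩ := Function.ne_iff.1 h
    refine prod_eq_zero (mem_univ i) ?_
    show (Pi.single (k' i) (1 : ℂ) : K i → ℂ) (k i) = 0
    rw [Pi.single_eq_of_ne hi]

theorem cmp_sum (b : (∀ i, K i) → B) (k : ∀ i, K i) :
    cmp k (∑ k' : ∀ i, K i, (ev k' : ⨂[ℂ] i, ((K i → ℂ) × W i)) ⊗ₜ[ℂ] b k') = b k := by
  rw [map_sum, sum_eq_single k]
  · rw [cmp_tmul, co_ev, if_pos rfl, one_smul]
  · intro k' _ hk'
    rw [cmp_tmul, co_ev, if_neg (Ne.symm hk'), zero_smul]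
  · intro h
    exact absurd (mem_univ k) h

/-- the dimensions of the spaces of generalised Tate classes -/
theorem rank_formula {q : ℕ} (hq : 1 < q) {Φ : ∀ i, Module.End ℂ (W i)} {ΦB : Module.End ℂ B}
    (hres : NoRes q Φ ΦB)
    (hB : ∀ β, ΦB.HasEigenvalue β → IsAlgebraic ℚ β ∧ ∃ j : ℕ, ‖β‖ ^ 2 = (q : ℝ) ^ j)
    (deg : ∀ i, K i → ℕ) {m : ℕ} (hm : 0 < m) (w : ℕ) :
    Module.finrank ℂ (genT q m (V := (⨂[ℂ] i, ((K i → ℂ) × W i)) ⊗[ℂ] B)
      (MM (fun i => tot (q : ℂ) (deg i) (Φ i)) ΦB) w) =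
    ∑ k : ∀ i, K i, if ∑ i, deg i (k i) ≤ w then
      Module.finrank ℂ (genT q m ΦB (w - ∑ i, deg i (k i))) else 0 := by
  classical
  set S : (∀ i, K i) → Submodule ℂ B := fun k => if ∑ i, deg i (k i) ≤ w then
    genT q m ΦB (w - ∑ i, deg i (k i)) else ⊥ with hS
  set E := genT q m (V := (⨂[ℂ] i, ((K i → ℂ) × W i)) ⊗[ℂ] B)
      (MM (fun i => tot (q : ℂ) (deg i) (Φ i)) ΦB) w with hE
  have hmem : ∀ v ∈ E, ∀ k, cmp k v ∈ S k := by
    intro v hv k
    simp only [hS]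
    rcases (gen_tate' hq hres hB deg hm w hv).2 k with ⟨h1, h2⟩ | h1
    · rw [if_pos h1]
      exact h2
    · rw [h1]
      exact Submodule.zero_mem _
  have hback : ∀ b : (∀ i, K i) → B, (∀ k, b k ∈ S k) →
      ∑ k' : ∀ i, K i, (ev k' : ⨂[ℂ] i, ((K i → ℂ) × W i)) ⊗ₜ[ℂ] b k' ∈ E := by
    intro b hb
    refine Submodule.sum_mem _ fun k _ => ?_
    have h1 := hb k
    simp only [hS] at h1
    by_cases h2 : ∑ i, deg i (k i) ≤ w
    · rw [if_pos h2] at h1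
      have h3 := ev_gen (q : ℂ) deg Φ ΦB k m h1
      have h4 : ((q : ℂ) ^ (∑ i, deg i (k i))) ^ m * (q : ℂ) ^ (m * (w - ∑ i, deg i (k i))) =
          (q : ℂ) ^ (m * w) := by
        rw [← pow_mul, mul_comm _ m, ← pow_add, ← mul_add, Nat.add_sub_cancel' h2]
      rw [h4] at h3
      exact h3
    · rw [if_neg h2, Submodule.mem_bot] at h1
      rw [h1, TensorProduct.tmul_zero]
      exact Submodule.zero_mem _
  let e : E ≃ₗ[ℂ] (∀ k, S k) :=
    { toFun := fun v k => ⟨cmp k v.1, hmem v.1 v.2 k⟩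
      map_add' := fun x y => by
        funext k
        apply Subtype.ext
        exact map_add (cmp k) x.1 y.1
      map_smul' := fun r x => by
        funext k
        apply Subtype.ext
        exact map_smul (cmp k) r x.1
      invFun := fun b => ⟨_, hback (fun k => (b k).1) fun k => (b k).2⟩
      left_inv := fun v => by
        apply Subtype.ext
        exact (gen_tate' hq hres hB deg hm w v.2).1.symm
      right_inv := fun b => by
        funext k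
        apply Subtype.ext
        exact cmp_sum (fun k => (b k).1) k }
  rw [e.finrank_eq, Module.finrank_pi_fintype]
  refine sum_congr rfl fun k _ => ?_
  by_cases h : ∑ i, deg i (k i) ≤ w
  · have h1 : S k = genT q m ΦB (w - ∑ i, deg i (k i)) := if_pos h
    rw [if_pos h, h1]
  · have h1 : S k = ⊥ := if_neg h
    rw [if_neg h, h1]
    exact finrank_bot ℂ B

end main

end Pool.Agent.U222.SL
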