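import Pool.Agent.U222.SL.Prime

/-!
# Weights as rational numbers
-/

set_option autoImplicit false

namespace Pool.Agent.U222.SL

open Finset

/-- the weight as a rational number -/
def rw (c f : ℕ) {s : ℕ} (d : ℕ) (a : Fin s → ℕ) (j : ℕ) : ℚ :=
  (∑ k, ∑ t ∈ range f, (((j * a k * c ^ t) % d : ℕ) : ℚ)) / (f * d)

theorem lo_iff {ι : Type} {c f N δ : ℕ} (hf : 0 < f) (hN : 0 < N) {d n s : ι → ℕ}
    {a : ∀ i, Fin (s i) → ℕ} (hdN : ∀ i, d i ∣ N) (I : Finset ι) (x : ι → ℕ) :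
    Lo c f N δ d n s a I x ↔
      ∑ i ∈ I, rw c f (d i) (a i) (x i) + (δ : ℚ) / 2 < ∑ i ∈ I, ((n i : ℚ) / 2 + 1) := by
  have hf' : (0 : ℚ) < f := by exact_mod_cast hf
  have hN' : (0 : ℚ) < N := by exact_mod_cast hN
  set A : ι → ℕ := fun i => ∑ k, ∑ t ∈ range f, (x i * a i k * c ^ t) % d i with hA
  have hrw : ∀ i, rw c f (d i) (a i) (x i) = (A i : ℚ) / (f * d i) := by
    intro i
    unfold rw
    rw [hA]
    push_cast
    rfl
  have hL : Lo c f N δ d n s a I x ↔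
      2 * ∑ i ∈ I, (N / d i) * A i + f * N * δ < f * N * ∑ i ∈ I, (n i + 2) := Iff.rfl
  rw [hL, sum_congr rfl fun i _ => hrw i]
  have h0 : ∀ i, (((N / d i : ℕ) : ℚ)) * (A i : ℚ) = (f * N) * ((A i : ℚ) / (f * d i)) := by
    intro i
    have hd0 : (d i : ℚ) ≠ 0 := by
      have := Nat.pos_of_dvd_of_pos (hdN i) hN
      exact_mod_cast this.ne'
    rw [Nat.cast_div (hdN i) hd0]
    field_simp
  have h1 : ((2 * ∑ i ∈ I, (N / d i) * A i + f * N * δ : ℕ) : ℚ) =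
      2 * f * N * (∑ i ∈ I, (A i : ℚ) / (f * d i) + (δ : ℚ) / 2) := by
    rw [Nat.cast_add, Nat.cast_mul, Nat.cast_sum]
    have h00 : ∑ i ∈ I, (((N / d i) * A i : ℕ) : ℚ) =
        ∑ i ∈ I, (f * N) * ((A i : ℚ) / (f * d i)) :=
      Finset.sum_congr rfl fun i _ => by rw [Nat.cast_mul, h0]
    rw [h00, ← Finset.mul_sum]
    push_cast
    ring
  have h2 : ((f * N * ∑ i ∈ I, (n i + 2) : ℕ) : ℚ) =
      2 * f * N * ∑ i ∈ I, ((n i : ℚ) / 2 + 1) := by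
    push_cast
    rw [mul_sum, mul_sum]
    exact sum_congr rfl fun i _ => by ring
  rw [← Nat.cast_lt (α := ℚ), h1, h2]
  exact mul_lt_mul_iff_right₀ (by positivity)

/-- separated characters, with rational weights -/
def SepQ {ι : Type} (c f N δ b : ℕ) (d n s : ι → ℕ) (a : ∀ i, Fin (s i) → ℕ) (I : Finset ι) :
    Prop :=
  ∀ j : ι → ℕ, (∀ i ∈ I, ¬ d i ∣ j i) → ∃ u : Fin (b + 1) → ℕ,
    (∀ k, (u k).Coprime N ∧
      ∑ i ∈ I, rw c f (d i) (a i) (u k * j i) + (δ : ℚ) / 2 < ∑ i ∈ I, ((n i : ℚ) / 2 + 1)) ∧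
    ∀ k l, k ≠ l → ∃ v : ℕ, v.Coprime N ∧
      ∑ i ∈ I, rw c f (d i) (a i) (v * u k * j i) < ∑ i ∈ I, ((n i : ℚ) / 2 + 1) ∧
      ∑ i ∈ I, rw c f (d i) (a i) ((N - 1) * (v * u l) * j i) < ∑ i ∈ I, ((n i : ℚ) / 2 + 1)

theorem sep_iff {ι : Type} {c f N δ b : ℕ} (hf : 0 < f) (hN : 0 < N) {d n s : ι → ℕ}
    {a : ∀ i, Fin (s i) → ℕ} (hdN : ∀ i, d i ∣ N) (I : Finset ι) :
    SepI c f N δ b d n s a I ↔ SepQ c f N δ b d n s a I := by
  unfold SepI SepQ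
  have h0 : ∀ x : ι → ℕ, Lo c f N 0 d n s a I x ↔
      ∑ i ∈ I, rw c f (d i) (a i) (x i) < ∑ i ∈ I, ((n i : ℚ) / 2 + 1) := by
    intro x
    rw [lo_iff hf hN hdN I x, Nat.cast_zero, zero_div, add_zero]
  refine forall_congr' fun j => imp_congr Iff.rfl (exists_congr fun u => and_congr ?_ ?_)
  · exact forall_congr' fun k => and_congr Iff.rfl (lo_iff hf hN hdN I _)
  · exact forall_congr' fun k => forall_congr' fun l => imp_congr Iff.rfl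
      (exists_congr fun v => and_congr Iff.rfl (and_congr (h0 _) (h0 _)))

end Pool.Agent.U222.SL
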