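import Pool.Agent.U222.SL.DefsF
import Pool.Agent.U222.SL.Wt
import Pool.Agent.U222.SL.Cond
import Pool.Agent.U222.SL.Rank

/-!
# The theorem over finite fields
-/

set_option autoImplicit false

open Finset Polynomial TensorProduct

namespace Pool.Agent.U222.SL

theorem isSeparated_iff {κ : Type} [Field κ] {ι : Type} {X : ι → Covering κ} {c f N lam b : ℕ}
    (hf : 0 < f) (hN : 0 < N) (hdN : ∀ i, (X i).N ∣ N) :
    IsSeparated X c f N lam b ↔ ∀ I : Finset ι, I.Nonempty →
      SepI c f N lam b (fun i => (X i).N) (fun i => (X i).n) (fun i => (X i).s)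
        (fun i => (X i).a) I := by
  refine forall_congr' fun I => imp_congr Iff.rfl ?_
  exact (sep_iff hf hN (d := fun i => (X i).N) (n := fun i => (X i).n) (s := fun i => (X i).s)
    (a := fun i => (X i).a) hdN I).symm

theorem isSeparated_of_large {κ : Type} [Field κ] {ι : Type} [Fintype ι] [DecidableEq ι]
    {X : ι → Covering κ} {c f lam b : ℕ} (hf : 0 < f) (hX : ∀ i, (X i).IsLarge lam b)
    (hc : ∀ i, c % (X i).N = 1) (hne : ∀ i i', i ≠ i' → (X i).N ≠ (X i').N) :
    IsSeparated X c f (∏ i, (X i).N) lam b := by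
  have hN : 0 < ∏ i, (X i).N := prod_pos fun i _ => (hX i).1.pos
  rw [isSeparated_iff hf hN fun i => dvd_prod_of_mem _ (mem_univ i)]
  intro I hI
  exact sep_large (d := fun i => (X i).N) (n := fun i => (X i).n) (s := fun i => (X i).s)
    (a := fun i => (X i).a) hf (fun i => (hX i).1) hne
    (fun i => by rw [hc i, Nat.mod_eq_of_lt (hX i).1.one_lt]) (fun i => (hX i).2.1)
    (fun i => (hX i).2.2.2) (fun i => (hX i).2.2.1) hI

theorem hasFewSlopes_of {c : ℕ} [Fact c.Prime] {q N lam b : ℕ} (hq : 1 < q) {B : Type}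
    [AddCommGroup B] [Module ℂ B] {Φ : Module.End ℂ B} (hpure : IsPure q Φ)
    (h : HasDegreesAtMost (2 * b + 1) Φ ∨ IsOfLevel q lam Φ) : HasFewSlopes c q N lam b Φ := by
  intro β hβ d hd
  rcases h with h | h
  · right
    exact (numFac_le (hpure β hβ).1).trans (h β hβ)
  · left
    have h1 : lowSlopes c q lam d β = ∅ := lowConj_of_level hq (hpure β hβ).1 hd (h β hβ)
    rw [h1, Set.ncard_empty]
    exact Nat.zero_le _

/-- **the theorem over finite fields** -/
theorem tateTheorem (c : ℕ) [Fact c.Prime] (κ : Type) [Field κ] [Fintype κ] [CharP κ c] (f : ℕ)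
    (hf : Fintype.card κ = c ^ f) {ι : Type} [Fintype ι] [DecidableEq ι] (X : ι → Covering κ)
    (hX : ∀ i, (X i).IsAdmissible) (lam b N : ℕ) (hN : 0 < N) (hdN : ∀ i, (X i).N ∣ N)
    (hsep : IsSeparated X c f N lam b) : TateTheorem X c N lam b := by
  have hf0 : 0 < f := by
    rcases Nat.eq_zero_or_pos f with h | h
    · rw [h, pow_zero] at hf
      have := Fintype.one_lt_card (α := κ)
      omega
    · exact h
  have hq1 : 1 < Fintype.card κ := Fintype.one_lt_card
  have hq0 : (Fintype.card κ : ℂ) ≠ 0 := by exact_mod_cast Fintype.card_ne_zero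
  intro K W _ _ _ _ _ codim Φ g hcov hpure B _ _ _ ΦY hY hfew m w hm
  have hcov' : ∀ i, Pool.Agent.N876.TC.IsCov (X i).N (X i).l (X i).a (X i).z (Φ i) (g i) :=
    fun i => ⟨(hcov i).commute, (hcov i).order, (hcov i).invariants,
      fun L _ _ _ t => (hcov i).lefschetz L t⟩
  have hres : Pool.Agent.N876.FL.NoRes (Fintype.card κ) Φ ΦY :=
    nores_few hN (fun i => (hX i).two_le) hdN κ hf (fun i => (hX i).root) (fun i => (X i).l)
      (fun i => (X i).a) (fun i => (hX i).coprime) hcov' hpure
      ((isSeparated_iff hf0 hN hdN).1 hsep) hY hfew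
  refine ⟨?_, ?_, ?_⟩
  · intro v
    constructor
    · intro hv
      obtain ⟨h1, h2⟩ := eig_tate hq1 hres hY codim hm w (v := v) hv
      show v ∈ Submodule.span ℂ _
      rw [h1]
      refine Submodule.sum_mem _ fun k _ => ?_
      rcases h2 k with ⟨h3, h4⟩ | h3
      · exact Submodule.subset_span ⟨k, _, h3, h4, rfl⟩
      · rw [h3, TensorProduct.tmul_zero]
        exact Submodule.zero_mem _
    · intro hv
      unfold IsTateClass
      induction hv using Submodule.span_induction with
      | mem t ht =>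
        obtain ⟨k, b', h1, h2, rfl⟩ := ht
        refine (Pool.Agent.N876.TC.MM_ev_pow (Fintype.card κ : ℂ) codim Φ ΦY k m b').trans ?_
        have h2' : (ΦY ^ m) b' = (Fintype.card κ : ℂ) ^ (m * (w - ∑ i, codim i (k i))) • b' := h2
        rw [h2', TensorProduct.tmul_smul, smul_smul, ← pow_mul, mul_comm _ m, ← pow_add,
          ← mul_add, Nat.add_sub_cancel' h1]
        rfl
      | zero => rw [map_zero, smul_zero]
      | add x y _ _ hx hy => rw [map_add, hx, hy, smul_add]
      | smul r x _ hx => rw [map_smul, hx, smul_comm]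
  · intro v
    constructor
    · intro hv
      obtain ⟨h1, h2⟩ := Pool.Agent.N876.FL.gen_tate' hq1 hres hY codim hm w (v := v) hv
      show v ∈ Submodule.span ℂ _
      rw [h1]
      refine Submodule.sum_mem _ fun k _ => ?_
      rcases h2 k with ⟨h3, h4⟩ | h3
      · exact Submodule.subset_span ⟨k, _, h3, h4, rfl⟩
      · rw [h3, TensorProduct.tmul_zero]
        exact Submodule.zero_mem _
    · refine fun hv => (Submodule.span_le.2 ?_) hv
      rintro t ⟨k, b', h1, h2, rfl⟩
      have h3 := Pool.Agent.N876.TC.ev_gen (Fintype.card κ : ℂ) codim Φ ΦY k m h2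
      have h4 : ((Fintype.card κ : ℂ) ^ (∑ i, codim i (k i))) ^ m *
          (Fintype.card κ : ℂ) ^ (m * (w - ∑ i, codim i (k i))) =
          (Fintype.card κ : ℂ) ^ (m * w) := by
        rw [← pow_mul, mul_comm _ m, ← pow_add, ← mul_add, Nat.add_sub_cancel' h1]
      rw [h4] at h3
      exact h3
  · exact rank_formula hq1 hres hY codim hm w

end Pool.Agent.U222.SL
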