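import Pool.Agent.U222.SL.Wt
import Pool.Agent.U222.SL.Cond
import Pool.Agent.N876.FL.NR

/-!
# No resonances, over any coefficient field
-/

set_option autoImplicit false

namespace Pool.Agent.U222.SL

open Finset Polynomial Pool.Agent.N876.TC Pool.Agent.N876.UV Pool.Agent.W528.HA Pool.Agent.W528.HB
  Pool.Agent.N876.FL

variable {c : ℕ} [Fact c.Prime]

/-- the conditions on the eigenvalues of the other factor -/
def FewSet (c : ℕ) [Fact c.Prime] (q N lam b : ℕ) (SZ : Set ℂ) : Prop :=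
  ∀ β ∈ SZ, IsAlgebraic ℚ β ∧ ∃ d : ℕ, ‖β‖ ^ 2 = (q : ℝ) ^ d ∧
    ((lowConj c q lam d β).ncard ≤ b ∨ numFac N β ≤ 2 * b + 1)

theorem fewSet_one {q N lam b : ℕ} (hq : 1 < q) : FewSet c q N lam b {1} := by
  intro β hβ
  rw [Set.mem_singleton_iff] at hβ
  subst hβ
  refine ⟨isAlgebraic_one, 0, by rw [norm_one, one_pow, pow_zero], Or.inl ?_⟩
  have h1 : lowConj c q lam 0 (1 : ℂ) = ∅ := by
    refine lowConj_of_level hq isAlgebraic_one (by rw [norm_one, one_pow, pow_zero]) ?_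
    rw [map_one, mul_one, div_one]
    exact (isIntegral_natCast (R := ℤ) (a := q) (B := ℂ)).pow lam
  rw [h1, Set.ncard_empty]
  exact Nat.zero_le _

section

variable {ι : Type} {N lam b : ℕ} (hN : 0 < N) {d n s : ι → ℕ}
    (hd : ∀ i, 2 ≤ d i) (hdN : ∀ i, d i ∣ N) (κ : Type) [Field κ] [Fintype κ] [CharP κ c] {f : ℕ}
    (hf : Fintype.card κ = c ^ f) {z : ι → κ} (hz : ∀ i, IsPrimitiveRoot (z i) (d i))
    (l : ∀ i, Fin (s i) → Fin (n i + 1) → κ) (a : ∀ i, Fin (s i) → ℕ)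
    (ha : ∀ i k, (a i k).Coprime (d i))
    {K : Type} [Field K] [CharZero K] (σ₀ : K →+* ℂ)
    {T : ι → Type} [∀ i, AddCommGroup (T i)] [∀ i, Module K (T i)]
    [∀ i, FiniteDimensional K (T i)] {Φ g : ∀ i, Module.End K (T i)}
    (h : ∀ i, IsCov (d i) (l i) (a i) (z i) (Φ i) (g i))

include hN hd hdN hf hz ha h

theorem nores_fewF (hsep : ∀ I : Finset ι, I.Nonempty → SepI c f N lam b d n s a I)
    (hpure : ∀ i α, (Φ i).HasEigenvalue α → ‖σ₀ α‖ ^ 2 = (Fintype.card κ : ℝ) ^ n i)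
    {SZ : Set K} (hZ : FewSet c (Fintype.card κ) N lam b (σ₀ '' SZ)) :
    NoResF (Fintype.card κ : K) (fun i => {α | (Φ i).HasEigenvalue α}) SZ := by
  intro I hI α hα β hβ e m w hm heq
  have h1 : ∀ i, ∃ (T' : Type) (_ : AddCommGroup T') (_ : Module ℂ T')
      (_ : FiniteDimensional ℂ T') (Φ' τ' : Module.End ℂ T'), IsCov (d i) (l i) (a i) (z i) Φ' τ' ∧
        ∀ α, (Φ i).HasEigenvalue α → Φ'.HasEigenvalue (σ₀ α) :=
    fun i => exists_bc (by have := hd i; omega) (h i) σ₀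
  choose T' i1 i2 i3 Φ' τ' h2 h3 using h1
  have heq' : ((∏ i ∈ I, σ₀ (α i)) * (Fintype.card κ : ℂ) ^ e * σ₀ β) ^ m =
      (Fintype.card κ : ℂ) ^ (m * w) := by
    have h4 := congrArg σ₀ heq
    simpa only [map_mul, map_pow, map_prod, map_natCast] using h4
  obtain ⟨hβ1, j, hβj, hfew⟩ := hZ _ ⟨β, hβ, rfl⟩
  exact core_few hN hd hdN κ hf hz l a ha h2 hI (hsep I hI)
    (α := fun i => σ₀ (α i)) (fun i hi => h3 i _ (hα i hi))
    (fun i hi => hpure i _ (hα i hi)) hβ1 hβj hfew hm heq'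

end

end Pool.Agent.U222.SL
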