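import Pool.Agent.U222.SL.Mo5

/-!
# Motives: correspondences, twists, homogeneous parts
-/

set_option autoImplicit false

open CategoryTheory AlgebraicGeometry
open scoped TensorProduct

universe u

namespace Pool.Agent.U222.SL.Mo

open Pool.Agent.H914 Pool.Agent.H914.VarClass Pool.Agent.H914.VarClass.Obj
  Pool.Agent.H914.WeilCohomology Pool.Agent.H281R3.HT Pool.Agent.W552 Pool.Agent.TH125.Gal
  Pool.Agent.TH132.A Pool.Agent.N876.FL Pool.Agent.U222.SL.Mot

variable {k : Type u} [Field k] {𝒱 : VarClass k} {ops : CycleOps 𝒱}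
  {W : WeilCohomology.{u, 0} ops} {Γ : Type} [Group Γ] {χ : Γ →* W.Kˣ}

/-- decomposition of an algebraic class -/
theorem as_decomp {X : 𝒱.Obj} {c : W.H X} (hc : AS W X c) :
    ∃ v : ℕ → W.H X, (∀ j, v j ∈ algClasses W X j) ∧ c = ∑ j ∈ Finset.range (X.dim + 1), v j := by
  refine AS.ind (p := fun c => ∃ v : ℕ → W.H X, (∀ j, v j ∈ algClasses W X j) ∧
    c = ∑ j ∈ Finset.range (X.dim + 1), v j) ?_ ?_ hc
  · intro i x hx
    by_cases hi : i < X.dim + 1
    · refine ⟨fun j => if j = i then x else 0, fun j => ?_, ?_⟩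
      · by_cases h : j = i
        · subst h; simp only [if_true]; exact hx
        · simp only [if_neg h]; exact alg_zero j
      · rw [Finset.sum_ite_eq', if_pos (Finset.mem_range.2 hi)]
    · refine ⟨fun _ => 0, fun j => alg_zero j, ?_⟩
      rw [Finset.sum_const_zero]
      have h1 := alg_gr hx
      rw [W.gr_eq_bot _ _ (by omega)] at h1
      exact (Submodule.mem_bot _).1 h1
  · rintro a b ⟨v, hv, rfl⟩ ⟨w, hw, rfl⟩
    exact ⟨v + w, fun j => alg_add (hv j) (hw j), by rw [← Finset.sum_add_distrib]; rfl⟩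

/-- `u` is given by a correspondence of degree `d` -/
def IsCorrespondence (W : WeilCohomology.{u, 0} ops) (X Y : 𝒱.Obj) (d : ℤ)
    (u : W.H X →ₗ[W.K] W.H Y) : Prop := u ∈ correspondences W X Y d

section corr

variable {X Y Z : 𝒱.Obj}

theorem isCorr_of {d : ℤ} {r : ℕ} (hr : (r : ℤ) = X.dim + d) {c : W.H (X.prod Y)}
    (hc : c ∈ algClasses W (X.prod Y) r) : IsCorrespondence W X Y d (W.corr c) :=
  Or.inr ⟨r, hr, c, hc, rfl⟩

theorem isCorr_cases {d : ℤ} {u : W.H X →ₗ[W.K] W.H Y} (h : IsCorrespondence W X Y d u) :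
    u = 0 ∨ ∃ (r : ℕ) (c : W.H (X.prod Y)), (r : ℤ) = X.dim + d ∧
      c ∈ algClasses W (X.prod Y) r ∧ u = W.corr c := by
  rcases h with h | ⟨r, hr, c, hc, h⟩
  · exact Or.inl h
  · exact Or.inr ⟨r, c, hr, hc, h.symm⟩

theorem IsCorrespondence.add {d : ℤ} {u v : W.H X →ₗ[W.K] W.H Y}
    (hu : IsCorrespondence W X Y d u) (hv : IsCorrespondence W X Y d v) :
    IsCorrespondence W X Y d (u + v) := by
  rcases isCorr_cases hu with rfl | ⟨r, z, hr, hz, rfl⟩
  · rwa [zero_add]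
  · rcases isCorr_cases hv with rfl | ⟨r', z', hr', hz', rfl⟩
    · rw [add_zero]; exact hu
    · have h : r' = r := by omega
      subst h
      rw [← corr_add]
      exact isCorr_of hr (alg_add hz hz')

theorem IsCorrespondence.neg {d : ℤ} {u : W.H X →ₗ[W.K] W.H Y}
    (hu : IsCorrespondence W X Y d u) : IsCorrespondence W X Y d (-u) := by
  rcases isCorr_cases hu with rfl | ⟨r, z, hr, hz, rfl⟩
  · rw [neg_zero]; exact hu
  · have h1 : -W.corr z = W.corr (-z) := by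
      refine LinearMap.ext fun a => ?_
      rw [LinearMap.neg_apply, corr_apply, corr_apply, neg_mul, map_neg]
    rw [h1]
    exact isCorr_of hr (alg_neg hz)

theorem isCorr_aop {d : ℤ} {u : W.H X →ₗ[W.K] W.H Y} (h : IsCorrespondence W X Y d u) :
    AOp W X Y u := by
  rcases isCorr_cases h with rfl | ⟨r, c, -, hc, rfl⟩
  · exact AOp.zero
  · exact ⟨c, AS.of hc, rfl⟩

theorem isCorr_zero {d : ℤ} : IsCorrespondence W X Y d (0 : W.H X →ₗ[W.K] W.H Y) := Or.inl rfl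

theorem isCorr_inv_smul {d : ℤ} (n : ℕ) {u : W.H X →ₗ[W.K] W.H Y}
    (h : IsCorrespondence W X Y d u) : IsCorrespondence W X Y d (((n : W.K))⁻¹ • u) := by
  rcases isCorr_cases h with rfl | ⟨r, c, hr, hc, rfl⟩
  · rw [smul_zero]; exact isCorr_zero
  · rw [← corr_smul]
    have h1 := alg_smul ((n : ℚ)⁻¹) hc
    rw [Rat.cast_inv, Rat.cast_natCast] at h1
    exact isCorr_of hr h1

theorem isCorr_one : IsCorrespondence W X X 0 (LinearMap.id : W.H X →ₗ[W.K] W.H X) := by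
  have h1 : W.push (lift (𝟙 X) (𝟙 X)) (1 : W.H X) ∈ algClasses W (X.prod X) X.dim :=
    alg_push _ (j := 0) alg_one (by
      have h : (X.prod X).dim = X.dim + X.dim := rfl
      omega)
  have h2 : W.corr (W.push (lift (𝟙 X) (𝟙 X)) (1 : W.H X)) = LinearMap.id := by
    refine LinearMap.ext fun a => ?_
    rw [corr_lift_push, one_mul, W.push_id]
    rfl
  rw [← h2]
  exact isCorr_of (by omega) h1

theorem isCorr_comp {d e : ℤ} {u : W.H X →ₗ[W.K] W.H Y} {v : W.H Y →ₗ[W.K] W.H Z}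
    (hv : IsCorrespondence W Y Z e v) (hu : IsCorrespondence W X Y d u) :
    IsCorrespondence W X Z (d + e) (v ∘ₗ u) := by
  rcases isCorr_cases hu with rfl | ⟨r, c, hr, hc, rfl⟩
  · rw [LinearMap.comp_zero]; exact isCorr_zero
  rcases isCorr_cases hv with rfl | ⟨r', c', hr', hc', rfl⟩
  · rw [LinearMap.zero_comp]; exact isCorr_zero
  rw [← W.corr_comp c (alg_gr hc')]
  have h1 : W.map (p12 X Y Z) c * W.map (p23 X Y Z) c' ∈ algClasses W _ (r + r') :=
    alg_mul (alg_map _ hc) (alg_map _ hc')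
  by_cases h2 : Y.dim ≤ r + r'
  · exact isCorr_of (by omega) (alg_push (p13 X Y Z) (i := r + r' - Y.dim) h1
      (by simp only [dim_prod]; omega))
  · rw [alg_push_zero h1 (by simp only [dim_prod]; omega), corr_zero]
    exact isCorr_zero

theorem aop_decomp {u : W.H X →ₗ[W.K] W.H Y} (hu : AOp W X Y u) :
    ∃ v : ℤ → (W.H X →ₗ[W.K] W.H Y), (∀ e, IsCorrespondence W X Y e (v e)) ∧
      u = ∑ e ∈ (Finset.range (X.dim + Y.dim + 1)).image (fun j : ℕ => (j : ℤ) - X.dim), v e := by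
  obtain ⟨c, hc, rfl⟩ := hu
  obtain ⟨v, hv, hcv⟩ := as_decomp hc
  refine ⟨fun e => if 0 ≤ e + X.dim then W.corr (v (e + X.dim).toNat) else 0, fun e => ?_, ?_⟩
  · by_cases h : 0 ≤ e + X.dim
    · simp only [if_pos h]
      exact isCorr_of (by omega) (hv _)
    · simp only [if_neg h]
      exact isCorr_zero
  · rw [Finset.sum_image fun a _ b _ h => by simpa using h, hcv]
    have h1 : ∀ s : Finset ℕ, W.corr (∑ j ∈ s, v j) = ∑ j ∈ s, W.corr (v j) := by
      intro s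
      classical
      induction s using Finset.induction_on with
      | empty => rw [Finset.sum_empty, Finset.sum_empty, corr_zero]
      | insert a s ha ih => rw [Finset.sum_insert ha, Finset.sum_insert ha, corr_add, ih]
    rw [h1]
    refine Finset.sum_congr rfl fun j _ => ?_
    have h2 : 0 ≤ (j : ℤ) - X.dim + X.dim := by omega
    have h3 : ((j : ℤ) - X.dim + X.dim).toNat = j := by omega
    rw [if_pos h2, h3]

end corr

/-- motives cut out of the cohomology of `A` -/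
abbrev Mtv (χ : Γ →* W.Kˣ) (Δ : Subgroup Γ) (A : GVar W Γ) :=
  Mot.Motive χ Δ (action A.act) (correspondences W A.X A.X 0)

/-- homomorphisms -/
abbrev HomM {Δ : Subgroup Γ} {A B : GVar W Γ} (M : Mtv χ Δ A) (M' : Mtv χ Δ B) :=
  Mot.Hom M M' (correspondences W A.X B.X)

/-- the condition -/
def IsMH {Δ : Subgroup Γ} {A B : GVar W Γ} (M : Mtv χ Δ A) (M' : Mtv χ Δ B)
    (u : W.H A.X →ₗ[W.K] W.H B.X) : Prop :=
  IsCorrespondence W A.X B.X (M'.m - M.m) u ∧ Eqv χ Δ A B (M'.m - M.m) u ∧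
    (∀ a, u (M.p a) = u a) ∧ ∀ a, M'.p (u a) = u a

/-- the homomorphisms of motives are closed under sums and differences -/
theorem mem_Hom {Δ : Subgroup Γ} {A B : GVar W Γ} {M : Mtv χ Δ A} {M' : Mtv χ Δ B}
    {u : W.H A.X →ₗ[W.K] W.H B.X} : u ∈ HomM M M' ↔ IsMH M M' u := by
  refine ⟨fun h => ?_, fun h => AddSubgroup.subset_closure h⟩
  induction h using AddSubgroup.closure_induction with
  | mem x hx => exact hx
  | zero => exact ⟨Or.inl rfl, Eqv.zero, fun a => rfl, fun a => map_zero _⟩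
  | add x y _ _ hx hy =>
    exact ⟨hx.1.add hy.1, Eqv.add hx.2.1 hy.2.1,
      fun a => by rw [LinearMap.add_apply, LinearMap.add_apply, hx.2.2.1, hy.2.2.1],
      fun a => by rw [LinearMap.add_apply, map_add, hx.2.2.2, hy.2.2.2]⟩
  | neg x _ hx =>
    refine ⟨hx.1.neg, ?_, fun a => by rw [LinearMap.neg_apply, LinearMap.neg_apply, hx.2.2.1],
      fun a => by rw [LinearMap.neg_apply, map_neg, hx.2.2.2]⟩
    intro g hg a
    rw [LinearMap.neg_apply, map_neg, hx.2.1 g hg, LinearMap.neg_apply, smul_neg]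

section act

variable {A B : GVar W Γ}

/-- the conjugation of operators, twisted -/
noncomputable def tw (χ : Γ →* W.Kˣ) (A B : GVar W Γ) (d : ℤ) :
    Γ →* Module.End W.K (W.H A.X →ₗ[W.K] W.H B.X) where
  toFun g := ((((χ g) ^ d)⁻¹ : W.Kˣ) : W.K) •
    (LinearMap.llcomp W.K (W.H A.X) (W.H B.X) (W.H B.X) (op B g) ∘ₗ
      LinearMap.lcomp W.K (W.H B.X) (op A g⁻¹))
  map_one' := by
    refine LinearMap.ext fun u => LinearMap.ext fun a => ?_
    show ((((χ 1) ^ d)⁻¹ : W.Kˣ) : W.K) • (B.act 1 (u (A.act 1⁻¹ a))) = u a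
    rw [inv_one, map_one, map_one, map_one, one_zpow, inv_one, Units.val_one, one_smul]
    rfl
  map_mul' g h := by
    refine LinearMap.ext fun u => LinearMap.ext fun a => ?_
    show ((((χ (g * h)) ^ d)⁻¹ : W.Kˣ) : W.K) • (B.act (g * h) (u (A.act (g * h)⁻¹ a))) =
      ((((χ g) ^ d)⁻¹ : W.Kˣ) : W.K) • (B.act g (((((χ h) ^ d)⁻¹ : W.Kˣ) : W.K) •
        (B.act h (u (A.act h⁻¹ (A.act g⁻¹ a))))))
    rw [map_smul, smul_smul, map_mul, map_mul, mul_inv_rev, map_mul, mul_zpow, mul_inv_rev,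
      Units.val_mul, mul_comm ((((χ h) ^ d)⁻¹ : W.Kˣ) : W.K)]
    rfl

theorem tw_apply (d : ℤ) (g : Γ) (u : W.H A.X →ₗ[W.K] W.H B.X) (a : W.H A.X) :
    tw χ A B d g u a = ((((χ g) ^ d)⁻¹ : W.Kˣ) : W.K) • (B.act g (u (A.act g⁻¹ a))) := rfl

theorem tw_fix {d : ℤ} {g : Γ} {u : W.H A.X →ₗ[W.K] W.H B.X} :
    tw χ A B d g u = u ↔ ∀ a, B.act g (u a) = (((χ g) ^ d : W.Kˣ) : W.K) • u (A.act g a) := by
  constructor
  · intro h a
    have h1 := LinearMap.congr_fun h (A.act g a)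
    rw [tw_apply] at h1
    have h2 : A.act g⁻¹ (A.act g a) = a := by
      rw [← AlgEquiv.mul_apply, ← map_mul, inv_mul_cancel, map_one]
      rfl
    rw [h2] at h1
    rw [← h1, smul_smul, ← Units.val_mul, mul_inv_cancel, Units.val_one, one_smul]
  · intro h
    refine LinearMap.ext fun a => ?_
    have h2 : A.act g (A.act g⁻¹ a) = a := by
      rw [← AlgEquiv.mul_apply, ← map_mul, mul_inv_cancel, map_one]
      rfl
    rw [tw_apply, h, h2, smul_smul, ← Units.val_mul, inv_mul_cancel, Units.val_one, one_smul]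

theorem eqv_iff {Δ : Subgroup Γ} {d : ℤ} {u : W.H A.X →ₗ[W.K] W.H B.X} :
    Eqv χ Δ A B d u ↔ ∀ g ∈ Δ, tw χ A B d g u = u :=
  ⟨fun h g hg => tw_fix.2 (h g hg), fun h g hg => tw_fix.1 (h g hg)⟩

/-- the change of the twist -/
theorem tw_change {d e : ℤ} {g : Γ} {u : W.H A.X →ₗ[W.K] W.H B.X} (h : tw χ A B e g u = u) :
    tw χ A B d g u = ((((χ g) ^ (e - d)) : W.Kˣ) : W.K) • u := by
  refine LinearMap.ext fun a => ?_
  have h1 := LinearMap.congr_fun h a
  rw [tw_apply] at h1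
  rw [tw_apply, LinearMap.smul_apply]
  conv_rhs => rw [← h1]
  rw [smul_smul, ← Units.val_mul]
  congr 2
  rw [zpow_sub]
  group

/-- the conjugate of a correspondence is one -/
theorem tw_corr (hB : IsGaloisVar χ B)
    {υ : Γ →* (W.H (A.X.prod B.X) ≃ₐ[W.K] W.H (A.X.prod B.X))}
    (hC : IsGaloisVar χ (⟨A.X.prod B.X, υ⟩ : GVar W Γ))
    (h1 : Equivariant (A := ⟨A.X.prod B.X, υ⟩) (B := A) (fst A.X B.X))
    (h2 : Equivariant (A := ⟨A.X.prod B.X, υ⟩) (B := B) (snd A.X B.X)) {d : ℤ}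
    {u : W.H A.X →ₗ[W.K] W.H B.X} (hu : IsCorrespondence W A.X B.X d u) (g : Γ) :
    IsCorrespondence W A.X B.X d (tw χ A B d g u) := by
  rcases isCorr_cases hu with rfl | ⟨r, c, hr, hc, rfl⟩
  · rw [map_zero]; exact isCorr_zero
  obtain ⟨c', hc', hcc⟩ := hC.cl_act g r c hc
  have h5 : tw χ A B d g (W.corr c) = W.corr c' := by
    refine LinearMap.ext fun a => ?_
    rw [tw_apply, corr_apply, corr_apply]
    have h3 := push_act hB hC h2 g (c * W.map (fst A.X B.X) (A.act g⁻¹ a))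
    have e0 : A.act g (A.act g⁻¹ a) = a := by
      rw [← AlgEquiv.mul_apply, ← map_mul, mul_inv_cancel, map_one]
      rfl
    have e1 : υ g (W.map (fst A.X B.X) (A.act g⁻¹ a)) = W.map (fst A.X B.X) a := by
      have e2 : υ g (W.map (fst A.X B.X) (A.act g⁻¹ a)) =
        W.map (fst A.X B.X) (A.act g (A.act g⁻¹ a)) := h1 g _
      rw [e2, e0]
    have hcc' : υ g c = ((χ g : W.Kˣ) : W.K) ^ r • c' := hcc
    rw [map_mul (υ g), e1, hcc', smul_mul_assoc, map_smul] at h3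
    have hq : ((χ g : W.Kˣ) : W.K) ≠ 0 := Units.ne_zero _
    have h4 : B.act g (W.push (snd A.X B.X) (c * W.map (fst A.X B.X) (A.act g⁻¹ a))) =
        ((((χ g : W.Kˣ) : W.K) ^ A.X.dim)⁻¹ * ((χ g : W.Kˣ) : W.K) ^ r) •
          W.push (snd A.X B.X) (c' * W.map (fst A.X B.X) a) := by
      rw [mul_smul, ← h3, smul_smul, inv_mul_cancel₀ (pow_ne_zero _ hq), one_smul]
    rw [h4, smul_smul]
    have h6 : ((((χ g) ^ d)⁻¹ : W.Kˣ) : W.K) *
        ((((χ g : W.Kˣ) : W.K) ^ A.X.dim)⁻¹ * ((χ g : W.Kˣ) : W.K) ^ r) = 1 := by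
      have h7 : d = (r : ℤ) - A.X.dim := by omega
      rw [h7, zpow_sub, zpow_natCast, zpow_natCast, mul_inv_rev, inv_inv, Units.val_mul,
        Units.val_inv_eq_inv_val, Units.val_pow_eq_pow_val, Units.val_pow_eq_pow_val]
      field_simp
    rw [h6, one_smul]
  rw [h5]
  exact isCorr_of hr hc'

/-- correspondences are potentially equivariant -/
theorem corr_fix (hB : IsGaloisVar χ B)
    {υ : Γ →* (W.H (A.X.prod B.X) ≃ₐ[W.K] W.H (A.X.prod B.X))}
    (hC : IsGaloisVar χ (⟨A.X.prod B.X, υ⟩ : GVar W Γ))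
    (h1 : Equivariant (A := ⟨A.X.prod B.X, υ⟩) (B := A) (fst A.X B.X))
    (h2 : Equivariant (A := ⟨A.X.prod B.X, υ⟩) (B := B) (snd A.X B.X)) {d : ℤ}
    {u : W.H A.X →ₗ[W.K] W.H B.X} (hu : IsCorrespondence W A.X B.X d u) :
    ∃ Δ : Subgroup Γ, Δ.FiniteIndex ∧ Eqv χ Δ A B d u := by
  rcases isCorr_cases hu with rfl | ⟨r, c, hr, hc, rfl⟩
  · exact ⟨⊤, inferInstance, fun g _ a => by
      rw [LinearMap.zero_apply, map_zero, LinearMap.zero_apply, smul_zero]⟩
  obtain ⟨Δ, hΔ, h⟩ := hC.cl_fix r c hc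
  refine ⟨Δ, hΔ, ?_⟩
  have h3 := eqv_corr hB hC h1 h2 h
  have h4 : d = (r : ℤ) - A.X.dim := by omega
  rw [h4]
  exact h3

end act

end Pool.Agent.U222.SL.Mo
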