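import Mathlib

/-!
# Slopes of algebraic numbers, and irreducible factors over cyclotomic fields
-/

set_option autoImplicit false

open Polynomial

namespace Pool.Agent.U222.SL

/-- The roots in the algebraic closure of the `c`-adic numbers of the minimal polynomial of `β`
over the rational numbers with a slope smaller than `(d - lam) / 2`, where the slope is the valuation
divided by the one of `q`. -/
def lowSlopes (c : ℕ) [Fact c.Prime] (q lam d : ℕ) (β : ℂ) : Set (PadicAlgCl c) :=
  {x | aeval x (minpoly ℚ β) = 0 ∧
    ‖((q : ℕ) : PadicAlgCl c)‖ ^ d < ‖((q : ℕ) : PadicAlgCl c)‖ ^ lam * ‖x‖ ^ 2}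

/-- The number of the irreducible factors of the minimal polynomial of `β` over the field of the
roots of unity of order `N`. -/
noncomputable def factorCount (N : ℕ) (β : ℂ) : ℕ :=
  Multiset.card (UniqueFactorizationMonoid.factors
    ((minpoly ℚ β).map (algebraMap ℚ (CyclotomicField N ℚ))))

end Pool.Agent.U222.SL
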