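import Pool.Agent.N876.FL.NR
import Pool.Agent.U222.SL.SloDefs

/-!
# Cyclic coverings of large prime degrees, and their products with all varieties: definitions

Adapted from the definitions of helper190 (`U190/HC/Defs`) and of the starting hand-in
`MP_81b968_ag.HyperplaneCoverings` of helper876.
-/

set_option autoImplicit false

open Finset Polynomial CategoryTheory AlgebraicGeometry

universe u

namespace Pool.Agent.U222.SL.Geo

open Pool.Agent.H914 Pool.Agent.H914.VarClass Pool.Agent.H914.VarClass.Obj
  Pool.Agent.H914.WeilCohomology Pool.Agent.H281R3.HT Pool.Agent.W552 Pool.Agent.TH125.Gal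

/-- A cyclic covering `w ^ N = ∏ l_k (x) ^ a_k` of the projective space of dimension `n`, and a root of
unity `z`. -/
structure Covering (κ : Type) [Field κ] : Type where
  N : ℕ
  n : ℕ
  s : ℕ
  l : Fin s → Fin (n + 1) → κ
  a : Fin s → ℕ
  z : κ

/-- `N` is a prime number, `z` has order `N`, the exponents are prime to `N` and have the sum `N`, one
of them is `N - A` with `A ≥ 2` (so `w ^ N` is a form of degree `A` in affine coordinates),
`A ^ 2 b + A < N`, and `lam < n`. -/
structure Covering.IsLarge {κ : Type} [Field κ] (X : Covering κ) (lam b : ℕ) : Prop where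
  prime : X.N.Prime
  root : IsPrimitiveRoot X.z X.N
  coprime : ∀ k, (X.a k).Coprime X.N
  sum : ∑ k, X.a k = X.N
  large : ∃ k, 2 ≤ X.N - X.a k ∧ (X.N - X.a k) ^ 2 * b + (X.N - X.a k) < X.N
  dim : lam < X.n

/-- The value of the form `∏ l_k ^ a_k` at a vector with coordinates in `L`. -/
def Covering.value {κ : Type} [Field κ] (X : Covering κ) (L : Type) [Field L] [Algebra κ L]
    (x : Fin (X.n + 1) → L) : L :=
  ∏ k, (∑ t, algebraMap κ L (X.l k t) * x t) ^ X.a k

/-- The number of vectors over `L` where the form is not zero. -/
noncomputable def Covering.openCount {κ : Type} [Field κ] (X : Covering κ) (L : Type) [Field L]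
    [Algebra κ L] : ℕ :=
  Set.ncard {x : Fin (X.n + 1) → L | X.value L x ≠ 0}

/-- The number of vectors over `L` where the form is not zero and its power with the exponent
`(|L| - 1) / N` is `z ^ i`. -/
noncomputable def Covering.fixCount {κ : Type} [Field κ] (X : Covering κ) (L : Type) [Field L]
    [Fintype L] [Algebra κ L] (i : ℕ) : ℕ :=
  Set.ncard {x : Fin (X.n + 1) → L | X.value L x ≠ 0 ∧
    (X.value L x) ^ ((Fintype.card L - 1) / X.N) = algebraMap κ L X.z ^ i}

/-- `T` is the part without invariants of the cohomology of degree `n` of a smooth projective model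
of the covering, with the Frobenius `Φ` and the generator `g` of the covering group. The trace
of `Φ ^ [L : κ] g ^ i` is up to the sign the difference of the number of fixed points over the open
set `∏ l_k ≠ 0` of projective space (`N` points over each point where the form has the power residue
symbol `z ^ i`) and of the number of the points of this open set. -/
structure IsCyclicCovering {κ : Type} [Field κ] (X : Covering κ) {K T : Type} [Field K]
    [AddCommGroup T] [Module K T] (Φ g : Module.End K T) : Prop where
  commute : Commute Φ g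
  order : g ^ X.N = 1
  invariants : ∀ t, g t = t → t = 0
  lefschetz : ∀ (L : Type) [Field L] [Fintype L] [Algebra κ L] (i : ℕ),
    ((Fintype.card L : K) - 1) *
        ((-1) ^ X.n * LinearMap.trace K T (Φ ^ Module.finrank κ L * g ^ i)) =
      (X.N : K) * (X.fixCount L i : K) - (X.openCount L : K)

/-- The space `H` is generated by the subspace `P` (the classes of algebraic cycles) and a subspace `T`
which is stable under `Φ` (the Frobenius) and `g` (a generator of the covering group), `T` is the part
without invariants (`IsCyclicCovering`), and pure of weight `n`. The complex numbers enter by an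
embedding `τ` of the coefficient field. -/
def IsCoveringCohomology {κ : Type} [Field κ] [Fintype κ] (C : Covering κ) {K H : Type} [Field K]
    [AddCommGroup H] [Module K H] (P : Submodule K H) (Φ g : Module.End K H) (τ : K →+* ℂ) : Prop :=
  ∃ (T : Submodule K H) (hΦ : ∀ t ∈ T, Φ t ∈ T) (hg : ∀ t ∈ T, g t ∈ T), P ⊔ T = ⊤ ∧
    IsCyclicCovering C (Φ.restrict hΦ) (g.restrict hg) ∧
    ∀ α, Module.End.HasEigenvalue (Φ.restrict hΦ) α → ‖τ α‖ ^ 2 = (Fintype.card κ : ℝ) ^ C.n

/-- The images of the eigenvalues of `Φ` under the embedding `τ` of the coefficient field. -/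
def eigenvalues {K H : Type} [Field K] [AddCommGroup H] [Module K H] (Φ : Module.End K H)
    (τ : K →+* ℂ) : Set ℂ :=
  {b | ∃ β : K, Φ.HasEigenvalue β ∧ τ β = b}

/-- The conditions on a set `B` of complex numbers: they are algebraic with `|β| ^ 2 = q ^ d`, and at
most `b` of the conjugates of `β` have a slope smaller than `(d - lam) / 2`, or the minimal
polynomial of `β` has at most `2 b + 1` irreducible factors over the field of the roots of unity
of order `N`. -/
def IsFewBase (c : ℕ) [Fact c.Prime] (q N lam b : ℕ) (B : Set ℂ) : Prop :=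
  ∀ β ∈ B, IsAlgebraic ℚ β ∧ ∃ d : ℕ, ‖β‖ ^ 2 = (q : ℝ) ^ d ∧
    ((lowSlopes c q lam d β).ncard ≤ b ∨ factorCount N β ≤ 2 * b + 1)

section geometry

variable {k : Type u} [Field k] {𝒱 : VarClass k} {ops : CycleOps 𝒱}
  {W : WeilCohomology.{u, 0} ops} {Γ : Type} [Group Γ]

/-- The action of the element `σ` on the cohomology of `A` as a linear map. -/
def frobenius (A : GVar W Γ) (σ : Γ) : Module.End W.K (W.H A.X) := (A.act σ).toLinearMap

/-- The operation of an endomorphism of `X` on the cohomology. -/
def pullback {X : 𝒱.Obj} (g : X ⟶ X) : Module.End W.K (W.H X) := (W.map g).toLinearMap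

/-- `A`, with the action of `σ` on the cohomology, is a model of the covering `C`: for an
automorphism `g` of `A` (a generator of the covering group) the cohomology is generated by the classes
of algebraic cycles and a part `T` which satisfies `IsCyclicCovering` and is pure of weight `n`. -/
def IsModel {κ : Type} [Field κ] [Fintype κ] (C : Covering κ) (A : GVar W Γ) (σ : Γ)
    (τ : W.K →+* ℂ) : Prop :=
  ∃ g : A.X ⟶ A.X, IsCoveringCohomology C (algSpan W A.X) (frobenius A σ) (pullback g) τ

/-- `Z` and the `X i` are members of a class `G` of varieties with an action of the group `Γ` on the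
cohomology with the properties of a Galois action, `G` is closed under products, the element `σ`
(the Frobenius) acts as `q = |κ|` on the Tate twist, the coverings `C i` are large, of different
degrees `N` with `c ≡ 1` modulo `N`, the `X i` are models of the `C i` with nonzero cohomology, and
the images under `τ` of the eigenvalues of `σ` on the cohomology of `Z` satisfy `IsFewBase`. -/
structure IsLargeSystem {κ : Type} [Field κ] [Fintype κ] {ι : Type} [Fintype ι]
    (C : ι → Covering κ) (c : ℕ) [Fact c.Prime] (lam b : ℕ) (χ : Γ →* W.Kˣ)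
    (G : Set (GVar W Γ)) (X : ι → GVar W Γ) (Z : GVar W Γ) (σ : Γ) (τ : W.K →+* ℂ) : Prop where
  galois : GaloisClass χ G
  mem : ∀ i, X i ∈ G
  mem_base : Z ∈ G
  cyclotomic : ((χ σ : W.Kˣ) : W.K) = (Fintype.card κ : W.K)
  large : ∀ i, (C i).IsLarge lam b
  different : ∀ i j, i ≠ j → (C i).N ≠ (C j).N
  congruent : ∀ i, c % (C i).N = 1
  model : ∀ i, IsModel (C i) (X i) σ τ
  ne_zero : ∀ i, (1 : W.H (X i).X) ≠ 0
  base : IsFewBase c (Fintype.card κ) (∏ i, (C i).N) lam b (eigenvalues (frobenius Z σ) τ)

/-- The product `X i₁ × (X i₂ × (⋯ × Z))` with the sum of the pull-backs of the divisors `D i` and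
`E`. -/
noncomputable def productOf {ι : Type} (X : ι → GVar W Γ) (D : ∀ i, (X i).X.Cycles)
    (Z : Polarized 𝒱) : List ι → Polarized 𝒱
  | [] => Z
  | i :: L => (⟨(X i).X, D i⟩ : Polarized 𝒱).prod ops (productOf X D Z L)

end geometry

end Pool.Agent.U222.SL.Geo
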