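import Pool.Agent.U222.SL.Res
import Pool.Agent.U222.HD.Ari
import Pool.Agent.N876.FL.Crit

/-!
# Large primes are separated
-/

set_option autoImplicit false

namespace Pool.Agent.U222.SL

open Finset

/-- the sum of the residues -/
theorem resid {d s : ℕ} (hd : 0 < d) {a : Fin s → ℕ} (hsum : ∑ k, a k = d) {k0 : Fin s}
    (hA0 : 0 < d - a k0) {r : ℕ} (hr0 : 0 < r) (hr : r * (d - a k0) < d) :
    ∑ k, (r * a k) % d = d := by
  classical
  set A := d - a k0 with hA
  have hle : a k0 ≤ d := by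
    rw [← hsum]
    exact single_le_sum (fun _ _ => Nat.zero_le _) (mem_univ k0)
  have hsum2 : ∑ k ∈ univ.erase k0, a k = A := by
    have h1 := add_sum_erase univ a (mem_univ k0)
    omega
  have hlt : ∀ k ∈ univ.erase k0, (r * a k) % d = r * a k := by
    intro k hk
    apply Nat.mod_eq_of_lt
    have h1 : a k ≤ A := by
      rw [← hsum2]
      exact single_le_sum (fun _ _ => Nat.zero_le _) hk
    exact lt_of_le_of_lt (Nat.mul_le_mul_left r h1) hr
  rw [← add_sum_erase univ (fun k => (r * a k) % d) (mem_univ k0), sum_congr rfl hlt, ← mul_sum,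
    hsum2]
  have h1 : (r * a k0) % d = d - r * A := by
    have h2 : 0 < r * A := Nat.mul_pos hr0 hA0
    have h3 : r * a k0 + r * A = r * d := by
      rw [← mul_add]
      congr 1
      omega
    have h4 : r * a k0 = (d - r * A) + (r - 1) * d := by
      have h5 : r * d = (r - 1) * d + d := by
        rw [Nat.sub_mul, one_mul, Nat.sub_add_cancel (Nat.le_mul_of_pos_left d hr0)]
      omega
    rw [h4, Nat.add_mul_mod_self_right, Nat.mod_eq_of_lt (by omega)]
  rw [h1]
  omega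

theorem resid' {c f d s : ℕ} (hd : 0 < d) (hc : c % d = 1 % d) {a : Fin s → ℕ} (hsum : ∑ k, a k = d)
    {k0 : Fin s} (hA0 : 0 < d - a k0) {r x : ℕ} (hr0 : 0 < r) (hr : r * (d - a k0) < d)
    (hx : x ≡ r [MOD d]) : ∑ k, ∑ t ∈ range f, (x * a k * c ^ t) % d = f * d := by
  have h1 : ∀ k, ∑ t ∈ range f, (x * a k * c ^ t) % d = f * ((r * a k) % d) := by
    intro k
    have h2 : ∀ t ∈ range f, (x * a k * c ^ t) % d = (r * a k) % d := by
      intro t _
      have h3 : c ^ t ≡ 1 [MOD d] := by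
        have h4 : c ≡ 1 [MOD d] := hc
        simpa using h4.pow t
      have h5 : x * a k * c ^ t ≡ r * a k * 1 [MOD d] := (hx.mul_right (a k)).mul h3
      rw [mul_one] at h5
      exact h5
    rw [sum_congr rfl h2, sum_const, card_range, smul_eq_mul]
  rw [sum_congr rfl fun k _ => h1 k, ← mul_sum, resid hd hsum hA0 hr0 hr]

section

variable {ι : Type} [Fintype ι] {c f b lam : ℕ} {d n s : ι → ℕ} {a : ∀ i, Fin (s i) → ℕ}

/-- residues below `d / A` are low -/
theorem lo_of {N : ℕ} (hf : 0 < f) (hN : 0 < N) (hdN : ∀ i, d i ∣ N) (hd : ∀ i, 0 < d i)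
    (hc : ∀ i, c % d i = 1 % d i) (hsum : ∀ i, ∑ k, a i k = d i) {k0 : ∀ i, Fin (s i)}
    (hA0 : ∀ i, 0 < d i - a i (k0 i)) {I : Finset ι} {δ : ℕ} (hδ : δ < ∑ i ∈ I, n i)
    {x : ι → ℕ} (hx : ∀ i ∈ I, ∃ r, 0 < r ∧ r * (d i - a i (k0 i)) < d i ∧ x i ≡ r [MOD d i]) :
    Lo c f N δ d n s a I x := by
  unfold Lo
  have h1 : wt c f N d s a I x = f * N * I.card := by
    unfold wt
    have h2 : ∀ i ∈ I, (N / d i) * ∑ k, ∑ t ∈ range f, (x i * a i k * c ^ t) % d i = f * N := by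
      intro i hi
      obtain ⟨r, h3, h4, h5⟩ := hx i hi
      rw [resid' (hd i) (hc i) (hsum i) (hA0 i) h3 h4 h5]
      have h6 : N / d i * (f * d i) = f * (N / d i * d i) := by ring
      rw [h6, Nat.div_mul_cancel (hdN i)]
    rw [sum_congr rfl h2, sum_const, smul_eq_mul, mul_comm]
  rw [h1]
  have h2 : 2 * (f * N * I.card) + f * N * δ = f * N * (2 * I.card + δ) := by ring
  rw [h2]
  apply Nat.mul_lt_mul_of_pos_left _ (Nat.mul_pos hf hN)
  rw [sum_add_distrib, sum_const, smul_eq_mul]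
  omega

/-- **large primes are separated** -/
theorem sep_large (hf : 0 < f) (hp : ∀ i, (d i).Prime) (hne : ∀ i i', i ≠ i' → d i ≠ d i')
    (hc : ∀ i, c % d i = 1 % d i) (hsum : ∀ i, ∑ k, a i k = d i)
    (hk : ∀ i, ∃ k0, 2 ≤ d i - a i k0 ∧ (d i - a i k0) ^ 2 * b + (d i - a i k0) < d i)
    (hn : ∀ i, lam < n i) {I : Finset ι} (hI : I.Nonempty) :
    SepI c f (∏ i, d i) lam b d n s a I := by
  classical
  choose k0 hk1 hk2 using hk
  have hd0 : ∀ i, 0 < d i := fun i => (hp i).pos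
  have hN : 0 < ∏ i, d i := prod_pos fun i _ => hd0 i
  have hdN : ∀ i, d i ∣ ∏ i, d i := fun i => dvd_prod_of_mem _ (mem_univ i)
  have hco : ∀ i j, i ≠ j → (d i).Coprime (d j) := fun i j hij =>
    (Nat.coprime_primes (hp i) (hp j)).2 (hne i j hij)
  have hA0 : ∀ i, 0 < d i - a i (k0 i) := fun i => by have := hk1 i; omega
  have hwin := fun i => Pool.Agent.U222.HD.Ari.window (hp i) (hk1 i) (hk2 i)
  choose q hq1 hq2 using hwin
  intro j hj
  -- the inverses
  have hinv : ∀ i, ∃ y : ℕ, y.Coprime (d i) ∧ (i ∈ I → y * j i ≡ 1 [MOD d i]) := by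
    intro i
    by_cases hi : i ∈ I
    · have h1 : (j i).Coprime (d i) := ((hp i).coprime_iff_not_dvd.2 (hj i hi)).symm
      obtain ⟨y, hy1, hy2⟩ := Pool.Agent.N876.FL.exists_gcd_unit (hd0 i) (j i)
      refine ⟨y, hy1, fun _ => ?_⟩
      have h2 : (j i).gcd (d i) = 1 := h1
      rwa [h2] at hy2
    · exact ⟨1, Nat.coprime_one_left _, fun h => absurd h hi⟩
  choose y hy1 hy2 using hinv
  have hqc : ∀ i k, (q i k).Coprime (d i) := by
    intro i k
    obtain ⟨h1, h2⟩ := hq1 i k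
    refine (Nat.coprime_of_lt_prime h1.ne' ?_ (hp i)).symm
    exact lt_of_le_of_lt (Nat.le_mul_of_pos_right _ (hA0 i)) h2
  have hu : ∀ k : Fin (b + 1), ∃ u : ℕ, u.Coprime (∏ i, d i) ∧ ∀ i, u ≡ q i k * y i [MOD d i] :=
    fun k => Pool.Agent.N876.TC.exists_crt hd0 hco (fun i => q i k * y i)
      fun i => (hqc i k).mul_left (hy1 i)
  choose u hu1 hu2 using hu
  have huj : ∀ k i, i ∈ I → u k * j i ≡ q i k [MOD d i] := by
    intro k i hi
    have h1 := (hu2 k i).mul_right (j i)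
    have h2 := (hy2 i hi).mul_left (q i k)
    rw [mul_one, ← mul_assoc] at h2
    exact h1.trans h2
  have hpos : ∀ δ, δ ≤ lam → δ < ∑ i ∈ I, n i := by
    intro δ hδ
    obtain ⟨i, hi⟩ := hI
    have h1 : n i ≤ ∑ i ∈ I, n i := single_le_sum (fun _ _ => Nat.zero_le _) hi
    have h2 := hn i
    omega
  refine ⟨u, fun k => ⟨hu1 k, ?_⟩, ?_⟩
  · exact lo_of hf hN hdN hd0 hc hsum hA0 (hpos lam le_rfl) fun i hi =>
      ⟨q i k, (hq1 i k).1, (hq1 i k).2, huj k i hi⟩
  · intro k l hkl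
    have hv : ∀ i, ∃ v x z : ℕ, v.Coprime (d i) ∧ 0 < x ∧ x * (d i - a i (k0 i)) < d i ∧ 0 < z ∧
        z * (d i - a i (k0 i)) < d i ∧ q i k * v ≡ x [MOD d i] ∧ d i ∣ q i l * v + z :=
      fun i => hq2 i k l hkl
    choose v x z hv0 hx0 hx hz0 hz hqx hqz using hv
    obtain ⟨V, hV1, hV2⟩ := Pool.Agent.N876.TC.exists_crt hd0 hco v hv0
    refine ⟨V, hV1, ?_, ?_⟩
    · refine lo_of hf hN hdN hd0 hc hsum hA0 (hpos 0 (Nat.zero_le _)) fun i hi =>
        ⟨x i, hx0 i, hx i, ?_⟩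
      have h1 : V * u k * j i = V * (u k * j i) := by ring
      rw [h1]
      refine ((hV2 i).mul (huj k i hi)).trans ?_
      rw [mul_comm]
      exact hqx i
    · refine lo_of hf hN hdN hd0 hc hsum hA0 (hpos 0 (Nat.zero_le _)) fun i hi =>
        ⟨z i, hz0 i, hz i, ?_⟩
      set t := V * u l * j i with ht
      have h1 : (∏ i, d i - 1) * (V * u l) * j i = (∏ i, d i - 1) * t := by rw [ht]; ring
      rw [h1]
      have h2 : t ≡ q i l * v i [MOD d i] := by
        have h3 : t = V * (u l * j i) := by rw [ht]; ring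
        rw [h3]
        refine ((hV2 i).mul (huj l i hi)).trans ?_
        rw [mul_comm]
      have h3 : t + z i ≡ 0 [MOD d i] :=
        (h2.add_right (z i)).trans ((Nat.modEq_zero_iff_dvd).2 (hqz i))
      have h4 : (∏ i, d i - 1) * t + t ≡ 0 [MOD d i] := by
        have h5 : (∏ i, d i - 1) * t + t = (∏ i, d i) * t := by
          rw [Nat.sub_mul, one_mul, Nat.sub_add_cancel (Nat.le_mul_of_pos_left t hN)]
        rw [h5]
        exact (Nat.modEq_zero_iff_dvd).2 ((hdN i).mul_right t)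
      have h5 : (∏ i, d i - 1) * t + t ≡ z i + t [MOD d i] := by
        rw [add_comm (z i) t]
        exact h4.trans h3.symm
      exact Nat.ModEq.add_right_cancel' t h5

end

end Pool.Agent.U222.SL
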