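import Pool.Agent.N876.FL.Lev

/-!
# The slopes of products of eigenvalues, for all embeddings
-/

set_option autoImplicit false

namespace Pool.Agent.U222.SL

open Finset Polynomial Pool.Agent.N876.TC Pool.Agent.N876.UV Pool.Agent.W528.HA Pool.Agent.W528.HB

variable {c : ℕ} [Fact c.Prime]

/-- the numerator of the weight -/
def wt {ι : Type} (c f N : ℕ) (d s : ι → ℕ) (a : ∀ i, Fin (s i) → ℕ) (I : Finset ι)
    (j : ι → ℕ) : ℕ :=
  ∑ i ∈ I, (N / d i) * ∑ k, ∑ t ∈ range f, (j i * a i k * c ^ t) % d i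

/-- the weight is small -/
def Lo {ι : Type} (c f N δ : ℕ) (d n s : ι → ℕ) (a : ∀ i, Fin (s i) → ℕ) (I : Finset ι)
    (j : ι → ℕ) : Prop :=
  2 * wt c f N d s a I j + f * N * δ < f * N * ∑ i ∈ I, (n i + 2)

theorem Lo.zero {ι : Type} {f N δ : ℕ} {d n s : ι → ℕ} {a : ∀ i, Fin (s i) → ℕ} {I : Finset ι}
    {j : ι → ℕ} (h : Lo c f N δ d n s a I j) : Lo c f N 0 d n s a I j := by
  unfold Lo at h ⊢
  have : 0 ≤ f * N * δ := Nat.zero_le _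
  omega

theorem states {ι : Type} {N : ℕ} (hN : 0 < N) {d n s : ι → ℕ}
    (hd : ∀ i, 2 ≤ d i) (hdN : ∀ i, d i ∣ N) (κ : Type) [Field κ] [Fintype κ] [CharP κ c] {f : ℕ}
    (hf : Fintype.card κ = c ^ f) {z : ι → κ} (hz : ∀ i, IsPrimitiveRoot (z i) (d i))
    (l : ∀ i, Fin (s i) → Fin (n i + 1) → κ) (a : ∀ i, Fin (s i) → ℕ)
    (ha : ∀ i k, (a i k).Coprime (d i))
    {W : ι → Type} [∀ i, AddCommGroup (W i)] [∀ i, Module ℂ (W i)]
    [∀ i, FiniteDimensional ℂ (W i)] {Φ g : ∀ i, Module.End ℂ (W i)}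
    (h : ∀ i, IsCov (d i) (l i) (a i) (z i) (Φ i) (g i))
    {I : Finset ι} {α : ι → ℂ}
    (hα : ∀ i ∈ I, (Φ i).HasEigenvalue (α i)) (hα0 : ∀ i ∈ I, α i ≠ 0)
    (fe : AA →+* PadicAlgCl c) {ζ : AA} (hζ : IsPrimitiveRoot ζ N) :
    ∃ hx : ∀ i ∈ I, α i ∈ AA, ∃ j : ι → ℕ, (∀ i ∈ I, ¬ d i ∣ j i) ∧
      ∀ u δ : ℕ, u.Coprime N → Lo c f N δ d n s a I (fun i => u * j i) →
        ∀ fe' : AA →+* PadicAlgCl c, fe' ζ = fe ζ ^ u →
          (∏ i ∈ I.attach, ‖fe' ⟨α i.1, hx i.1 i.2⟩‖) ^ 2 <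
            ‖((Fintype.card κ : ℕ) : PadicAlgCl c)‖ ^ (∑ i ∈ I, n i + δ) := by
  classical
  obtain ⟨k, _, R, res, _, _, hR⟩ := Pool.Agent.W999.HB.TP.main c
  have _ : Algebra (ZMod c) κ := ZMod.algebra κ c
  have _ : Algebra (ZMod c) k := ZMod.algebra k c
  have hκk : Nonempty (κ →ₐ[ZMod c] k) := ⟨IsAlgClosed.lift⟩
  obtain ⟨eκ'⟩ := hκk
  set eκ : κ →+* k := (eκ' : κ →+* k)
  have hOm : ∀ i, ∃ Ω : PadicAlgCl c, IsPrimitiveRoot Ω (d i) ∧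
      ∃ h : Ω ∈ R, res ⟨Ω, h⟩ = eκ (z i) := fun i => exists_Om (hd i) hf (hz i) hR eκ
  choose Ω hΩ hΩz using hOm
  have hcs := fun (i : ι) (hi : i ∈ I) => cov_slope (hd i) κ hf (hz i) hR eκ (hΩ i) (hΩz i) (l i)
    (a i) (ha i) (h i) (hα i hi) (hα0 i hi)
  choose hx μ hμ1 hμ2 hμ3 using hcs
  refine ⟨hx, ?_⟩
  -- the exponents
  have hj : ∀ i (hi : i ∈ I), ∃ j : ℕ, ¬ d i ∣ j ∧ fe (μ i hi) = Ω i ^ j := by
    intro i hi
    have : NeZero (d i) := ⟨by have := hd i; omega⟩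
    obtain ⟨j, _, hj⟩ := (hΩ i).eq_pow_of_pow_eq_one (ξ := fe (μ i hi))
      (by rw [← map_pow, hμ1, map_one])
    refine ⟨j, ?_, hj.symm⟩
    intro h0
    apply hμ2 i hi
    apply fe.injective
    rw [← hj, map_one]
    exact ((hΩ i).pow_eq_one_iff_dvd j).mpr h0
  choose j0 hj0 hj1 using hj
  set j : ι → ℕ := fun i => if hi : i ∈ I then j0 i hi else 0 with hjdef
  have hjI : ∀ i (hi : i ∈ I), j i = j0 i hi := by
    intro i hi
    simp only [hjdef]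
    rw [dif_pos hi]
  refine ⟨j, fun i hi => by rw [hjI i hi]; exact hj0 i hi, ?_⟩
  intro u δ hu hlt fe' hfe2
  have hμ' : ∀ i (hi : i ∈ I), fe' (μ i hi) = Ω i ^ (u * j i) := by
    intro i hi
    have : NeZero N := ⟨hN.ne'⟩
    obtain ⟨t, _, ht⟩ := hζ.eq_pow_of_pow_eq_one (ξ := μ i hi) (by
      obtain ⟨v, hv⟩ := hdN i
      rw [hv, pow_mul, hμ1, one_pow])
    have h1 : fe' (μ i hi) = fe (μ i hi) ^ u := by
      rw [← ht, map_pow, map_pow, hfe2, ← pow_mul, ← pow_mul, mul_comm]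
    rw [h1, hj1 i hi, ← pow_mul, hjI i hi, mul_comm]
  have hnd : ∀ i (hi : i ∈ I), ¬ d i ∣ u * j i := by
    intro i hi h0
    have h1 : (d i).Coprime u := (Nat.Coprime.coprime_dvd_right (hdN i) hu).symm
    rw [hjI i hi] at h0
    exact hj0 i hi (h1.dvd_of_dvd_mul_left h0)
  have hest := fun i (hi : i ∈ I) => hμ3 i hi fe' (u * j i) (hnd i hi) (hμ' i hi)
  set ρ := ‖((c : ℕ) : PadicAlgCl c)‖ with hρ
  have hρ0 : 0 < ρ := norm_c_pos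
  have hρ1 : ρ < 1 := norm_c_lt
  set A : ι → ℕ := fun i => ∑ k, ∑ t ∈ range f, (u * j i * a i k * c ^ t) % d i with hAdef
  set P := ∏ i ∈ I.attach, ‖fe' ⟨α i.1, hx i.1 i.2⟩‖ with hP
  have hP0 : 0 ≤ P := prod_nonneg fun i _ => norm_nonneg _
  have h1 : P ^ N * ρ ^ (∑ i ∈ I, (N / d i) * A i) ≤ ρ ^ (∑ i ∈ I, f * (n i + 1) * N) := by
    rw [hP, ← prod_pow, ← prod_pow_eq_pow_sum, ← prod_pow_eq_pow_sum,
      ← prod_attach I (fun i => ρ ^ ((N / d i) * A i)),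
      ← prod_attach I (fun i => ρ ^ (f * (n i + 1) * N)), ← prod_mul_distrib]
    apply prod_le_prod
    · intro i _
      exact mul_nonneg (pow_nonneg (norm_nonneg _) _) (pow_nonneg hρ0.le _)
    · intro i _
      have h2 := pow_le_pow_left₀ (mul_nonneg (pow_nonneg (norm_nonneg _) _)
        (pow_nonneg hρ0.le _)) (hest i.1 i.2) (N / d i.1)
      have h3 : d i.1 * (N / d i.1) = N := Nat.mul_div_cancel' (hdN i.1)
      rw [mul_pow, ← pow_mul, ← pow_mul, ← pow_mul, h3] at h2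
      have h4 : f * (n i.1 + 1) * d i.1 * (N / d i.1) = f * (n i.1 + 1) * N := by
        rw [mul_assoc _ (d i.1), h3]
      rw [h4] at h2
      rw [mul_comm (N / d i.1)]
      exact h2
  have hq : ‖((Fintype.card κ : ℕ) : PadicAlgCl c)‖ = ρ ^ f := by
    rw [hf]
    push_cast
    rw [norm_pow]
  rw [hq, ← pow_mul]
  have hlt' : 2 * (∑ i ∈ I, (N / d i) * A i) + f * N * δ < f * N * ∑ i ∈ I, (n i + 2) := hlt
  set B := ∑ i ∈ I, (N / d i) * A i with hB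
  have h5 : ∑ i ∈ I, f * (n i + 1) * N = f * N * ∑ i ∈ I, (n i + 1) := by
    rw [mul_sum]
    exact sum_congr rfl fun i _ => by ring
  have h6 : ∑ i ∈ I, (n i + 2) + ∑ i ∈ I, n i = 2 * ∑ i ∈ I, (n i + 1) := by
    rw [← sum_add_distrib, mul_sum]
    exact sum_congr rfl fun i _ => by ring
  have h7 : (P ^ 2) ^ N * ρ ^ (2 * B) ≤ ρ ^ (2 * (f * N * ∑ i ∈ I, (n i + 1))) := by
    have h8 := pow_le_pow_left₀ (mul_nonneg (pow_nonneg hP0 _) (pow_nonneg hρ0.le _)) h1 2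
    rw [mul_pow, ← pow_mul, ← pow_mul, ← pow_mul, h5, mul_comm N 2, pow_mul, mul_comm B 2,
      mul_comm _ 2] at h8
    exact h8
  have h9 : 2 * (f * N * ∑ i ∈ I, (n i + 1)) = f * N * ∑ i ∈ I, (n i + 2) + f * N * ∑ i ∈ I, n i := by
    rw [← mul_add, h6]
    ring
  rw [h9, pow_add] at h7
  have h10 : ρ ^ (f * N * ∑ i ∈ I, (n i + 2)) < ρ ^ (2 * B + f * N * δ) :=
    pow_lt_pow_right_of_lt_one₀ hρ0 hρ1 hlt'
  have h11 : (P ^ 2) ^ N * ρ ^ (2 * B) < ρ ^ (2 * B + f * N * δ) * ρ ^ (f * N * ∑ i ∈ I, n i) :=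
    lt_of_le_of_lt h7 (mul_lt_mul_of_pos_right h10 (pow_pos hρ0 _))
  have h12 : (P ^ 2) ^ N < (ρ ^ (f * (∑ i ∈ I, n i + δ))) ^ N := by
    rw [pow_add, mul_assoc, mul_comm (ρ ^ (2 * B))] at h11
    have h13 := lt_of_mul_lt_mul_right h11 (pow_nonneg hρ0.le _)
    rw [← pow_add] at h13
    have h14 : f * N * δ + f * N * ∑ i ∈ I, n i = f * (∑ i ∈ I, n i + δ) * N := by ring
    rw [h14, pow_mul ρ _ N] at h13
    exact h13
  exact lt_of_pow_lt_pow_left₀ N (pow_nonneg hρ0.le _) h12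

end Pool.Agent.U222.SL
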