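import Mathlib
import Pool.Agent.U222.SL.Slope

/-!
# Automorphisms of the field of algebraic numbers
-/

set_option autoImplicit false

namespace Pool.Agent.U222.SL

open Finset Polynomial Pool.Agent.N876.TC

theorem cj_cj (x : AA) : cj (cj x) = x := by
  apply Subtype.ext
  exact Complex.conj_conj _

/-- complex conjugation as an automorphism -/
noncomputable def cjE : AA ≃ₐ[ℚ] AA :=
  AlgEquiv.ofBijective cj.toRatAlgHom ⟨fun x y h => by
    have h1 : cj x = cj y := h
    have h2 := congrArg cj h1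
    rwa [cj_cj, cj_cj] at h2, fun y => ⟨cj y, cj_cj y⟩⟩

theorem cjE_apply (x : AA) : cjE x = cj x := rfl

instance closureAA : IsAlgClosure ℚ AA := algebraicClosure.isAlgClosure ℚ ℂ

instance closedAA : IsAlgClosed AA := IsAlgClosure.isAlgClosed ℚ

instance normalAA : Normal ℚ AA := IsAlgClosure.normal ℚ AA

theorem exists_aut {N : ℕ} (hN : 0 < N) {ζ : AA} (hζ : IsPrimitiveRoot ζ N) {u : ℕ}
    (hu : u.Coprime N) : ∃ σ : AA ≃ₐ[ℚ] AA, σ ζ = ζ ^ u := by
  have h1 : IsConjRoot ℚ (ζ ^ u) ζ := by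
    show minpoly ℚ _ = minpoly ℚ _
    rw [← cyclotomic_eq_minpoly_rat hζ hN,
      ← cyclotomic_eq_minpoly_rat (hζ.pow_of_coprime u hu) hN]
  obtain ⟨σ, hσ⟩ := isConjRoot_iff_exists_algEquiv.1 h1
  exact ⟨σ, hσ⟩

/-- a primitive root of order `N` is its own conjugate inverse -/
theorem cj_root {N : ℕ} (hN : 0 < N) {ζ : AA} (hζ : IsPrimitiveRoot ζ N) :
    cj ζ = ζ ^ (N - 1) := by
  have h1 : ζ * cj ζ = 1 := by
    apply Subtype.ext
    show (ζ : ℂ) * starRingEnd ℂ ζ = 1
    have h2 : ‖(ζ : ℂ)‖ = 1 := by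
      have h3 : (ζ : ℂ) ^ N = 1 := by
        have := congrArg Subtype.val hζ.pow_eq_one
        simpa using this
      exact Complex.norm_eq_one_of_pow_eq_one h3 hN.ne'
    rw [Complex.mul_conj, Complex.normSq_eq_norm_sq, h2]
    simp
  have h2 : ζ * ζ ^ (N - 1) = 1 := by
    rw [← pow_succ', Nat.sub_add_cancel hN, hζ.pow_eq_one]
  have h3 : ζ ≠ 0 := hζ.ne_zero hN.ne'
  exact mul_left_cancel₀ h3 (h1.trans h2.symm)

theorem fixes {N : ℕ} [NeZero N] (φ : CyclotomicField N ℚ →ₐ[ℚ] AA) {ζ : AA}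
    (hζ : IsPrimitiveRoot ζ N) : ∃ x, φ x = ζ := by
  have : NeZero ((N : ℕ) : ℚ) := ⟨by exact_mod_cast NeZero.ne N⟩
  have hc : IsCyclotomicExtension {N} ℚ (CyclotomicField N ℚ) :=
    CyclotomicField.isCyclotomicExtension N ℚ
  have h1 := (IsCyclotomicExtension.zeta_spec N ℚ (CyclotomicField N ℚ)).map_of_injective
    (f := φ) (φ : CyclotomicField N ℚ →+* AA).injective
  obtain ⟨i, _, hi⟩ := h1.eq_pow_of_pow_eq_one hζ.pow_eq_one
  exact ⟨IsCyclotomicExtension.zeta N ℚ (CyclotomicField N ℚ) ^ i, by rw [map_pow, hi]⟩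

/-- the number of the irreducible factors over the cyclotomic field -/
noncomputable def numFac (N : ℕ) (β : ℂ) : ℕ :=
  Multiset.card (UniqueFactorizationMonoid.factors
    ((minpoly ℚ β).map (algebraMap ℚ (CyclotomicField N ℚ))))

theorem card_le_numFac {N : ℕ} (hN : 0 < N) {ζ : AA} (hζ : IsPrimitiveRoot ζ N) {β : AA}
    {T : Type} [Fintype T] (σ : T → (AA ≃ₐ[ℚ] AA))
    (hσ : ∀ s t, s ≠ t → ∀ τ : AA ≃ₐ[ℚ] AA, τ ζ = ζ → τ (σ s β) ≠ σ t β) :
    Fintype.card T ≤ numFac N (β : ℂ) := by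
  classical
  have : NeZero N := ⟨hN.ne'⟩
  let φ : CyclotomicField N ℚ →ₐ[ℚ] AA := IsAlgClosed.lift
  let _ : Algebra (CyclotomicField N ℚ) AA := (φ : CyclotomicField N ℚ →+* AA).toAlgebra
  have _ : IsScalarTower ℚ (CyclotomicField N ℚ) AA := IsScalarTower.of_algebraMap_eq
    (fun x => (φ.commutes x).symm)
  have _ : Normal (CyclotomicField N ℚ) AA := Normal.tower_top_of_normal ℚ _ _
  have halg : Algebra.IsAlgebraic ℚ AA := algebraicClosure.isAlgebraic ℚ ℂ
  have hint : ∀ x : AA, IsIntegral (CyclotomicField N ℚ) x := fun x =>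
    ((halg.isAlgebraic x).isIntegral).tower_top
  set P := (minpoly ℚ (β : ℂ)).map (algebraMap ℚ (CyclotomicField N ℚ)) with hP
  have hβ : minpoly ℚ (β : ℂ) = minpoly ℚ β :=
    minpoly.algebraMap_eq (algebraMap AA ℂ).injective β
  have hP0 : P ≠ 0 := by
    rw [hP, Polynomial.map_ne_zero_iff (algebraMap ℚ _).injective, hβ]
    exact minpoly.ne_zero (halg.isAlgebraic β).isIntegral
  have hdvd : ∀ t, minpoly (CyclotomicField N ℚ) (σ t β) ∣ P := by
    intro t
    have h1 := minpoly.dvd_map_of_isScalarTower ℚ (CyclotomicField N ℚ) (σ t β)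
    rwa [minpoly.algEquiv_eq (σ t) β, ← hβ] at h1
  have hinj : Function.Injective fun t => minpoly (CyclotomicField N ℚ) (σ t β) := by
    intro s t hst
    by_contra hne
    have h1 : IsConjRoot (CyclotomicField N ℚ) (σ t β) (σ s β) := hst.symm
    obtain ⟨τ, hτ⟩ := isConjRoot_iff_exists_algEquiv.1 h1
    obtain ⟨x, hx⟩ := fixes φ hζ
    refine hσ s t hne (τ.restrictScalars ℚ) ?_ hτ
    rw [← hx]
    exact τ.commutes x
  have hex : ∀ t, ∃ R ∈ UniqueFactorizationMonoid.factors P,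
      Associated (minpoly (CyclotomicField N ℚ) (σ t β)) R := fun t =>
    UniqueFactorizationMonoid.exists_mem_factors_of_dvd hP0 (minpoly.irreducible (hint _)) (hdvd t)
  choose g hg1 hg2 using hex
  have hinj2 : Function.Injective g := by
    intro s t hst
    apply hinj
    have h1 := (hg2 s).trans (hst ▸ (hg2 t).symm)
    exact eq_of_monic_of_associated (minpoly.monic (hint _)) (minpoly.monic (hint _)) h1
  have hsub : univ.image g ⊆ (UniqueFactorizationMonoid.factors P).toFinset := by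
    intro R hR
    rw [mem_image] at hR
    obtain ⟨t, _, rfl⟩ := hR
    exact Multiset.mem_toFinset.2 (hg1 t)
  have h1 := card_le_card hsub
  rw [card_image_of_injective _ hinj2, card_univ] at h1
  exact h1.trans (Multiset.toFinset_card_le _)

end Pool.Agent.U222.SL
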