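import Pool.Agent.U222.SL.Aut

/-!
# Separated conjugates
-/

set_option autoImplicit false

namespace Pool.Agent.U222.SL

open Finset Polynomial Pool.Agent.N876.TC Pool.Agent.W528.HA Pool.Agent.W528.HB

variable {c : ℕ} [Fact c.Prime]

section

variable {N : ℕ} (hN : 0 < N) {ζ : AA} (hζ : IsPrimitiveRoot ζ N) (fe : AA →+* PadicAlgCl c)
  {q : ℕ} (hQ0 : 0 < ‖((q : ℕ) : PadicAlgCl c)‖)
  {A β : AA} {S e m w d : ℕ} (hm : 0 < m)
  (rel : (A * ((q : ℕ) : AA) ^ e * β) ^ m = ((q : ℕ) : AA) ^ (m * w))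
  (hA : A * cj A = ((q : ℕ) : AA) ^ S) (hw : S + 2 * e + d = 2 * w)

include hm rel in
theorem rel_aut (σ : AA ≃ₐ[ℚ] AA) :
    ‖fe (σ A)‖ * ‖((q : ℕ) : PadicAlgCl c)‖ ^ e * ‖fe (σ β)‖ =
      ‖((q : ℕ) : PadicAlgCl c)‖ ^ w := by
  have h2 := congrArg (fun x => ‖fe (σ x)‖) rel
  simp only [map_pow, map_mul, map_natCast, norm_pow, norm_mul] at h2
  rw [pow_mul'] at h2
  exact (pow_left_inj₀ (mul_nonneg (mul_nonneg (norm_nonneg _)
    (pow_nonneg (norm_nonneg _) e)) (norm_nonneg _))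
      (pow_nonneg (norm_nonneg _) w) hm.ne').mp h2

include hA in
theorem cj_aut (σ : AA ≃ₐ[ℚ] AA) :
    ‖fe (σ A)‖ * ‖fe ((cjE.trans σ) A)‖ = ‖((q : ℕ) : PadicAlgCl c)‖ ^ S := by
  have h2 := congrArg (fun x => ‖fe (σ x)‖) hA
  simp only [map_pow, map_mul, map_natCast, norm_pow, norm_mul] at h2
  exact h2

include hQ0 hA in
/-- one side is low, so the other one is high -/
theorem high_of_low (σ : AA ≃ₐ[ℚ] AA)
    (h : ‖fe ((cjE.trans σ) A)‖ ^ 2 < ‖((q : ℕ) : PadicAlgCl c)‖ ^ S) :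
    ‖((q : ℕ) : PadicAlgCl c)‖ ^ S < ‖fe (σ A)‖ ^ 2 := by
  set Q := ‖((q : ℕ) : PadicAlgCl c)‖
  have h1 := cj_aut fe hA σ
  have h2 : ‖fe (σ A)‖ ^ 2 * ‖fe ((cjE.trans σ) A)‖ ^ 2 = Q ^ S * Q ^ S := by
    rw [← mul_pow, h1]
    ring
  have hQS : 0 < Q ^ S := pow_pos hQ0 S
  have hy : 0 < ‖fe (σ A)‖ ^ 2 := by
    rcases (sq_nonneg ‖fe (σ A)‖).lt_or_eq with h3 | h3
    · exact h3
    · rw [← h3, zero_mul] at h2
      exact absurd h2 (by positivity)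
  by_contra h4
  push Not at h4
  have h5 : ‖fe (σ A)‖ ^ 2 * ‖fe ((cjE.trans σ) A)‖ ^ 2 < Q ^ S * Q ^ S := by
    calc ‖fe (σ A)‖ ^ 2 * ‖fe ((cjE.trans σ) A)‖ ^ 2
        < ‖fe (σ A)‖ ^ 2 * Q ^ S := mul_lt_mul_of_pos_left h hy
      _ ≤ Q ^ S * Q ^ S := mul_le_mul_of_nonneg_right h4 hQS.le
  exact absurd h2 h5.ne

include hQ0 hm rel in
/-- different absolute values of `A` give different conjugates of `β` -/
theorem ne_of_sep (σ τ : AA ≃ₐ[ℚ] AA) (h1 : ‖fe (σ A)‖ ^ 2 < ‖((q : ℕ) : PadicAlgCl c)‖ ^ S)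
    (h2 : ‖((q : ℕ) : PadicAlgCl c)‖ ^ S < ‖fe (τ A)‖ ^ 2) : σ β ≠ τ β := by
  intro h0
  have k1 := rel_aut fe hm rel σ
  have k2 := rel_aut fe hm rel τ
  rw [h0] at k1
  set Q := ‖((q : ℕ) : PadicAlgCl c)‖
  have h3 : 0 < Q ^ w := pow_pos hQ0 w
  have hb : ‖fe (τ β)‖ ≠ 0 := by
    intro h4
    rw [h4, mul_zero] at k2
    exact h3.ne k2
  have he : Q ^ e ≠ 0 := (pow_pos hQ0 e).ne'
  have h4 : ‖fe (σ A)‖ = ‖fe (τ A)‖ := by
    have h5 := k1.trans k2.symm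
    exact mul_right_cancel₀ he (mul_right_cancel₀ hb h5)
  rw [h4] at h1
  exact absurd (h1.trans h2) (lt_irrefl _)

include hQ0 hm rel hw in
/-- the slope of the conjugates of `β` -/
theorem slope_beta {lam : ℕ} (σ : AA ≃ₐ[ℚ] AA)
    (h1 : ‖fe (σ A)‖ ^ 2 < ‖((q : ℕ) : PadicAlgCl c)‖ ^ (S + lam)) :
    ‖((q : ℕ) : PadicAlgCl c)‖ ^ d < ‖((q : ℕ) : PadicAlgCl c)‖ ^ lam * ‖fe (σ β)‖ ^ 2 := by
  have k1 := rel_aut fe hm rel σ
  set Q := ‖((q : ℕ) : PadicAlgCl c)‖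
  have h3 : 0 < Q ^ w := pow_pos hQ0 w
  have hb : 0 < ‖fe (σ β)‖ ^ 2 := by
    have : ‖fe (σ β)‖ ≠ 0 := by
      intro h4
      rw [h4, mul_zero] at k1
      exact h3.ne k1
    positivity
  have h4 : ‖fe (σ A)‖ ^ 2 * Q ^ (2 * e) * ‖fe (σ β)‖ ^ 2 = Q ^ (2 * w) := by
    have h5 : Q ^ (2 * w) = (Q ^ w) ^ 2 := by rw [← pow_mul, mul_comm]
    rw [h5, ← k1]
    ring
  have he : 0 < Q ^ (2 * e) := pow_pos hQ0 _
  have h5 : Q ^ (2 * w) < Q ^ (S + lam) * Q ^ (2 * e) * ‖fe (σ β)‖ ^ 2 := by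
    rw [← h4]
    exact mul_lt_mul_of_pos_right (mul_lt_mul_of_pos_right h1 he) hb
  rw [← hw] at h5
  have h6 : Q ^ (S + 2 * e + d) = Q ^ (S + 2 * e) * Q ^ d := by rw [pow_add]
  have h7 : Q ^ (S + lam) * Q ^ (2 * e) * ‖fe (σ β)‖ ^ 2 =
      Q ^ (S + 2 * e) * (Q ^ lam * ‖fe (σ β)‖ ^ 2) := by
    rw [pow_add, pow_add]
    ring
  rw [h6, h7] at h5
  exact lt_of_mul_lt_mul_left h5 (pow_pos hQ0 _).le

end

/-- the slopes below `(d - lam) / 2` of the conjugates of `β` -/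
def lowConj (c : ℕ) [Fact c.Prime] (q lam d : ℕ) (β : ℂ) : Set (PadicAlgCl c) :=
  {x | aeval x (minpoly ℚ β) = 0 ∧
    ‖((q : ℕ) : PadicAlgCl c)‖ ^ d < ‖((q : ℕ) : PadicAlgCl c)‖ ^ lam * ‖x‖ ^ 2}

/-- **separated conjugates** -/
theorem core {N : ℕ} (hN : 0 < N) {ζ : AA} (hζ : IsPrimitiveRoot ζ N) (fe : AA →+* PadicAlgCl c)
    {q : ℕ} (hQ0 : 0 < ‖((q : ℕ) : PadicAlgCl c)‖) (hQ1 : ‖((q : ℕ) : PadicAlgCl c)‖ < 1)
    {A β : AA} {S e m w d lam b : ℕ} (hm : 0 < m)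
    (rel : (A * ((q : ℕ) : AA) ^ e * β) ^ m = ((q : ℕ) : AA) ^ (m * w))
    (hA : A * cj A = ((q : ℕ) : AA) ^ S) (hw : S + 2 * e + d = 2 * w)
    (u : Fin (b + 1) → ℕ) (huc : ∀ k, (u k).Coprime N)
    (low1 : ∀ k, ∀ σ : AA ≃ₐ[ℚ] AA, σ ζ = ζ ^ u k →
      ‖fe (σ A)‖ ^ 2 < ‖((q : ℕ) : PadicAlgCl c)‖ ^ (S + lam))
    (low2 : ∀ k l, k ≠ l → ∃ v : ℕ, v.Coprime N ∧
      (∀ σ : AA ≃ₐ[ℚ] AA, σ ζ = ζ ^ (v * u k) →
        ‖fe (σ A)‖ ^ 2 < ‖((q : ℕ) : PadicAlgCl c)‖ ^ S) ∧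
      (∀ σ : AA ≃ₐ[ℚ] AA, σ ζ = ζ ^ ((N - 1) * (v * u l)) →
        ‖fe (σ A)‖ ^ 2 < ‖((q : ℕ) : PadicAlgCl c)‖ ^ S)) :
    b + 1 ≤ (lowConj c q lam d (β : ℂ)).ncard ∧ 2 * b + 2 ≤ numFac N (β : ℂ) := by
  classical
  have hex : ∀ k, ∃ σ : AA ≃ₐ[ℚ] AA, σ ζ = ζ ^ u k := fun k => exists_aut hN hζ (huc k)
  choose σ hσ using hex
  have hcjζ : cjE ζ = ζ ^ (N - 1) := cj_root hN hζ
  have hcj2 : ∀ x : AA, cjE (cjE x) = x := fun x => cj_cj x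
  -- no conjugacy over the cyclotomic field between different `σ k`
  have sepa : ∀ k l, k ≠ l → ∀ τ : AA ≃ₐ[ℚ] AA, τ ζ = ζ → τ (σ l β) ≠ σ k β := by
    intro k l hkl τ hτ h0
    obtain ⟨v, hv, h1, h2⟩ := low2 k l hkl
    obtain ⟨ρ, hρ⟩ := exists_aut hN hζ hv
    have h3 : ((σ k).trans ρ) ζ = ζ ^ (v * u k) := by
      rw [AlgEquiv.trans_apply, hσ, map_pow, hρ, ← pow_mul]
    have h4 : (((σ l).trans τ).trans ρ) ζ = ζ ^ (v * u l) := by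
      rw [AlgEquiv.trans_apply, AlgEquiv.trans_apply, hσ, map_pow, hτ, map_pow, hρ, ← pow_mul]
    have h5 : (cjE.trans (((σ l).trans τ).trans ρ)) ζ = ζ ^ ((N - 1) * (v * u l)) := by
      rw [AlgEquiv.trans_apply, hcjζ, map_pow, h4, ← pow_mul, mul_comm]
    refine ne_of_sep fe hQ0 hm rel _ _ (h1 _ h3) (high_of_low fe hQ0 hA _ (h2 _ h5)) ?_
    rw [AlgEquiv.trans_apply, AlgEquiv.trans_apply, AlgEquiv.trans_apply, h0]
  -- a weaker form of `low1`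
  have low0 : ∀ k, ∀ σ : AA ≃ₐ[ℚ] AA, σ ζ = ζ ^ u k →
      ‖fe (σ A)‖ ^ 2 < ‖((q : ℕ) : PadicAlgCl c)‖ ^ S := by
    intro k σ' h
    refine lt_of_lt_of_le (low1 k σ' h) ?_
    exact pow_le_pow_of_le_one hQ0.le hQ1.le (Nat.le_add_right _ _)
  have sepb : ∀ k l, ∀ τ : AA ≃ₐ[ℚ] AA, τ ζ = ζ → τ ((cjE.trans (σ l)) β) ≠ σ k β := by
    intro k l τ hτ h0
    have h3 : (cjE.trans (cjE.trans ((σ l).trans τ))) ζ = ζ ^ u l := by
      rw [AlgEquiv.trans_apply, AlgEquiv.trans_apply, hcj2, AlgEquiv.trans_apply, hσ, map_pow, hτ]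
    refine ne_of_sep fe hQ0 hm rel _ _ (low0 k _ (hσ k))
      (high_of_low fe hQ0 hA (cjE.trans ((σ l).trans τ)) (low0 l _ h3)) ?_
    rw [AlgEquiv.trans_apply, AlgEquiv.trans_apply, ← h0, AlgEquiv.trans_apply]
  refine ⟨?_, ?_⟩
  · -- the slopes
    have hβ : minpoly ℚ (β : ℂ) = minpoly ℚ β :=
      minpoly.algebraMap_eq (algebraMap AA ℂ).injective β
    have halg : Algebra.IsAlgebraic ℚ AA := algebraicClosure.isAlgebraic ℚ ℂ
    have hne : minpoly ℚ (β : ℂ) ≠ 0 := by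
      rw [hβ]
      exact minpoly.ne_zero (halg.isAlgebraic β).isIntegral
    have hfin : (lowConj c q lam d (β : ℂ)).Finite := by
      refine Set.Finite.subset ((minpoly ℚ (β : ℂ)).rootSet_finite (PadicAlgCl c)) ?_
      intro x hx
      exact (Polynomial.mem_rootSet.2 ⟨hne, hx.1⟩)
    have hinj : Function.Injective fun k => fe (σ k β) := by
      intro k l hkl
      by_contra hne'
      exact sepa k l hne' AlgEquiv.refl rfl (fe.injective hkl).symm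
    have hsub : Set.range (fun k => fe (σ k β)) ⊆ lowConj c q lam d (β : ℂ) := by
      rintro _ ⟨k, rfl⟩
      refine ⟨?_, slope_beta fe hQ0 hm rel hw (σ k) (low1 k _ (hσ k))⟩
      have h1 : aeval (σ k β) (minpoly ℚ β) = 0 := by
        have h3 := Polynomial.aeval_algHom_apply ((σ k : AA ≃ₐ[ℚ] AA) : AA →ₐ[ℚ] AA) β
          (minpoly ℚ β)
        rw [minpoly.aeval, map_zero] at h3
        exact h3
      have h2 := Polynomial.aeval_algHom_apply (fe.toRatAlgHom) (σ k β) (minpoly ℚ β)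
      rw [h1, map_zero] at h2
      rw [hβ]
      exact h2
    have h1 := Set.ncard_le_ncard hsub hfin
    have h2 : (Set.range fun k => fe (σ k β)).ncard = b + 1 := by
      rw [← Set.image_univ, Set.ncard_image_of_injective _ hinj, Set.ncard_univ,
        Nat.card_eq_fintype_card, Fintype.card_fin]
    rwa [h2] at h1
  · -- the factors
    have h1 := card_le_numFac hN hζ (β := β)
      (T := Fin (b + 1) ⊕ Fin (b + 1)) (Sum.elim σ fun k => cjE.trans (σ k)) ?_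
    · rw [Fintype.card_sum, Fintype.card_fin] at h1
      omega
    intro s t hst τ hτ
    -- the inverse of `τ`
    have hτ' : τ.symm ζ = ζ := by
      rw [AlgEquiv.symm_apply_eq, hτ]
    rcases s with k | k <;> rcases t with l | l
    · have hkl : l ≠ k := fun h => hst (by rw [h])
      exact sepa l k hkl τ hτ
    · intro h0
      have h1 : τ.symm ((cjE.trans (σ l)) β) = σ k β := by
        rw [AlgEquiv.symm_apply_eq]
        exact h0.symm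
      exact sepb k l _ hτ' h1
    · exact sepb l k τ hτ
    · have hkl : k ≠ l := fun h => hst (by rw [h])
      intro h0
      obtain ⟨v, hv, h1, h2⟩ := low2 k l hkl
      obtain ⟨ρ, hρ⟩ := exists_aut hN hζ hv
      have h3 : (cjE.trans (cjE.trans (((σ k).trans τ).trans ρ))) ζ = ζ ^ (v * u k) := by
        rw [AlgEquiv.trans_apply, AlgEquiv.trans_apply, hcj2, AlgEquiv.trans_apply,
          AlgEquiv.trans_apply, hσ, map_pow, hτ, map_pow, hρ, ← pow_mul]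
      have h4 : (cjE.trans ((σ l).trans ρ)) ζ = ζ ^ ((N - 1) * (v * u l)) := by
        rw [AlgEquiv.trans_apply, hcjζ, map_pow, AlgEquiv.trans_apply, hσ, map_pow, hρ, ← pow_mul,
          ← pow_mul]
        congr 1
        ring
      refine ne_of_sep fe hQ0 hm rel _ _ (h2 _ h4)
        (high_of_low fe hQ0 hA (cjE.trans (((σ k).trans τ).trans ρ)) (h1 _ h3)) ?_
      have h5 : τ (σ k (cjE β)) = σ l (cjE β) := h0
      show ρ (σ l (cjE β)) = ρ (τ (σ k (cjE β)))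
      rw [h5]

end Pool.Agent.U222.SL
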