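import Pool.Agent.U222.SL.NR
import Pool.Agent.U222.SL.Prime
import Pool.Agent.N876.CG.Alg

/-!
# Coverings of large prime degrees: no resonances, and the eigenvalues are algebraic
-/

set_option autoImplicit false

namespace Pool.Agent.U222.SL

open Finset Polynomial Pool.Agent.N876.TC Pool.Agent.N876.UV Pool.Agent.W528.HA Pool.Agent.W528.HB
  Pool.Agent.N876.FL

variable {c : ℕ} [Fact c.Prime]

section

variable {ι : Type} {N : ℕ} (hN : 0 < N) {d n s : ι → ℕ}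
    (hd : ∀ i, 2 ≤ d i) (hdN : ∀ i, d i ∣ N) (κ : Type) [Field κ] [Fintype κ] [CharP κ c] {f : ℕ}
    (hf : Fintype.card κ = c ^ f) {z : ι → κ} (hz : ∀ i, IsPrimitiveRoot (z i) (d i))
    (l : ∀ i, Fin (s i) → Fin (n i + 1) → κ) (a : ∀ i, Fin (s i) → ℕ)
    (ha : ∀ i k, (a i k).Coprime (d i))
    {K : Type} [Field K] [CharZero K] (σ₀ : K →+* ℂ)
    {T : ι → Type} [∀ i, AddCommGroup (T i)] [∀ i, Module K (T i)]
    [∀ i, FiniteDimensional K (T i)] {Φ g : ∀ i, Module.End K (T i)}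
    (h : ∀ i, IsCov (d i) (l i) (a i) (z i) (Φ i) (g i))

include hN hd hdN hf hz ha h

/-- the eigenvalues are algebraic -/
theorem int_all
    (hpure : ∀ i α, (Φ i).HasEigenvalue α → ‖σ₀ α‖ ^ 2 = (Fintype.card κ : ℝ) ^ n i)
    (i : ι) (α : K) (hα : (Φ i).HasEigenvalue α) : IsIntegral ℚ α := by
  have h1 : ∀ i, ∃ (T' : Type) (_ : AddCommGroup T') (_ : Module ℂ T')
      (_ : FiniteDimensional ℂ T') (Φ' τ' : Module.End ℂ T'), IsCov (d i) (l i) (a i) (z i) Φ' τ' ∧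
        ∀ α, (Φ i).HasEigenvalue α → Φ'.HasEigenvalue (σ₀ α) :=
    fun i => exists_bc (by have := hd i; omega) (h i) σ₀
  choose T' i1 i2 i3 Φ' τ' h2 h3 using h1
  have hq1 : (1 : ℝ) < Fintype.card κ := by exact_mod_cast Fintype.one_lt_card (α := κ)
  have hq0 : (0 : ℝ) < Fintype.card κ := by linarith
  obtain ⟨fe⟩ : Nonempty (AA →+* PadicAlgCl c) := by
    have : Algebra.IsAlgebraic ℚ AA := algebraicClosure.isAlgebraic ℚ ℂ
    exact ⟨((IsAlgClosed.lift : AA →ₐ[ℚ] PadicAlgCl c) : AA →+* PadicAlgCl c)⟩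
  set ζ : AA := ⟨th N, th_mem hN⟩ with hζdef
  have hζ : IsPrimitiveRoot ζ N :=
    IsPrimitiveRoot.of_map_of_injective (f := algebraMap AA ℂ) (th_prim hN)
      (algebraMap AA ℂ).injective
  obtain ⟨hx, -⟩ := states hN hd hdN κ hf hz l a ha h2 (I := {i}) (α := fun _ => σ₀ α)
    (fun i' hi' => by rw [mem_singleton.1 hi']; exact h3 i α hα)
    (fun i' hi' h0 => by
      have h4 := hpure i α hα
      rw [h0, norm_zero, zero_pow two_ne_zero] at h4
      exact (pow_pos hq0 (n i)).ne h4) fe hζ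
  exact Pool.Agent.N876.CG.integral_of_emb σ₀
    (mem_algebraicClosure_iff.mp (hx i (mem_singleton_self i)))

end

section

variable {ι : Type} [Fintype ι] {d n s : ι → ℕ}
    (κ : Type) [Field κ] [Fintype κ] [CharP κ c] {f lam b : ℕ}
    (hf : Fintype.card κ = c ^ f) {z : ι → κ} (hp : ∀ i, (d i).Prime)
    (hz : ∀ i, IsPrimitiveRoot (z i) (d i))
    (l : ∀ i, Fin (s i) → Fin (n i + 1) → κ) (a : ∀ i, Fin (s i) → ℕ)
    (ha : ∀ i k, (a i k).Coprime (d i)) (hsum : ∀ i, ∑ k, a i k = d i)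
    (hk : ∀ i, ∃ k0, 2 ≤ d i - a i k0 ∧ (d i - a i k0) ^ 2 * b + (d i - a i k0) < d i)
    (hn : ∀ i, lam < n i) (hne : ∀ i i', i ≠ i' → d i ≠ d i') (hc : ∀ i, c % d i = 1)
    {K : Type} [Field K] [CharZero K] (σ₀ : K →+* ℂ)
    {T : ι → Type} [∀ i, AddCommGroup (T i)] [∀ i, Module K (T i)]
    [∀ i, FiniteDimensional K (T i)] {Φ g : ∀ i, Module.End K (T i)}
    (h : ∀ i, IsCov (d i) (l i) (a i) (z i) (Φ i) (g i))

include hf hp hz ha hsum hk hn hne hc h

/-- **coverings of large prime degrees** -/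
theorem large_facts
    (hpure : ∀ i α, (Φ i).HasEigenvalue α → ‖σ₀ α‖ ^ 2 = (Fintype.card κ : ℝ) ^ n i) :
    (∀ SZ : Set K, FewSet c (Fintype.card κ) (∏ i, d i) lam b (σ₀ '' SZ) →
      NoResF (Fintype.card κ : K) (fun i => {α | (Φ i).HasEigenvalue α}) SZ) ∧
    NoResF (Fintype.card κ : K) (fun i => {α | (Φ i).HasEigenvalue α}) {1} ∧
    ∀ i α, (Φ i).HasEigenvalue α → IsIntegral ℚ α := by
  have hf0 : 0 < f := by
    rcases Nat.eq_zero_or_pos f with h | h
    · rw [h, pow_zero] at hf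
      have := Fintype.one_lt_card (α := κ)
      omega
    · exact h
  have hN : 0 < ∏ i, d i := prod_pos fun i _ => (hp i).pos
  have hdN : ∀ i, d i ∣ ∏ i, d i := fun i => dvd_prod_of_mem _ (mem_univ i)
  have hsep : ∀ I : Finset ι, I.Nonempty → SepI c f (∏ i, d i) lam b d n s a I := fun I hI =>
    sep_large hf0 hp hne (fun i => by rw [hc i, Nat.mod_eq_of_lt (hp i).one_lt]) hsum hk hn hI
  have hres : ∀ SZ : Set K, FewSet c (Fintype.card κ) (∏ i, d i) lam b (σ₀ '' SZ) →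
      NoResF (Fintype.card κ : K) (fun i => {α | (Φ i).HasEigenvalue α}) SZ :=
    fun SZ hSZ => nores_fewF hN (fun i => (hp i).two_le) hdN κ hf hz l a ha σ₀ h hsep hpure hSZ
  refine ⟨hres, hres _ ?_, fun i α hα =>
    int_all hN (fun i => (hp i).two_le) hdN κ hf hz l a ha σ₀ h hpure i α hα⟩
  rw [Set.image_singleton, map_one]
  exact fewSet_one Fintype.one_lt_card

end

end Pool.Agent.U222.SL
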