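import Pool.Agent.U222.SL.SloDefs

/-!
# Cyclic coverings branched along hyperplanes over finite fields, and other varieties
-/

set_option autoImplicit false

open Finset Polynomial TensorProduct

namespace Pool.Agent.U222.SL

/-- A cyclic covering `w ^ N = ∏ l_k (x) ^ a_k` of the projective space of dimension `n`, and a root of
unity `z`. -/
structure Covering (κ : Type) [Field κ] : Type where
  N : ℕ
  n : ℕ
  s : ℕ
  l : Fin s → Fin (n + 1) → κ
  a : Fin s → ℕ
  z : κ

/-- `z` has order `N ≥ 2`, the exponents are prime to `N` and their sum is divisible by `N`. -/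
structure Covering.IsAdmissible {κ : Type} [Field κ] (X : Covering κ) : Prop where
  two_le : 2 ≤ X.N
  root : IsPrimitiveRoot X.z X.N
  coprime : ∀ k, (X.a k).Coprime X.N
  dvd : X.N ∣ ∑ k, X.a k

/-- The value of the form `∏ l_k ^ a_k` at a vector with coordinates in `L`. -/
def Covering.value {κ : Type} [Field κ] (X : Covering κ) (L : Type) [Field L] [Algebra κ L]
    (x : Fin (X.n + 1) → L) : L :=
  ∏ k, (∑ t, algebraMap κ L (X.l k t) * x t) ^ X.a k

/-- The number of vectors over `L` where the form is not zero. -/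
noncomputable def Covering.openCount {κ : Type} [Field κ] (X : Covering κ) (L : Type) [Field L]
    [Algebra κ L] : ℕ :=
  Set.ncard {x : Fin (X.n + 1) → L | X.value L x ≠ 0}

/-- The number of vectors over `L` where the form is not zero and its power with the exponent
`(|L| - 1) / N` is `z ^ i`. -/
noncomputable def Covering.fixCount {κ : Type} [Field κ] (X : Covering κ) (L : Type) [Field L]
    [Fintype L] [Algebra κ L] (i : ℕ) : ℕ :=
  Set.ncard {x : Fin (X.n + 1) → L | X.value L x ≠ 0 ∧
    (X.value L x) ^ ((Fintype.card L - 1) / X.N) = algebraMap κ L X.z ^ i}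

/-- `W` is the part without invariants of the cohomology of degree `n` of a smooth projective model
of the covering, with the Frobenius `Φ` and the generator `g` of the covering group. The trace
of `Φ ^ [L : κ] g ^ i` is up to the sign the difference of the number of fixed points over the open
set `∏ l_k ≠ 0` of projective space (`N` points over each point where the form has the power residue
symbol `z ^ i`) and of the number of the points of this open set. -/
structure IsCyclicCovering {κ : Type} [Field κ] (X : Covering κ) {W : Type} [AddCommGroup W]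
    [Module ℂ W] (Φ g : Module.End ℂ W) : Prop where
  commute : Commute Φ g
  order : g ^ X.N = 1
  invariants : ∀ w, g w = w → w = 0
  lefschetz : ∀ (L : Type) [Field L] [Fintype L] [Algebra κ L] (i : ℕ),
    ((Fintype.card L : ℂ) - 1) *
        ((-1) ^ X.n * LinearMap.trace ℂ W (Φ ^ Module.finrank κ L * g ^ i)) =
      (X.N : ℂ) * (X.fixCount L i : ℂ) - (X.openCount L : ℂ)

/-- The mean over `j, c j, …, c ^ (f - 1) j` of the sum of the fractional parts of `j a_k / N`. -/
def Covering.weight {κ : Type} [Field κ] (X : Covering κ) (c f j : ℕ) : ℚ :=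
  (∑ k, ∑ t ∈ range f, (((j * X.a k * c ^ t) % X.N : ℕ) : ℚ)) / (f * X.N)

/-- For all `j_i` (`i ∈ I`, with `I` not empty) which are not divisible by `N_i` there are `b + 1`
multipliers `u_k` prime to `N`, such that the weights of the `u_k j_i` are small
(by `lam / 2` smaller than half of the maximum), and for any two of them a common multiplier `v` prime
to `N` such that the weights of the `v u_k j_i` and of the `- v u_l j_i` are small. -/
def IsSeparated {κ : Type} [Field κ] {ι : Type} (X : ι → Covering κ) (c f N lam b : ℕ) : Prop :=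
  ∀ I : Finset ι, I.Nonempty → ∀ j : ι → ℕ, (∀ i ∈ I, ¬ (X i).N ∣ j i) →
    ∃ u : Fin (b + 1) → ℕ,
      (∀ k, (u k).Coprime N ∧
        ∑ i ∈ I, (X i).weight c f (u k * j i) + (lam : ℚ) / 2 < ∑ i ∈ I, (((X i).n : ℚ) / 2 + 1)) ∧
      ∀ k l, k ≠ l → ∃ v : ℕ, v.Coprime N ∧
        ∑ i ∈ I, (X i).weight c f (v * u k * j i) < ∑ i ∈ I, (((X i).n : ℚ) / 2 + 1) ∧
        ∑ i ∈ I, (X i).weight c f ((N - 1) * (v * u l) * j i) <
          ∑ i ∈ I, (((X i).n : ℚ) / 2 + 1)

/-- The degree `N` is a prime number, the exponents have the sum `N`, one of them is `N - A` with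
`A ≥ 2` (so `w ^ N` is a form of degree `A` in affine coordinates), `A ^ 2 b + A < N`, and
`lam < n`. -/
def Covering.IsLarge {κ : Type} [Field κ] (X : Covering κ) (lam b : ℕ) : Prop :=
  X.N.Prime ∧ ∑ k, X.a k = X.N ∧ lam < X.n ∧
    ∃ k, 2 ≤ X.N - X.a k ∧ (X.N - X.a k) ^ 2 * b + (X.N - X.a k) < X.N

/-- The theorem of Deligne for the cohomology `B` of `Y`. -/
def IsPure (q : ℕ) {B : Type} [AddCommGroup B] [Module ℂ B] (Φ : Module.End ℂ B) : Prop :=
  ∀ β, Φ.HasEigenvalue β → IsAlgebraic ℚ β ∧ ∃ j : ℕ, ‖β‖ ^ 2 = (q : ℝ) ^ j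

/-- For every eigenvalue `β` of the Frobenius of `Y`, of weight `d`, at most `b` of the conjugates
have a slope smaller than `(d - lam) / 2`, or the minimal polynomial has at most `2 b + 1`
irreducible factors over the field of the roots of unity of order `N`. -/
def HasFewSlopes (c : ℕ) [Fact c.Prime] (q N lam b : ℕ) {B : Type} [AddCommGroup B] [Module ℂ B]
    (Φ : Module.End ℂ B) : Prop :=
  ∀ β, Φ.HasEigenvalue β → ∀ d : ℕ, ‖β‖ ^ 2 = (q : ℝ) ^ d →
    (lowSlopes c q lam d β).ncard ≤ b ∨ factorCount N β ≤ 2 * b + 1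

/-- The cohomology `B` of `Y` is of level at most `lam`: the quotients of the eigenvalues of the
Frobenius and their complex conjugates become algebraic integers after multiplication with
`q ^ lam`. -/
def IsOfLevel (q lam : ℕ) {B : Type} [AddCommGroup B] [Module ℂ B] (Φ : Module.End ℂ B) : Prop :=
  ∀ β, Φ.HasEigenvalue β → IsIntegral ℤ ((q : ℂ) ^ lam * β / starRingEnd ℂ β)

/-- All eigenvalues are algebraic numbers of degree at most `D`. -/
def HasDegreesAtMost (D : ℕ) {B : Type} [AddCommGroup B] [Module ℂ B] (Φ : Module.End ℂ B) : Prop :=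
  ∀ β, Φ.HasEigenvalue β → (minpoly ℚ β).natDegree ≤ D

section product

variable {ι : Type} {K W : ι → Type} [∀ i, AddCommGroup (W i)] [∀ i, Module ℂ (W i)]
  {B : Type} [AddCommGroup B] [Module ℂ B]

/-- The cohomology of the product of the `X_i` and of `Y` (Künneth formula), with complex
coefficients. -/
abbrev ProductCohomology {ι : Type} (K W : ι → Type) [∀ i, AddCommGroup (W i)]
    [∀ i, Module ℂ (W i)] (B : Type) [AddCommGroup B] [Module ℂ B] : Type :=
  (⨂[ℂ] i, ((K i → ℂ) × W i)) ⊗[ℂ] B

/-- The product of the classes of the cycles with the indices `k i` and of the class `b` on `Y`. -/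
noncomputable def product [∀ i, DecidableEq (K i)] (k : ∀ i, K i) (b : B) :
    ProductCohomology K W B :=
  (⨂ₜ[ℂ] i, ((Pi.single (k i) 1, 0) : (K i → ℂ) × W i)) ⊗ₜ[ℂ] b

/-- `v` is a linear combination of products `e_1 × ⋯ × e_r × b` of the classes of cycles on the
`X_i` and of a class `b` on `Y` such that `P (w - codim) b` holds. -/
def IsCombination [∀ i, DecidableEq (K i)] [Fintype ι] (codim : ∀ i, K i → ℕ) (P : ℕ → B → Prop)
    (w : ℕ) (v : ProductCohomology K W B) : Prop :=
  v ∈ Submodule.span ℂ {t | ∃ (k : ∀ i, K i) (b : B), ∑ i, codim i (k i) ≤ w ∧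
    P (w - ∑ i, codim i (k i)) b ∧ product k b = t}

end product

end Pool.Agent.U222.SL
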