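import Pool.Agent.U222.SL.Defs

/-!
# Tate classes of products over finite fields
-/

set_option autoImplicit false

open Finset Polynomial TensorProduct

namespace Pool.Agent.U222.SL

/-- The Frobenius on the cohomology of `X`: on the classes of algebraic cycles of codimension
`codim k` (over the finite field) the multiplication by the power of `q` with this exponent, and
`Φ` on `W`. -/
noncomputable def totalFrobenius (q : ℕ) {K W : Type} [AddCommGroup W] [Module ℂ W]
    (codim : K → ℕ) (Φ : Module.End ℂ W) : Module.End ℂ ((K → ℂ) × W) :=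
  LinearMap.prodMap (LinearMap.pi fun k => ((q : ℂ) ^ codim k) • LinearMap.proj k) Φ

/-- The Frobenius on the cohomology of the product of the `X_i` and of `Y`. -/
noncomputable def productFrobenius (q : ℕ) {ι : Type} {K W : ι → Type}
    [∀ i, AddCommGroup (W i)] [∀ i, Module ℂ (W i)] {B : Type} [AddCommGroup B] [Module ℂ B]
    (codim : ∀ i, K i → ℕ) (Φ : ∀ i, Module.End ℂ (W i)) (ΦY : Module.End ℂ B) :
    Module.End ℂ (ProductCohomology K W B) :=
  TensorProduct.map (PiTensorProduct.map fun i => totalFrobenius q (codim i) (Φ i)) ΦY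

/-- `v` is a Tate class of codimension `w` over the extension of degree `m` of the finite
field with `q` elements. -/
def IsTateClass (q m : ℕ) {V : Type} [AddCommGroup V] [Module ℂ V] (Φ : Module.End ℂ V)
    (w : ℕ) (v : V) : Prop :=
  (Φ ^ m) v = (q : ℂ) ^ (m * w) • v

/-- The generalised eigenspace of `Φ ^ m` with the eigenvalue `q ^ (m w)`. -/
noncomputable def generalTateClasses (q m : ℕ) {V : Type} [AddCommGroup V] [Module ℂ V]
    (Φ : Module.End ℂ V) (w : ℕ) : Submodule ℂ V :=
  Module.End.maxGenEigenspace (Φ ^ m) ((q : ℂ) ^ (m * w))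

/-- The dimension of the space of generalised Tate classes. It is the order of the pole of the zeta
function of the variety over the extension of degree `m` at the point `w`. -/
noncomputable def poleOrder (q m : ℕ) {V : Type} [AddCommGroup V] [Module ℂ V]
    (Φ : Module.End ℂ V) (w : ℕ) : ℕ :=
  Module.finrank ℂ (generalTateClasses q m Φ w)

section formulas

variable {ι : Type} [Fintype ι] {K W : ι → Type} [∀ i, Fintype (K i)] [∀ i, DecidableEq (K i)]
  [∀ i, AddCommGroup (W i)] [∀ i, Module ℂ (W i)] {B : Type} [AddCommGroup B] [Module ℂ B]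

/-- The Tate classes of codimension `w` on the product, over the extension of degree `m`, are the
linear combinations of products of classes of cycles on the `X_i` and Tate classes on `Y`. -/
def TateFormula (q m w : ℕ) (codim : ∀ i, K i → ℕ) (Φ : ∀ i, Module.End ℂ (W i))
    (ΦY : Module.End ℂ B) : Prop :=
  ∀ v : ProductCohomology K W B, IsTateClass q m (productFrobenius q codim Φ ΦY) w v ↔
    IsCombination codim (IsTateClass q m ΦY) w v

/-- The same for generalised Tate classes. -/
def GeneralTateFormula (q m w : ℕ) (codim : ∀ i, K i → ℕ) (Φ : ∀ i, Module.End ℂ (W i))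
    (ΦY : Module.End ℂ B) : Prop :=
  ∀ v : ProductCohomology K W B,
    v ∈ generalTateClasses q m (V := ProductCohomology K W B) (productFrobenius q codim Φ ΦY) w ↔
      IsCombination codim (fun i b => b ∈ generalTateClasses q m ΦY i) w v

/-- The order of the pole of the zeta function of the product at `w`, over the extension of degree
`m`, is the sum of the orders for `Y` at the points `w - codim`. -/
def PoleFormula [DecidableEq ι] (q m w : ℕ) (codim : ∀ i, K i → ℕ) (Φ : ∀ i, Module.End ℂ (W i))
    (ΦY : Module.End ℂ B) : Prop :=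
  poleOrder q m (V := ProductCohomology K W B) (productFrobenius q codim Φ ΦY) w =
    ∑ k : ∀ i, K i, if ∑ i, codim i (k i) ≤ w then
      poleOrder q m ΦY (w - ∑ i, codim i (k i)) else 0

end formulas

/-- The theorem on Tate classes for products of the `X_i` with all varieties `Y` with
`HasFewSlopes`, for all data over `κ`. -/
def TateTheorem {κ : Type} [Field κ] [Fintype κ] {ι : Type} [Fintype ι] [DecidableEq ι]
    (X : ι → Covering κ) (c : ℕ) [Fact c.Prime] (N lam b : ℕ) : Prop :=
  ∀ {K W : ι → Type} [∀ i, Fintype (K i)] [∀ i, DecidableEq (K i)] [∀ i, AddCommGroup (W i)]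
    [∀ i, Module ℂ (W i)] [∀ i, FiniteDimensional ℂ (W i)] (codim : ∀ i, K i → ℕ)
    (Φ g : ∀ i, Module.End ℂ (W i)),
    (∀ i, IsCyclicCovering (X i) (Φ i) (g i)) →
    (∀ i (α : ℂ), (Φ i).HasEigenvalue α → ‖α‖ ^ 2 = (Fintype.card κ : ℝ) ^ (X i).n) →
  ∀ {B : Type} [AddCommGroup B] [Module ℂ B] [FiniteDimensional ℂ B] (ΦY : Module.End ℂ B),
    IsPure (Fintype.card κ) ΦY → HasFewSlopes c (Fintype.card κ) N lam b ΦY →
    ∀ m w : ℕ, 0 < m → TateFormula (Fintype.card κ) m w codim Φ ΦY ∧
      GeneralTateFormula (Fintype.card κ) m w codim Φ ΦY ∧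
      PoleFormula (Fintype.card κ) m w codim Φ ΦY

end Pool.Agent.U222.SL
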