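import Pool.Agent.U222.SL.GeoDefs
import Pool.Agent.U222.SL.NR

/-!
# The hypotheses of the theorems of `N876.FL.Geo3`
-/

set_option autoImplicit false

open Finset Polynomial CategoryTheory AlgebraicGeometry

universe u

namespace Pool.Agent.U222.SL.Geo

open Pool.Agent.H914 Pool.Agent.H914.VarClass Pool.Agent.H914.VarClass.Obj
  Pool.Agent.H914.WeilCohomology Pool.Agent.H281R3.HT Pool.Agent.W552 Pool.Agent.TH125.Gal

variable {k : Type u} [Field k] {𝒱 : VarClass k} {ops : CycleOps 𝒱}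
  {W : WeilCohomology.{u, 0} ops} {Γ : Type} [Group Γ]

theorem productOf_eq {ι : Type} (X : ι → GVar W Γ) (D : ∀ i, (X i).X.Cycles)
    (Z : Polarized 𝒱) (L : List ι) :
    productOf X D Z L = Pool.Agent.N876.FL.tow X D Z L := by
  induction L with
  | nil => rfl
  | cons i L ih => rw [productOf, Pool.Agent.N876.FL.tow, ih]

theorem exists_large (c : ℕ) [Fact c.Prime] (κ : Type) [Field κ] [Fintype κ] [CharP κ c] {ι : Type}
    [Fintype ι] (C : ι → Covering κ) (f lam b : ℕ) (hf : Fintype.card κ = c ^ f)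
    {χ : Γ →* W.Kˣ} {G : Set (GVar W Γ)} {X : ι → GVar W Γ} {Z : GVar W Γ} {σ : Γ}
    {τ : W.K →+* ℂ} (h : IsLargeSystem C c lam b χ G X Z σ τ) :
    ∃ S : ι → Set W.K, Pool.Agent.N876.FL.Sys χ G X Z σ S := by
  classical
  obtain ⟨hG, hmem, hmemZ, hχ, hlarge, hne, hone', hmodel, hone, hbase⟩ := h
  have hf0 : 0 < f := by
    rcases Nat.eq_zero_or_pos f with h | h
    · rw [h, pow_zero] at hf
      have := Fintype.one_lt_card (α := κ)
      omega
    · exact h
  have hpr : ∀ i, (C i).N.Prime := fun i => (hlarge i).prime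
  have hN : 0 < ∏ i, (C i).N := prod_pos fun i _ => (hpr i).pos
  have hdN : ∀ i, (C i).N ∣ ∏ i, (C i).N := fun i => dvd_prod_of_mem _ (mem_univ i)
  choose g T' hσT hgT hT' hcov hpure using hmodel
  have hsep : ∀ I : Finset ι, I.Nonempty → SepI c f (∏ i, (C i).N) lam b
      (fun i => (C i).N) (fun i => (C i).n) (fun i => (C i).s) (fun i => (C i).a) I := by
    intro I hI
    exact sep_large (d := fun i => (C i).N) (n := fun i => (C i).n) (s := fun i => (C i).s)
      (a := fun i => (C i).a) hf0 hpr hne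
      (fun i => by rw [hone' i, Nat.mod_eq_of_lt (hpr i).one_lt]) (fun i => (hlarge i).sum)
      (fun i => (hlarge i).large) (fun i => (hlarge i).dim) hI
  have hcov' : ∀ i, Pool.Agent.N876.TC.IsCov (C i).N (C i).l (C i).a (C i).z
      ((frobenius (X i) σ).restrict (hσT i)) ((pullback (g i)).restrict (hgT i)) :=
    fun i => ⟨(hcov i).commute, (hcov i).order, (hcov i).invariants,
      fun L _ _ _ t => (hcov i).lefschetz L t⟩
  have hres : ∀ SZ : Set W.K, FewSet c (Fintype.card κ) (∏ i, (C i).N) lam b (τ '' SZ) →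
      Pool.Agent.N876.FL.NoResF (Fintype.card κ : W.K)
        (fun i => {α | Module.End.HasEigenvalue ((frobenius (X i) σ).restrict (hσT i)) α}) SZ :=
    fun SZ hSZ => nores_fewF hN (fun i => (hpr i).two_le) hdN κ hf
      (fun i => (hlarge i).root) (fun i => (C i).l) (fun i => (C i).a)
      (fun i => (hlarge i).coprime) τ hcov' hsep hpure hSZ
  refine ⟨fun i => {α | Module.End.HasEigenvalue ((frobenius (X i) σ).restrict (hσT i)) α},
    { gal := hG, mem := hmem, memZ := hmemZ,
      cv := fun i => ⟨T' i, hσT i, hT' i, fun α hα => hα⟩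
      res := ?_
      res1 := ?_
      one := hone }⟩
  · rw [hχ]
    refine hres _ ?_
    rintro _ ⟨β, hβ, rfl⟩
    exact hbase _ ⟨β, hβ, rfl⟩
  · rw [hχ]
    refine hres _ ?_
    rw [Set.image_singleton, map_one]
    exact fewSet_one Fintype.one_lt_card

/-- the condition on the base, from the degrees or the level -/
theorem isFewBase_of {c : ℕ} [Fact c.Prime] {q N lam b : ℕ} (hq : 1 < q) {B : Set ℂ}
    (hB : ∀ β ∈ B, IsAlgebraic ℚ β ∧ ∃ d : ℕ, ‖β‖ ^ 2 = (q : ℝ) ^ d)
    (h : ∀ β ∈ B, (minpoly ℚ β).natDegree ≤ 2 * b + 1 ∨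
      IsIntegral ℤ ((q : ℂ) ^ lam * β / starRingEnd ℂ β)) : IsFewBase c q N lam b B := by
  intro β hβ
  obtain ⟨h1, d, h2⟩ := hB β hβ
  refine ⟨h1, d, h2, ?_⟩
  rcases h β hβ with h3 | h3
  · right
    exact (numFac_le h1).trans h3
  · left
    have h4 : lowSlopes c q lam d β = ∅ := lowConj_of_level hq h1 h2 h3
    rw [h4, Set.ncard_empty]
    exact Nat.zero_le _

end Pool.Agent.U222.SL.Geo
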