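import Pool.Agent.N876.FL.Geo3

/-!
# Operators given by correspondences: pull-backs, push-forwards, equivariance
-/

set_option autoImplicit false

open CategoryTheory AlgebraicGeometry
open scoped TensorProduct

universe u

namespace Pool.Agent.U222.SL.Mo

open Pool.Agent.H914 Pool.Agent.H914.VarClass Pool.Agent.H914.VarClass.Obj
  Pool.Agent.H914.WeilCohomology Pool.Agent.H281R3.HT Pool.Agent.W552 Pool.Agent.TH125.Gal
  Pool.Agent.TH132.A Pool.Agent.N876.FL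

/-- an operator which intertwines operators without common eigenvalues is zero -/
theorem vanish {K : Type} [Field K] [IsAlgClosed K] {V U : Type} [AddCommGroup V] [Module K V]
    [FiniteDimensional K V] [AddCommGroup U] [Module K U] (F : Module.End K V)
    (G : Module.End K U) (w : V →ₗ[K] U) {lam : K} (hl : lam ≠ 0)
    (hw : ∀ v, w (F v) = lam • G (w v))
    (h : ∀ α γ, F.HasEigenvalue α → G.HasEigenvalue γ → α ≠ lam * γ) : w = 0 := by
  by_contra hw0
  set P := LinearMap.ker w with hPdef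
  have hP : ∀ x ∈ P, F x ∈ P := by
    intro x hx
    rw [hPdef, LinearMap.mem_ker] at hx ⊢
    rw [hw, hx, map_zero, smul_zero]
  have hnt : Nontrivial (V ⧸ P) := by
    refine Submodule.Quotient.nontrivial_iff.2 fun h => hw0 ?_
    exact LinearMap.ker_eq_top.1 h
  obtain ⟨α, hα⟩ := Module.End.exists_eigenvalue (P.mapQ P F hP)
  obtain ⟨v', hv⟩ := hα.exists_hasEigenvector
  obtain ⟨v, rfl⟩ := P.mkQ_surjective v'
  have h1 : F v - α • v ∈ P := by
    rw [← Submodule.Quotient.mk_eq_zero, Submodule.Quotient.mk_sub, sub_eq_zero]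
    exact hv.apply_eq_smul
  have h2 : w v ≠ 0 := by
    intro h0
    exact hv.2 ((Submodule.Quotient.mk_eq_zero _).2 h0)
  have h3 : lam • G (w v) = α • w v := by
    rw [← hw]
    have h4 : w (F v - α • v) = 0 := h1
    rw [map_sub, map_smul, sub_eq_zero] at h4
    exact h4
  have h4 : G (w v) = (lam⁻¹ * α) • w v := by
    rw [mul_smul, ← h3, smul_smul, inv_mul_cancel₀ hl, one_smul]
  have h5 : G.HasEigenvalue (lam⁻¹ * α) :=
    Module.End.hasEigenvalue_of_hasEigenvector (x := w v)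
      (Module.End.hasEigenvector_iff.2 ⟨Module.End.mem_eigenspace_iff.2 h4, h2⟩)
  have h6 : Module.End.HasEigenvalue
      (LinearMap.restrict F (p := ⊤) (q := ⊤) fun x _ => Submodule.mem_top) α :=
    eig_quot hP (fun x _ => Submodule.mem_top) (by rw [sup_top_eq]) hα
  obtain ⟨x, hx⟩ := h6.exists_hasEigenvector
  have h7 : F.HasEigenvalue α :=
    Module.End.hasEigenvalue_of_hasEigenvector (x := x.1)
      (Module.End.hasEigenvector_iff.2 ⟨Module.End.mem_eigenspace_iff.2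
        (congrArg Subtype.val hx.apply_eq_smul), fun h0 => hx.2 (Subtype.ext h0)⟩)
  refine h α _ h7 h5 ?_
  rw [← mul_assoc, mul_inv_cancel₀ hl, one_mul]

variable {k : Type u} [Field k] {𝒱 : VarClass k} {ops : CycleOps 𝒱}
  {W : WeilCohomology.{u, 0} ops}

section geo

variable {X Y Z : 𝒱.Obj}

theorem corr_lift_push (g : X ⟶ Y) (c a : W.H X) :
    W.corr (W.push (lift (𝟙 X) g) c) a = W.push g (c * a) := by
  rw [corr_apply, ← W.push_mul, ← W.push_comp, ← W.map_comp]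
  have e1 : lift (𝟙 X) g ≫ snd X Y = g := Obj.lift_snd _ _
  have e2 : lift (𝟙 X) g ≫ fst X Y = 𝟙 X := Obj.lift_fst _ _
  rw [e1, e2, W.map_id]

theorem corr_lift_pull (g : X ⟶ Y) (c : W.H X) (a : W.H Y) :
    W.corr (W.push (lift g (𝟙 X)) c) a = c * W.map g a := by
  rw [corr_apply, ← W.push_mul, ← W.push_comp, ← W.map_comp]
  have e1 : lift g (𝟙 X) ≫ snd Y X = 𝟙 X := Obj.lift_snd _ _
  have e2 : lift g (𝟙 X) ≫ fst Y X = g := Obj.lift_fst _ _
  rw [e1, e2, W.push_id]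

theorem aop_push (g : X ⟶ Y) {c : W.H X} (hc : AS W X c) :
    AOp W X Y (W.push g ∘ₗ LinearMap.mulLeft W.K c) :=
  ⟨_, hc.push _, LinearMap.ext fun a => corr_lift_push g c a⟩

theorem aop_pull (g : X ⟶ Y) {c : W.H X} (hc : AS W X c) :
    AOp W Y X (LinearMap.mulLeft W.K c ∘ₗ (W.map g).toLinearMap) :=
  ⟨_, hc.push _, LinearMap.ext fun a => corr_lift_pull g c a⟩

/-- the product with a class on the first factor -/
noncomputable def inj (W : WeilCohomology.{u, 0} ops) (X Y : 𝒱.Obj) (a : W.H X) :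
    W.H Y →ₗ[W.K] W.H (X.prod Y) :=
  LinearMap.mulLeft W.K (W.map (fst X Y) a) ∘ₗ (W.map (snd X Y)).toLinearMap

/-- the coefficient of a class on the first factor -/
noncomputable def cof (W : WeilCohomology.{u, 0} ops) (X Y : 𝒱.Obj) (b : W.H X) :
    W.H (X.prod Y) →ₗ[W.K] W.H Y :=
  W.push (snd X Y) ∘ₗ LinearMap.mulLeft W.K (W.map (fst X Y) b)

theorem inj_apply (a : W.H X) (y : W.H Y) : inj W X Y a y = ext W a y := rfl

theorem cof_apply {b : W.H X} (hb : AS W X b) (z : W.H (X.prod Y)) :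
    cof W X Y b z = coef W b z := by
  show W.push (snd X Y) (W.map (fst X Y) b * z) = W.push (snd X Y) (z * W.map (fst X Y) b)
  rw [(hb.map (fst X Y)).comm]

theorem aop_inj {a : W.H X} (ha : AS W X a) : AOp W Y (X.prod Y) (inj W X Y a) :=
  aop_pull (snd X Y) (ha.map _)

theorem aop_cof {b : W.H X} (hb : AS W X b) : AOp W (X.prod Y) Y (cof W X Y b) :=
  aop_push (snd X Y) (hb.map _)

theorem cof_ext (b x : W.H X) (y : W.H Y) :
    cof W X Y b (ext W x y) = W.tr X (b * x) • y := by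
  show W.push (snd X Y) (W.map (fst X Y) b * (W.map (fst X Y) x * W.map (snd X Y) y)) = _
  rw [← mul_assoc, ← map_mul, W.push_snd]

end geo

section eqv

variable {Γ : Type} [Group Γ] {χ : Γ →* W.Kˣ}

/-- `u` commutes with the action up to a twist -/
def Eqv (χ : Γ →* W.Kˣ) (Δ : Subgroup Γ) (A B : GVar W Γ) (d : ℤ)
    (u : W.H A.X →ₗ[W.K] W.H B.X) : Prop :=
  ∀ g ∈ Δ, ∀ a, B.act g (u a) = (((χ g) ^ d : W.Kˣ) : W.K) • u (A.act g a)

variable {A B C : GVar W Γ} {Δ : Subgroup Γ}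

theorem Eqv.mono {Δ' : Subgroup Γ} (h : Δ' ≤ Δ) {d : ℤ} {u : W.H A.X →ₗ[W.K] W.H B.X}
    (hu : Eqv χ Δ A B d u) : Eqv χ Δ' A B d u := fun g hg => hu g (h hg)

theorem Eqv.add {d : ℤ} {u v : W.H A.X →ₗ[W.K] W.H B.X}
    (hu : Eqv χ Δ A B d u) (hv : Eqv χ Δ A B d v) : Eqv χ Δ A B d (u + v) := by
  intro g hg a
  rw [LinearMap.add_apply, map_add, hu g hg, hv g hg, LinearMap.add_apply, smul_add]

theorem Eqv.smul {d : ℤ} {u : W.H A.X →ₗ[W.K] W.H B.X} (r : W.K)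
    (hu : Eqv χ Δ A B d u) : Eqv χ Δ A B d (r • u) := by
  intro g hg a
  rw [LinearMap.smul_apply, map_smul, hu g hg, LinearMap.smul_apply, smul_comm]

theorem Eqv.zero {d : ℤ} : Eqv χ Δ A B d 0 := by
  intro g hg a
  rw [LinearMap.zero_apply, map_zero, LinearMap.zero_apply, smul_zero]

theorem Eqv.comp {d e : ℤ} {u : W.H A.X →ₗ[W.K] W.H B.X} {v : W.H B.X →ₗ[W.K] W.H C.X}
    (hv : Eqv χ Δ B C e v) (hu : Eqv χ Δ A B d u) : Eqv χ Δ A C (d + e) (v ∘ₗ u) := by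
  intro g hg a
  rw [LinearMap.comp_apply, hv g hg, hu g hg, map_smul, smul_smul, LinearMap.comp_apply]
  congr 1
  rw [zpow_add, mul_comm, Units.val_mul]

theorem Eqv.one : Eqv χ Δ A A 0 LinearMap.id := by
  intro g hg a
  rw [LinearMap.id_apply, LinearMap.id_apply, zpow_zero, Units.val_one, one_smul]

/-- the push-forward to the second factor -/
theorem push_act (hB : IsGaloisVar χ B)
    {υ : Γ →* (W.H (A.X.prod B.X) ≃ₐ[W.K] W.H (A.X.prod B.X))}
    (hC : IsGaloisVar χ (⟨A.X.prod B.X, υ⟩ : GVar W Γ))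
    (h2 : Equivariant (A := ⟨A.X.prod B.X, υ⟩) (B := B) (snd A.X B.X)) (g : Γ)
    (x : W.H (A.X.prod B.X)) :
    ((χ g : W.Kˣ) : W.K) ^ A.X.dim • B.act g (W.push (snd A.X B.X) x) =
      W.push (snd A.X B.X) (υ g x) := by
  apply W.tr_ext
  intro b
  have hq : ((χ g : W.Kˣ) : W.K) ≠ 0 := Units.ne_zero _
  obtain ⟨b', rfl⟩ := (B.act g).surjective b
  rw [W.tr_push, smul_mul_assoc, map_smul, smul_eq_mul, ← map_mul, hB.tr_act, W.tr_push]
  have e1 : W.map (snd A.X B.X) (B.act g b') = υ g (W.map (snd A.X B.X) b') := (h2 g b').symm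
  rw [e1, ← map_mul]
  have e2 := hC.tr_act g (x * W.map (snd A.X B.X) b')
  rw [e2, ← mul_assoc]
  congr 1
  show _ = ((χ g : W.Kˣ) : W.K) ^ (A.X.dim + B.X.dim)
  rw [pow_add]

theorem eqv_inj {υ : Γ →* (W.H (A.X.prod B.X) ≃ₐ[W.K] W.H (A.X.prod B.X))}
    (h1 : Equivariant (A := ⟨A.X.prod B.X, υ⟩) (B := A) (fst A.X B.X))
    (h2 : Equivariant (A := ⟨A.X.prod B.X, υ⟩) (B := B) (snd A.X B.X)) {a : W.H A.X} {l : ℕ}
    (ha : ∀ g ∈ Δ, A.act g a = ((χ g : W.Kˣ) : W.K) ^ l • a) :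
    Eqv χ Δ B ⟨A.X.prod B.X, υ⟩ l (inj W A.X B.X a) := by
  intro g hg y
  show υ g (W.map (fst A.X B.X) a * W.map (snd A.X B.X) y) =
    _ • (W.map (fst A.X B.X) a * W.map (snd A.X B.X) (B.act g y))
  have e1 : υ g (W.map (fst A.X B.X) a) = W.map (fst A.X B.X) (A.act g a) := h1 g a
  have e2 : υ g (W.map (snd A.X B.X) y) = W.map (snd A.X B.X) (B.act g y) := h2 g y
  rw [map_mul, e1, e2, ha g hg, map_smul, smul_mul_assoc, zpow_natCast, Units.val_pow_eq_pow_val]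

theorem eqv_cof (hB : IsGaloisVar χ B)
    {υ : Γ →* (W.H (A.X.prod B.X) ≃ₐ[W.K] W.H (A.X.prod B.X))}
    (hC : IsGaloisVar χ (⟨A.X.prod B.X, υ⟩ : GVar W Γ))
    (h1 : Equivariant (A := ⟨A.X.prod B.X, υ⟩) (B := A) (fst A.X B.X))
    (h2 : Equivariant (A := ⟨A.X.prod B.X, υ⟩) (B := B) (snd A.X B.X)) {b : W.H A.X} {l : ℕ}
    (hb : ∀ g ∈ Δ, A.act g b = ((χ g : W.Kˣ) : W.K) ^ l • b) :
    Eqv χ Δ ⟨A.X.prod B.X, υ⟩ B ((l : ℤ) - A.X.dim) (cof W A.X B.X b) := by
  intro g hg z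
  show B.act g (W.push (snd A.X B.X) (W.map (fst A.X B.X) b * z)) =
    _ • W.push (snd A.X B.X) (W.map (fst A.X B.X) b * υ g z)
  have h3 := push_act hB hC h2 g (W.map (fst A.X B.X) b * z)
  have e1 : υ g (W.map (fst A.X B.X) b) = W.map (fst A.X B.X) (A.act g b) := h1 g b
  rw [map_mul (υ g), e1, hb g hg, map_smul, smul_mul_assoc, map_smul] at h3
  have hq : ((χ g : W.Kˣ) : W.K) ≠ 0 := Units.ne_zero _
  have h4 : B.act g (W.push (snd A.X B.X) (W.map (fst A.X B.X) b * z)) =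
      ((((χ g : W.Kˣ) : W.K) ^ A.X.dim)⁻¹ * ((χ g : W.Kˣ) : W.K) ^ l) •
        W.push (snd A.X B.X) (W.map (fst A.X B.X) b * υ g z) := by
    rw [mul_smul, ← h3, smul_smul, inv_mul_cancel₀ (pow_ne_zero _ hq), one_smul]
  rw [h4]
  congr 1
  rw [zpow_sub, zpow_natCast, zpow_natCast, Units.val_mul, Units.val_inv_eq_inv_val,
    Units.val_pow_eq_pow_val, Units.val_pow_eq_pow_val, mul_comm]

end eqv

end Pool.Agent.U222.SL.Mo
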