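import Pool.Agent.U222.SL.Mo1

/-!
# Operators on products with varieties without resonances
-/

set_option autoImplicit false

open CategoryTheory AlgebraicGeometry
open scoped TensorProduct

universe u

namespace Pool.Agent.U222.SL.Mo

open Pool.Agent.H914 Pool.Agent.H914.VarClass Pool.Agent.H914.VarClass.Obj
  Pool.Agent.H914.WeilCohomology Pool.Agent.H281R3.HT Pool.Agent.W552 Pool.Agent.TH125.Gal
  Pool.Agent.TH132.A Pool.Agent.N876.FL

variable {k : Type u} [Field k] {𝒱 : VarClass k} {ops : CycleOps 𝒱}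
  {W : WeilCohomology.{u, 0} ops} {Γ : Type} [Group Γ] {χ : Γ →* W.Kˣ}

/-- the eigenvalues are closed under duality -/
theorem dual_eig {A : GVar W Γ} (hA : IsGaloisVar χ A) {σ : Γ} {α : W.K}
    (hα : (op A σ).HasEigenvalue α) :
    α ≠ 0 ∧ (op A σ).HasEigenvalue (((χ σ : W.Kˣ) : W.K) ^ A.X.dim / α) := by
  have hq : ((χ σ : W.Kˣ) : W.K) ≠ 0 := Units.ne_zero _
  obtain ⟨v, hv⟩ := hα.exists_hasEigenvector
  have hα0 : α ≠ 0 := by
    rintro rfl
    apply hv.2
    have h1 : A.act σ v = 0 := by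
      have h2 : op A σ v = (0 : W.K) • v := hv.apply_eq_smul
      rw [zero_smul] at h2
      exact h2
    exact (A.act σ).injective (by rw [h1, map_zero])
  refine ⟨hα0, ?_⟩
  set T : Module.End W.K (W.H A.X) := op A σ - α • (1 : Module.End W.K (W.H A.X)) with hT
  have hTv : T v = 0 := by
    rw [hT, LinearMap.sub_apply, LinearMap.smul_apply, Module.End.one_apply, hv.apply_eq_smul,
      sub_self]
  have hns : ¬ Function.Surjective T := by
    intro hs
    have hi := LinearMap.injective_iff_surjective.2 hs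
    exact hv.2 (hi (by rw [hTv, map_zero]))
  have hlt : LinearMap.range T < ⊤ := by
    rw [lt_top_iff_ne_top]
    intro h
    exact hns (LinearMap.range_eq_top.1 h)
  obtain ⟨ℓ, hℓ0, hℓ⟩ := Submodule.exists_le_ker_of_lt_top _ hlt
  have hD : Function.Surjective (bil W A.X) := by
    have hinj : Function.Injective (bil W A.X) := by
      intro a b hab
      apply W.tr_ext
      intro c
      exact congrArg (fun f => f c) hab
    exact (LinearMap.injective_iff_surjective_of_finrank_eq_finrank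
      (Subspace.dual_finrank_eq (K := W.K) (V := W.H A.X)).symm).1 hinj
  obtain ⟨a0, ha0⟩ := hD ℓ
  have hz : a0 ≠ 0 := by
    rintro rfl
    exact hℓ0 (by rw [← ha0, map_zero])
  obtain ⟨b0, hb0⟩ := (A.act σ).surjective a0
  have hb : b0 ≠ 0 := by
    rintro rfl
    exact hz (by rw [← hb0, map_zero])
  have h1 : ∀ x, W.tr A.X (a0 * (A.act σ x)) = α * W.tr A.X (a0 * x) := by
    intro x
    have h2 : ℓ (T x) = 0 := hℓ ⟨x, rfl⟩
    rw [← ha0, bil_apply, hT, LinearMap.sub_apply, LinearMap.smul_apply, Module.End.one_apply,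
      mul_sub, map_sub, mul_smul_comm, map_smul, smul_eq_mul, sub_eq_zero] at h2
    exact h2
  have h2 : (((χ σ : W.Kˣ) : W.K) ^ A.X.dim) • b0 = α • a0 := by
    apply W.tr_ext
    intro x
    rw [smul_mul_assoc, map_smul, smul_eq_mul, smul_mul_assoc, map_smul, smul_eq_mul, ← h1,
      ← hA.tr_act, map_mul, hb0]
  refine Module.End.hasEigenvalue_of_hasEigenvector (x := b0)
    (Module.End.hasEigenvector_iff.2 ⟨Module.End.mem_eigenspace_iff.2 ?_, hb⟩)
  show A.act σ b0 = _
  rw [hb0, div_eq_inv_mul, mul_smul, h2, smul_smul, inv_mul_cancel₀ hα0, one_smul]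

/-- no coincidences -/
def Rz {K : Type} [Field K] (q : K) (S E E' : Set K) : Prop :=
  ∀ α ∈ S, ∀ γ ∈ E, ∀ γ' ∈ E', ∀ m : ℕ, 0 < m → ∀ d : ℤ, (α * γ) ^ m ≠ (q ^ m) ^ d * γ' ^ m

/-- eigenvalues of a power -/
theorem eig_pow {K V : Type} [Field K] [IsAlgClosed K] [AddCommGroup V] [Module K V]
    [FiniteDimensional K V] {F : Module.End K V} {m : ℕ} (hm : 0 < m) {γ : K}
    (h : (F ^ m).HasEigenvalue γ) : ∃ α, F.HasEigenvalue α ∧ α ^ m = γ := by
  have h6 : γ ∈ spectrum K (F ^ m) := Module.End.hasEigenvalue_iff_mem_spectrum.mp h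
  rw [spectrum.map_pow_of_pos F hm] at h6
  obtain ⟨α, hα, hαm⟩ := h6
  exact ⟨α, Module.End.hasEigenvalue_iff_mem_spectrum.mpr hα, hαm⟩

section perp

variable {X : 𝒱.Obj} {N : ℕ} {a b : Fin N → W.H X}

/-- the classes orthogonal to the algebraic ones -/
def perp (W : WeilCohomology.{u, 0} ops) (X : 𝒱.Obj) : Submodule W.K (W.H X) where
  carrier := {x | ∀ y ∈ algSpan W X, W.tr X (y * x) = 0}
  add_mem' := by
    intro x y hx hy z hz
    rw [mul_add, map_add, hx z hz, hy z hz, add_zero]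
  zero_mem' := by
    intro z _
    rw [mul_zero, map_zero]
  smul_mem' := by
    intro r x hx z hz
    rw [mul_smul_comm, map_smul, hx z hz, smul_zero]

theorem dual_b (h : DualFam W X a b) (hD : HomEqNum W X) {y : W.H X} (hy : AS W X y) :
    y = ∑ i, W.tr X (a i * y) • b i := by
  have hrat : ∀ i, ∃ q : ℚ, W.tr X (a i * y) = q := fun i => ((h.ha i).mul hy).tr
  choose q hq using hrat
  have h1 : AS W X (y - ∑ i, W.tr X (a i * y) • b i) := by
    refine AS.ratSub.sub hy (AS.ratSub.sum _ fun i _ => ?_)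
    rw [hq i]
    exact (h.hb i).smul _
  rw [← sub_eq_zero]
  refine AS_zero_of_pair hD h1 fun x hx => ?_
  have h2 : ∀ i, W.tr X (a i * (y - ∑ j, W.tr X (a j * y) • b j)) = 0 := by
    intro i
    rw [mul_sub, map_sub, Finset.mul_sum, map_sum, Finset.sum_eq_single i]
    · rw [mul_smul_comm, map_smul, h.dual, if_pos rfl, smul_eq_mul, mul_one, sub_self]
    · intro j _ hj
      rw [mul_smul_comm, map_smul, h.dual, if_neg hj.symm, smul_zero]
    · intro h0; exact absurd (Finset.mem_univ _) h0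
  rw [h1.comm x]
  have h4 : ∀ z ∈ Submodule.span W.K (Set.range a),
      W.tr X (z * (y - ∑ j, W.tr X (a j * y) • b j)) = 0 := by
    intro z hz
    induction hz using Submodule.span_induction with
    | mem x hx => obtain ⟨i, rfl⟩ := hx; exact h2 i
    | zero => rw [zero_mul, map_zero]
    | add x y _ _ hx hy => rw [add_mul, map_add, hx, hy, add_zero]
    | smul r x _ hx => rw [smul_mul_assoc, map_smul, hx, smul_zero]
  exact h4 x (h.span x hx)

theorem sub_mem_perp (h : DualFam W X a b) (hD : HomEqNum W X) (x : W.H X) :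
    x - ∑ i, W.tr X (b i * x) • a i ∈ perp W X := by
  intro y hy
  rw [Pool.Agent.TH125.Gal.algSpan_eq] at hy
  have h0 : ∀ i, W.tr X (b i * (x - ∑ j, W.tr X (b j * x) • a j)) = 0 := by
    intro i
    rw [mul_sub, map_sub, Finset.mul_sum, map_sum, Finset.sum_eq_single i]
    · rw [mul_smul_comm, map_smul, (h.hb i).comm (a i), h.dual, if_pos rfl, smul_eq_mul, mul_one,
        sub_self]
    · intro j _ hj
      rw [mul_smul_comm, map_smul, (h.hb i).comm (a j), h.dual, if_neg hj, smul_zero]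
    · intro h0; exact absurd (Finset.mem_univ _) h0
  induction hy using Submodule.span_induction with
  | mem y hy =>
    rw [dual_b h hD hy, Finset.sum_mul, map_sum]
    refine Finset.sum_eq_zero fun i _ => ?_
    rw [smul_mul_assoc, map_smul, h0, smul_zero]
  | zero => rw [zero_mul, map_zero]
  | add a b _ _ ha hb => rw [add_mul, map_add, ha, hb, add_zero]
  | smul r a _ ha => rw [smul_mul_assoc, map_smul, ha, smul_zero]

theorem perp_inf (h : DualFam W X a b) {x : W.H X} (hx : x ∈ perp W X)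
    (hx' : x ∈ algSpan W X) : x = 0 := by
  have h1 : x ∈ Submodule.span W.K (Set.range a) := by
    rw [Pool.Agent.TH125.Gal.algSpan_eq] at hx'
    exact Submodule.span_le.2 (fun y hy => h.span y hy) hx'
  obtain ⟨c, rfl⟩ := (Submodule.mem_span_range_iff_exists_fun W.K).1 h1
  have h2 : ∀ i, c i = 0 := by
    intro i
    have hb : b i ∈ algSpan W X := by
      rw [Pool.Agent.TH125.Gal.algSpan_eq]
      exact Submodule.subset_span (h.hb i)
    have h3 := hx (b i) hb
    rw [Finset.mul_sum, map_sum, Finset.sum_eq_single i] at h3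
    · rwa [mul_smul_comm, map_smul, (h.hb i).comm (a i), h.dual, if_pos rfl, smul_eq_mul,
        mul_one] at h3
    · intro j _ hj
      rw [mul_smul_comm, map_smul, (h.hb i).comm (a j), h.dual, if_neg hj, smul_zero]
    · intro h0; exact absurd (Finset.mem_univ _) h0
  exact Finset.sum_eq_zero fun i _ => by rw [h2, zero_smul]

end perp

theorem perp_stable {A : GVar W Γ} (hA : IsGaloisVar χ A) (σ : Γ) :
    ∀ x ∈ perp W A.X, op A σ x ∈ perp W A.X := by
  intro x hx y hy
  have h1 : op A σ⁻¹ y ∈ algSpan W A.X := alg_stable hA σ⁻¹ y hy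
  have h2 : A.act σ (op A σ⁻¹ y) = y := by
    show (A.act σ) ((A.act σ⁻¹) y) = y
    rw [← AlgEquiv.mul_apply, ← map_mul, mul_inv_cancel, map_one]
    rfl
  have h3 := hA.tr_act σ (op A σ⁻¹ y * x)
  rw [map_mul, h2, hx _ h1, mul_zero] at h3
  exact h3

theorem perp_eig {A : GVar W Γ} (hA : IsGaloisVar χ A) {σ : Γ} {S : Set W.K} (hS : Cv A σ S)
    {N : ℕ} {a b : Fin N → W.H A.X} (h : DualFam W A.X a b) {α : W.K}
    (hα : Module.End.HasEigenvalue ((op A σ).restrict (perp_stable hA σ)) α) : α ∈ S := by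
  obtain ⟨T, hT, hPT, hTS⟩ := hS.ex
  obtain ⟨v, hv⟩ := hα.exists_hasEigenvector
  have hv1 : op A σ v.1 = α • v.1 := congrArg Subtype.val hv.apply_eq_smul
  refine hTS α (eig_quot (alg_stable hA σ) hT hPT ?_)
  refine Module.End.hasEigenvalue_of_hasEigenvector (x := (algSpan W A.X).mkQ v.1) ?_
  refine Module.End.hasEigenvector_iff.2 ⟨Module.End.mem_eigenspace_iff.2 ?_, ?_⟩
  · have h1 : Submodule.mapQ (algSpan W A.X) (algSpan W A.X) (op A σ) (alg_stable hA σ)
        ((algSpan W A.X).mkQ v.1) = (algSpan W A.X).mkQ (op A σ v.1) := rfl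
    rw [h1, hv1, map_smul]
  · intro h0
    exact hv.2 (Subtype.ext (perp_inf h v.2 ((Submodule.Quotient.mk_eq_zero _).1 h0)))

section step

variable [IsAlgClosed W.K] {A B B' : GVar W Γ}
  {υ : Γ →* (W.H (A.X.prod B.X) ≃ₐ[W.K] W.H (A.X.prod B.X))}

/-- operators on the product -/
theorem left_fact (hA : IsGaloisVar χ A)
    (h1 : Equivariant (A := ⟨A.X.prod B.X, υ⟩) (B := A) (fst A.X B.X))
    (h2 : Equivariant (A := ⟨A.X.prod B.X, υ⟩) (B := B) (snd A.X B.X)) {σ : Γ} {S : Set W.K}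
    (hS : Cv A σ S) (hD : HomEqNum W A.X) {N : ℕ} {a b : Fin N → W.H A.X}
    (h : DualFam W A.X a b)
    (hres : Rz ((χ σ : W.Kˣ) : W.K) S {γ | (op B σ).HasEigenvalue γ}
      {γ | (op B' σ).HasEigenvalue γ}) {Δ : Subgroup Γ} (hΔ : Δ.FiniteIndex) {d : ℤ}
    {u : W.H (A.X.prod B.X) →ₗ[W.K] W.H B'.X}
    (hu : Eqv χ Δ ⟨A.X.prod B.X, υ⟩ B' d u) :
    u = ∑ j, (u ∘ₗ inj W A.X B.X (a j)) ∘ₗ cof W A.X B.X (b j) := by
  obtain ⟨m, hm, hmΔ⟩ := Subgroup.exists_pow_mem_of_index_ne_zero hΔ.index_ne_zero σ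
  have hmm : 0 < m := hm
  set q : W.K := ((χ σ : W.Kˣ) : W.K) with hq
  have hq0 : q ≠ 0 := Units.ne_zero _
  have hP := perp_stable hA σ
  set kun := kunnethMap (W.map (fst A.X B.X)) (W.map (snd A.X B.X)) with hkun
  set F0 : Module.End W.K (perp W A.X) := (op A σ).restrict hP with hF0
  let w : (perp W A.X) ⊗[W.K] W.H B.X →ₗ[W.K] W.H B'.X :=
    u ∘ₗ kun ∘ₗ ((perp W A.X).subtype.rTensor (W.H B.X))
  have hlam : (q ^ m) ^ (-d) ≠ 0 := zpow_ne_zero _ (pow_ne_zero _ hq0)
  have hpow : ∀ (n : ℕ) (v : (perp W A.X) ⊗[W.K] W.H B.X),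
      ((perp W A.X).subtype.rTensor (W.H B.X)) (((TensorProduct.map F0 (op B σ)) ^ n) v) =
      ((TensorProduct.map (op A σ) (op B σ)) ^ n)
        (((perp W A.X).subtype.rTensor (W.H B.X)) v) := by
    intro n
    induction n with
    | zero => intro v; rfl
    | succ n ih =>
      intro v
      rw [pow_succ, Module.End.mul_apply, ih, pow_succ, Module.End.mul_apply]
      congr 1
      induction v using TensorProduct.induction_on with
      | zero => simp only [map_zero]
      | tmul x y =>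
        rw [TensorProduct.map_tmul, LinearMap.rTensor_tmul, LinearMap.rTensor_tmul,
          TensorProduct.map_tmul]
        rfl
      | add x y hx hy => simp only [map_add, hx, hy]
  have hw : w = 0 := by
    refine vanish (V := (perp W A.X) ⊗[W.K] W.H B.X) (U := W.H B'.X)
      ((TensorProduct.map F0 (op B σ)) ^ m) ((op B' σ) ^ m) w hlam ?_ ?_
    · intro v
      show u (kun (((perp W A.X).subtype.rTensor (W.H B.X))
        (((TensorProduct.map F0 (op B σ)) ^ m) v))) = _
      rw [hpow, hkun, ← kun_op h1 h2, ← hkun, op_pow, op_pow]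
      have h3 := hu (σ ^ m) hmΔ.2 (kun (((perp W A.X).subtype.rTensor (W.H B.X)) v))
      have h4 : (((χ (σ ^ m)) ^ d : W.Kˣ) : W.K) = (q ^ m) ^ d := by
        rw [map_pow, Units.val_zpow_eq_zpow_val, Units.val_pow_eq_pow_val]
      rw [h4] at h3
      show u ((⟨A.X.prod B.X, υ⟩ : GVar W Γ).act (σ ^ m) _) = (q ^ m) ^ (-d) •
        B'.act (σ ^ m) (u (kun (((perp W A.X).subtype.rTensor (W.H B.X)) v)))
      rw [h3, smul_smul, zpow_neg, inv_mul_cancel₀ (zpow_ne_zero _ (pow_ne_zero _ hq0)), one_smul]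
    · intro α γ hα hγ heq
      obtain ⟨v, hv⟩ := hα.exists_hasEigenvector
      obtain ⟨α', β', hα', hβ', h3⟩ := eig_tensor hv.2 hv.apply_eq_smul
      obtain ⟨γ', hγ', h4⟩ := eig_pow hmm hγ
      refine hres α' (perp_eig hA hS h hα') β' hβ' γ' hγ' m hmm (-d) ?_
      rw [h3, h4, heq]
  have hkey : ∀ x ∈ perp W A.X, ∀ y, u (ext W x y) = 0 := by
    intro x hx y
    have h3 : w ((⟨x, hx⟩ : perp W A.X) ⊗ₜ[W.K] y) = 0 := by rw [hw]; rfl
    exact h3
  apply ext_kunneth_lin
  intro x y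
  have h3 := hkey _ (sub_mem_perp h hD x) y
  have h4 : ext W (x - ∑ i, W.tr A.X (b i * x) • a i) y =
      ext W x y - ∑ i, W.tr A.X (b i * x) • ext W (a i) y := by
    simp only [ext, map_sub, map_sum, map_smul, sub_mul, Finset.sum_mul, smul_mul_assoc]
  rw [h4, map_sub, map_sum, sub_eq_zero] at h3
  show u (ext W x y) = _
  rw [h3, LinearMap.sum_apply]
  refine Finset.sum_congr rfl fun j _ => ?_
  show u (W.tr A.X (b j * x) • ext W (a j) y) = u (inj W A.X B.X (a j) (cof W A.X B.X (b j)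
    (ext W x y)))
  rw [cof_ext, map_smul, map_smul, map_smul]
  rfl

/-- operators to the product -/
theorem right_fact (hA : IsGaloisVar χ A)
    (h1 : Equivariant (A := ⟨A.X.prod B.X, υ⟩) (B := A) (fst A.X B.X))
    (h2 : Equivariant (A := ⟨A.X.prod B.X, υ⟩) (B := B) (snd A.X B.X)) {σ : Γ} {S : Set W.K}
    (hS : Cv A σ S) {N : ℕ} {a b : Fin N → W.H A.X}
    (h : DualFam W A.X a b)
    (hres : Rz ((χ σ : W.Kˣ) : W.K) S {γ | (op B σ).HasEigenvalue γ}
      {γ | (op B' σ).HasEigenvalue γ}) {Δ : Subgroup Γ} (hΔ : Δ.FiniteIndex) {d : ℤ}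
    {u : W.H B'.X →ₗ[W.K] W.H (A.X.prod B.X)}
    (hu : Eqv χ Δ B' ⟨A.X.prod B.X, υ⟩ d u) :
    u = ∑ j, inj W A.X B.X (a j) ∘ₗ (cof W A.X B.X (b j) ∘ₗ u) := by
  obtain ⟨m, hm, hmΔ⟩ := Subgroup.exists_pow_mem_of_index_ne_zero hΔ.index_ne_zero σ
  have hmm : 0 < m := hm
  set q : W.K := ((χ σ : W.Kˣ) : W.K) with hq
  have hq0 : q ≠ 0 := Units.ne_zero _
  obtain ⟨T, hT, hPT, hTS⟩ := hS.ex
  set P := algSpan W A.X with hPdef
  set F1 := P.mapQ P (op A σ) (alg_stable hA σ) with hF1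
  let kun : W.H A.X ⊗[W.K] W.H B.X ≃ₗ[W.K] W.H (A.X.prod B.X) :=
    LinearEquiv.ofBijective (kunnethMap (W.map (fst A.X B.X)) (W.map (snd A.X B.X)))
      (W.kunneth A.X B.X)
  let w : W.H B'.X →ₗ[W.K] (W.H A.X ⧸ P) ⊗[W.K] W.H B.X :=
    (P.mkQ.rTensor (W.H B.X)) ∘ₗ kun.symm.toLinearMap ∘ₗ u
  have hlam : (q ^ m) ^ (-d) ≠ 0 := zpow_ne_zero _ (pow_ne_zero _ hq0)
  have hpow : ∀ (n : ℕ) (x : W.H A.X ⊗[W.K] W.H B.X),
      (P.mkQ.rTensor (W.H B.X)) (((TensorProduct.map (op A σ) (op B σ)) ^ n) x) =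
        ((TensorProduct.map F1 (op B σ)) ^ n) ((P.mkQ.rTensor (W.H B.X)) x) := by
    intro n
    induction n with
    | zero => intro x; rfl
    | succ n ih =>
      intro x
      rw [pow_succ, Module.End.mul_apply, ih, pow_succ, Module.End.mul_apply]
      congr 1
      induction x using TensorProduct.induction_on with
      | zero => simp only [map_zero]
      | tmul a b =>
        rw [TensorProduct.map_tmul, LinearMap.rTensor_tmul, LinearMap.rTensor_tmul,
          TensorProduct.map_tmul]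
        rfl
      | add x y hx hy => rw [map_add, map_add, map_add, map_add, hx, hy]
  have hw : w = 0 := by
    refine vanish (V := W.H B'.X) (U := (W.H A.X ⧸ P) ⊗[W.K] W.H B.X)
      ((op B' σ) ^ m) ((TensorProduct.map F1 (op B σ)) ^ m) w hlam ?_ ?_
    · intro v
      have h3 := hu (σ ^ m) hmΔ.2 v
      have h4 : (((χ (σ ^ m)) ^ d : W.Kˣ) : W.K) = (q ^ m) ^ d := by
        rw [map_pow, Units.val_zpow_eq_zpow_val, Units.val_pow_eq_pow_val]
      rw [h4] at h3
      have h5 : u (((op B' σ) ^ m) v) = (q ^ m) ^ (-d) •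
          ((op (⟨A.X.prod B.X, υ⟩ : GVar W Γ) σ) ^ m) (u v) := by
        rw [op_pow, op_pow]
        show u (B'.act (σ ^ m) v) = (q ^ m) ^ (-d) •
          (⟨A.X.prod B.X, υ⟩ : GVar W Γ).act (σ ^ m) (u v)
        rw [h3, smul_smul, zpow_neg, inv_mul_cancel₀ (zpow_ne_zero _ (pow_ne_zero _ hq0)),
          one_smul]
      show (P.mkQ.rTensor (W.H B.X)) (kun.symm (u (((op B' σ) ^ m) v))) = _
      rw [h5, map_smul, map_smul]
      congr 1
      obtain ⟨x, hx⟩ := kun.surjective (u v)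
      have h6 : ((op (⟨A.X.prod B.X, υ⟩ : GVar W Γ) σ) ^ m) (u v) =
          kun (((TensorProduct.map (op A σ) (op B σ)) ^ m) x) := by
        rw [← hx]
        exact kun_op h1 h2 σ m x
      show (P.mkQ.rTensor (W.H B.X)) (kun.symm (((op (⟨A.X.prod B.X, υ⟩ : GVar W Γ) σ) ^ m)
        (u v))) = ((TensorProduct.map F1 (op B σ)) ^ m) ((P.mkQ.rTensor (W.H B.X))
          (kun.symm (u v)))
      rw [h6, LinearEquiv.symm_apply_apply, hpow, ← hx, LinearEquiv.symm_apply_apply]
    · intro α γ hα hγ heq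
      obtain ⟨v, hv⟩ := hγ.exists_hasEigenvector
      obtain ⟨α', β', hα', hβ', h3⟩ := eig_tensor hv.2 hv.apply_eq_smul
      obtain ⟨γ', hγ', h4⟩ := eig_pow hmm hα
      refine hres α' (hTS α' (eig_quot (alg_stable hA σ) hT hPT hα')) β' hβ' γ' hγ' m hmm d ?_
      rw [h3, h4, heq, ← mul_assoc, ← zpow_add₀ (pow_ne_zero _ hq0), add_neg_cancel, zpow_zero,
        one_mul]
  refine LinearMap.ext fun y => ?_
  have h3 : (P.mkQ.rTensor (W.H B.X)) (kun.symm (u y)) = 0 := by
    have h4 : w y = 0 := by rw [hw]; rfl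
    exact h4
  have h4 := (rTensor_exact (W.H B.X) (LinearMap.exact_subtype_mkQ P) P.mkQ_surjective
    (kun.symm (u y))).1 h3
  obtain ⟨x, hx⟩ := h4
  have h5 : u y ∈ Submodule.span W.K {w | ∃ x y, AS W A.X x ∧ w = ext W x y} := by
    have h6 : u y = kun (((algSpan W A.X).subtype.rTensor (W.H B.X)) x) := by
      rw [← LinearEquiv.symm_apply_eq]
      exact hx.symm
    rw [h6]
    exact kun_range x
  rw [LinearMap.sum_apply]
  refine (h.rep h5).trans (Finset.sum_congr rfl fun j _ => ?_)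
  show _ = ext W (a j) (cof W A.X B.X (b j) (u y))
  rw [cof_apply (h.hb j)]

end step

end Pool.Agent.U222.SL.Mo
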