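import Pool.Agent.U222.SL.Mo2

/-!
# Operators on products with varieties without resonances: algebraic and equivariant operators
-/

set_option autoImplicit false

open CategoryTheory AlgebraicGeometry
open scoped TensorProduct

universe u

namespace Pool.Agent.U222.SL.Mo

open Pool.Agent.H914 Pool.Agent.H914.VarClass Pool.Agent.H914.VarClass.Obj
  Pool.Agent.H914.WeilCohomology Pool.Agent.H281R3.HT Pool.Agent.W552 Pool.Agent.TH125.Gal
  Pool.Agent.TH132.A Pool.Agent.N876.FL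

variable {k : Type u} [Field k] {𝒱 : VarClass k} {ops : CycleOps 𝒱}
  {W : WeilCohomology.{u, 0} ops} {Γ : Type} [Group Γ] {χ : Γ →* W.Kˣ}

/-- potentially equivariant operators -/
def Pot (χ : Γ →* W.Kˣ) (A B : GVar W Γ) : Submodule W.K (W.H A.X →ₗ[W.K] W.H B.X) :=
  Submodule.span W.K {u | ∃ (Δ : Subgroup Γ) (d : ℤ), Δ.FiniteIndex ∧ Eqv χ Δ A B d u}

/-- the combinations of algebraic operators -/
def Alg (A B : GVar W Γ) : Submodule W.K (W.H A.X →ₗ[W.K] W.H B.X) :=
  Submodule.span W.K {v | AOp W A.X B.X v}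

/-- the equivariant operators are combinations of algebraic ones -/
def PotS (χ : Γ →* W.Kˣ) (A B : GVar W Γ) : Prop := Pot χ A B ≤ Alg A B

/-- algebraic operators which are independent over `ℚ` are independent -/
def RatF (A B : GVar W Γ) : Prop :=
  ∀ (n : ℕ) (t : Fin n → W.K), LinearIndependent ℚ t →
    ∀ v : Fin n → (W.H A.X →ₗ[W.K] W.H B.X), (∀ l, AOp W A.X B.X (v l)) →
      ∑ l, t l • v l = 0 → ∀ l, v l = 0

theorem Pot.comp {A B C : GVar W Γ} {u : W.H A.X →ₗ[W.K] W.H B.X}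
    {v : W.H B.X →ₗ[W.K] W.H C.X} (hv : v ∈ Pot χ B C) (hu : u ∈ Pot χ A B) :
    v ∘ₗ u ∈ Pot χ A C := by
  induction hv using Submodule.span_induction with
  | mem v hv =>
    obtain ⟨Δ, d, hΔ, hv⟩ := hv
    induction hu using Submodule.span_induction with
    | mem u hu =>
      obtain ⟨Δ', e, hΔ', hu⟩ := hu
      exact Submodule.subset_span ⟨Δ ⊓ Δ', e + d, inferInstance,
        (hv.mono inf_le_left).comp (hu.mono inf_le_right)⟩
    | zero => rw [LinearMap.comp_zero]; exact Submodule.zero_mem _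
    | add x y _ _ hx hy => rw [LinearMap.comp_add]; exact Submodule.add_mem _ hx hy
    | smul r x _ hx => rw [LinearMap.comp_smul]; exact Submodule.smul_mem _ _ hx
  | zero => rw [LinearMap.zero_comp]; exact Submodule.zero_mem _
  | add x y _ _ hx hy => rw [LinearMap.add_comp]; exact Submodule.add_mem _ hx hy
  | smul r x _ hx => rw [LinearMap.smul_comp]; exact Submodule.smul_mem _ _ hx

theorem Alg.comp_right {A B C : GVar W Γ} {u : W.H A.X →ₗ[W.K] W.H B.X}
    {v : W.H B.X →ₗ[W.K] W.H C.X} (hv : v ∈ Alg B C) (hu : AOp W A.X B.X u) :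
    v ∘ₗ u ∈ Alg A C := by
  induction hv using Submodule.span_induction with
  | mem v hv => exact Submodule.subset_span (AOp.comp hv hu)
  | zero => rw [LinearMap.zero_comp]; exact Submodule.zero_mem _
  | add x y _ _ hx hy => rw [LinearMap.add_comp]; exact Submodule.add_mem _ hx hy
  | smul r x _ hx => rw [LinearMap.smul_comp]; exact Submodule.smul_mem _ _ hx

theorem Alg.comp_left {A B C : GVar W Γ} {u : W.H A.X →ₗ[W.K] W.H B.X}
    {v : W.H B.X →ₗ[W.K] W.H C.X} (hv : AOp W B.X C.X v) (hu : u ∈ Alg A B) :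
    v ∘ₗ u ∈ Alg A C := by
  induction hu using Submodule.span_induction with
  | mem u hu => exact Submodule.subset_span (AOp.comp hv hu)
  | zero => rw [LinearMap.comp_zero]; exact Submodule.zero_mem _
  | add x y _ _ hx hy => rw [LinearMap.comp_add]; exact Submodule.add_mem _ hx hy
  | smul r x _ hx => rw [LinearMap.comp_smul]; exact Submodule.smul_mem _ _ hx

/-- the operator of a class fixed by the group -/
theorem eqv_corr {A B : GVar W Γ} (hB : IsGaloisVar χ B)
    {υ : Γ →* (W.H (A.X.prod B.X) ≃ₐ[W.K] W.H (A.X.prod B.X))}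
    (hC : IsGaloisVar χ (⟨A.X.prod B.X, υ⟩ : GVar W Γ))
    (h1 : Equivariant (A := ⟨A.X.prod B.X, υ⟩) (B := A) (fst A.X B.X))
    (h2 : Equivariant (A := ⟨A.X.prod B.X, υ⟩) (B := B) (snd A.X B.X)) {Δ : Subgroup Γ}
    {c : W.H (A.X.prod B.X)} {r : ℕ}
    (hc : ∀ g ∈ Δ, υ g c = ((χ g : W.Kˣ) : W.K) ^ r • c) :
    Eqv χ Δ A B ((r : ℤ) - A.X.dim) (W.corr c) := by
  intro g hg a
  rw [corr_apply, corr_apply]
  have h3 := push_act hB hC h2 g (c * W.map (fst A.X B.X) a)
  have e1 : υ g (W.map (fst A.X B.X) a) = W.map (fst A.X B.X) (A.act g a) := h1 g a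
  rw [map_mul (υ g), e1, hc g hg, smul_mul_assoc, map_smul] at h3
  have hq : ((χ g : W.Kˣ) : W.K) ≠ 0 := Units.ne_zero _
  have h4 : B.act g (W.push (snd A.X B.X) (c * W.map (fst A.X B.X) a)) =
      ((((χ g : W.Kˣ) : W.K) ^ A.X.dim)⁻¹ * ((χ g : W.Kˣ) : W.K) ^ r) •
        W.push (snd A.X B.X) (c * W.map (fst A.X B.X) (A.act g a)) := by
    rw [mul_smul, ← h3, smul_smul, inv_mul_cancel₀ (pow_ne_zero _ hq), one_smul]
  rw [h4]
  congr 1
  rw [zpow_sub, zpow_natCast, zpow_natCast, Units.val_mul, Units.val_inv_eq_inv_val,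
    Units.val_pow_eq_pow_val, Units.val_pow_eq_pow_val, mul_comm]

/-- algebraic operators are potentially equivariant -/
theorem aop_pot {G : Set (GVar W Γ)} (hG : GaloisClass χ G) {A B : GVar W Γ} (hA : A ∈ G)
    (hB : B ∈ G) {u : W.H A.X →ₗ[W.K] W.H B.X} (hu : AOp W A.X B.X u) : u ∈ Pot χ A B := by
  obtain ⟨c, hc, rfl⟩ := hu
  obtain ⟨C, hC, hP⟩ := hG.prod A hA B hB
  cases hP with
  | mk υ h1 h2 =>
  refine AS.ind (p := fun c => W.corr c ∈ Pot χ A B) ?_ ?_ hc
  · intro r c hc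
    obtain ⟨Δ, hΔ, h⟩ := (hG.galois _ hC).cl_fix r c hc
    exact Submodule.subset_span ⟨Δ, _, hΔ, eqv_corr (hG.galois _ hB) (hG.galois _ hC) h1 h2 h⟩
  · intro a b ha hb
    rw [corr_add]
    exact Submodule.add_mem _ ha hb

/-- a class of degree one -/
theorem exists_point {X : 𝒱.Obj} (hD : HomEqNum W X) (h1 : (1 : W.H X) ≠ 0) :
    ∃ a, AS W X a ∧ W.tr X (1 * a) = 1 := by
  by_contra hcon
  push Not at hcon
  apply h1
  refine AS_zero_of_pair hD AS.one fun y hy => ?_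
  by_contra hy0
  obtain ⟨q, hq⟩ := (AS.one.mul hy).tr
  have hq0 : (q : W.K) ≠ 0 := by rw [← hq]; exact hy0
  refine hcon (((q⁻¹ : ℚ) : W.K) • y) (hy.smul _) ?_
  rw [mul_smul_comm, map_smul, hq, smul_eq_mul, Rat.cast_inv, inv_mul_cancel₀ hq0]

section step

variable [IsAlgClosed W.K] {G : Set (GVar W Γ)} (hG : GaloisClass χ G) {A B B' : GVar W Γ}
  (hA : A ∈ G) (hB : B ∈ G) (hB' : B' ∈ G)
  {υ : Γ →* (W.H (A.X.prod B.X) ≃ₐ[W.K] W.H (A.X.prod B.X))}
  (hC : (⟨A.X.prod B.X, υ⟩ : GVar W Γ) ∈ G)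
  (h1 : Equivariant (A := ⟨A.X.prod B.X, υ⟩) (B := A) (fst A.X B.X))
  (h2 : Equivariant (A := ⟨A.X.prod B.X, υ⟩) (B := B) (snd A.X B.X)) {σ : Γ} {S : Set W.K}
  (hS : Cv A σ S) (hD : HomEqNum W A.X) (hne : (1 : W.H A.X) ≠ 0)
  (hres : Rz ((χ σ : W.Kˣ) : W.K) S {γ | (op B σ).HasEigenvalue γ}
    {γ | (op B' σ).HasEigenvalue γ})

include hG hA hB hB' hC h1 h2 hS hD hne hres

theorem left_step : (PotS χ (⟨A.X.prod B.X, υ⟩ : GVar W Γ) B' ↔ PotS χ B B') ∧
    (RatF (⟨A.X.prod B.X, υ⟩ : GVar W Γ) B' ↔ RatF B B') := by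
  obtain ⟨N, a, b, h⟩ := exists_dualFam hD
  obtain ⟨a0, ha0, ha1⟩ := exists_point hD hne
  have hid : cof W A.X B.X 1 ∘ₗ inj W A.X B.X a0 = LinearMap.id := by
    refine LinearMap.ext fun y => ?_
    show cof W A.X B.X 1 (ext W a0 y) = y
    rw [cof_ext, ha1, one_smul]
  have hdec : ∀ u ∈ Pot χ (⟨A.X.prod B.X, υ⟩ : GVar W Γ) B',
      u = ∑ j, (u ∘ₗ inj W A.X B.X (a j)) ∘ₗ cof W A.X B.X (b j) := by
    intro u hu
    induction hu using Submodule.span_induction with
    | mem u hu =>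
      obtain ⟨Δ, d, hΔ, hu⟩ := hu
      exact left_fact (hG.galois _ hA) h1 h2 hS hD h hres hΔ hu
    | zero => simp
    | add x y _ _ hx hy =>
      refine (congrArg₂ (· + ·) hx hy).trans ?_
      rw [← Finset.sum_add_distrib]
      exact Finset.sum_congr rfl fun j _ => by
        simp only [LinearMap.add_comp]
    | smul r x _ hx =>
      refine (congrArg (r • ·) hx).trans ?_
      rw [Finset.smul_sum]
      exact Finset.sum_congr rfl fun j _ => by
        simp only [LinearMap.smul_comp]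
  refine ⟨⟨?_, ?_⟩, ⟨?_, ?_⟩⟩
  · intro hP u hu
    have h3 : u ∘ₗ cof W A.X B.X 1 ∈ Pot χ (⟨A.X.prod B.X, υ⟩ : GVar W Γ) B' :=
      Pot.comp hu (aop_pot hG hC hB (aop_cof AS.one))
    have h4 := Alg.comp_right (A := B) (hP h3) (aop_inj (Y := B.X) ha0)
    have h5 : (u ∘ₗ cof W A.X B.X 1) ∘ₗ inj W A.X B.X a0 = u := by
      rw [LinearMap.comp_assoc, hid, LinearMap.comp_id]
    rwa [h5] at h4
  · intro hP u hu
    rw [hdec u hu]
    refine Submodule.sum_mem _ fun j _ => Alg.comp_right (B := B) (hP ?_) (aop_cof (h.hb j))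
    exact Pot.comp hu (aop_pot hG hB hC (aop_inj (h.ha j)))
  · intro hR n t ht v hv hsum l
    have h3 := hR n t ht (fun l => v l ∘ₗ cof W A.X B.X 1)
      (fun l => (hv l).comp (aop_cof AS.one)) (by
        have h4 := congrArg (fun f => f ∘ₗ cof W A.X B.X 1) hsum
        simp only [LinearMap.zero_comp] at h4
        rw [← h4]
        refine LinearMap.ext fun x => ?_
        simp [LinearMap.sum_apply]) l
    have h5 : (v l ∘ₗ cof W A.X B.X 1) ∘ₗ inj W A.X B.X a0 = v l := by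
      rw [LinearMap.comp_assoc, hid, LinearMap.comp_id]
    have h3' : v l ∘ₗ cof W A.X B.X 1 = 0 := h3
    rw [← h5, h3', LinearMap.zero_comp]
  · intro hR n t ht v hv hsum l
    have h3 : ∀ j, v l ∘ₗ inj W A.X B.X (a j) = 0 := by
      intro j
      refine hR n t ht (fun l => v l ∘ₗ inj W A.X B.X (a j))
        (fun l => (hv l).comp (aop_inj (h.ha j))) ?_ l
      have h4 := congrArg (fun f => f ∘ₗ inj W A.X B.X (a j)) hsum
      simp only [LinearMap.zero_comp] at h4
      rw [← h4]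
      refine LinearMap.ext fun x => ?_
      simp [LinearMap.sum_apply]
    rw [hdec (v l) (aop_pot hG hC hB' (hv l))]
    exact Finset.sum_eq_zero fun j _ => by rw [h3, LinearMap.zero_comp]

theorem right_step : (PotS χ B' (⟨A.X.prod B.X, υ⟩ : GVar W Γ) ↔ PotS χ B' B) ∧
    (RatF B' (⟨A.X.prod B.X, υ⟩ : GVar W Γ) ↔ RatF B' B) := by
  obtain ⟨N, a, b, h⟩ := exists_dualFam hD
  obtain ⟨a0, ha0, ha1⟩ := exists_point hD hne
  have hid : cof W A.X B.X 1 ∘ₗ inj W A.X B.X a0 = LinearMap.id := by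
    refine LinearMap.ext fun y => ?_
    show cof W A.X B.X 1 (ext W a0 y) = y
    rw [cof_ext, ha1, one_smul]
  have hdec : ∀ u ∈ Pot χ B' (⟨A.X.prod B.X, υ⟩ : GVar W Γ),
      u = ∑ j, inj W A.X B.X (a j) ∘ₗ (cof W A.X B.X (b j) ∘ₗ u) := by
    intro u hu
    induction hu using Submodule.span_induction with
    | mem u hu =>
      obtain ⟨Δ, d, hΔ, hu⟩ := hu
      exact right_fact (hG.galois _ hA) h1 h2 hS h hres hΔ hu
    | zero => simp
    | add x y _ _ hx hy =>
      refine (congrArg₂ (· + ·) hx hy).trans ?_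
      rw [← Finset.sum_add_distrib]
      exact Finset.sum_congr rfl fun j _ => by
        simp only [LinearMap.comp_add]
    | smul r x _ hx =>
      refine (congrArg (r • ·) hx).trans ?_
      rw [Finset.smul_sum]
      exact Finset.sum_congr rfl fun j _ => by
        simp only [LinearMap.comp_smul]
  refine ⟨⟨?_, ?_⟩, ⟨?_, ?_⟩⟩
  · intro hP u hu
    have h3 : inj W A.X B.X a0 ∘ₗ u ∈ Pot χ B' (⟨A.X.prod B.X, υ⟩ : GVar W Γ) :=
      Pot.comp (aop_pot hG hB hC (aop_inj ha0)) hu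
    have h4 := Alg.comp_left (C := B) (aop_cof (Y := B.X) (X := A.X) AS.one) (hP h3)
    have h5 : cof W A.X B.X 1 ∘ₗ (inj W A.X B.X a0 ∘ₗ u) = u := by
      rw [← LinearMap.comp_assoc, hid, LinearMap.id_comp]
    rwa [h5] at h4
  · intro hP u hu
    rw [hdec u hu]
    refine Submodule.sum_mem _ fun j _ => Alg.comp_left (B := B) (aop_inj (h.ha j)) (hP ?_)
    exact Pot.comp (aop_pot hG hC hB (aop_cof (h.hb j))) hu
  · intro hR n t ht v hv hsum l
    have h3 := hR n t ht (fun l => inj W A.X B.X a0 ∘ₗ v l)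
      (fun l => AOp.comp (aop_inj ha0) (hv l)) (by
        have h4 := congrArg (fun f => inj W A.X B.X a0 ∘ₗ f) hsum
        simp only [LinearMap.comp_zero] at h4
        rw [← h4]
        refine LinearMap.ext fun x => ?_
        simp [LinearMap.sum_apply]) l
    have h5 : cof W A.X B.X 1 ∘ₗ (inj W A.X B.X a0 ∘ₗ v l) = v l := by
      rw [← LinearMap.comp_assoc, hid, LinearMap.id_comp]
    have h3' : inj W A.X B.X a0 ∘ₗ v l = 0 := h3
    rw [← h5, h3', LinearMap.comp_zero]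
  · intro hR n t ht v hv hsum l
    have h3 : ∀ j, cof W A.X B.X (b j) ∘ₗ v l = 0 := by
      intro j
      refine hR n t ht (fun l => cof W A.X B.X (b j) ∘ₗ v l)
        (fun l => AOp.comp (aop_cof (h.hb j)) (hv l)) ?_ l
      have h4 := congrArg (fun f => cof W A.X B.X (b j) ∘ₗ f) hsum
      simp only [LinearMap.comp_zero] at h4
      rw [← h4]
      refine LinearMap.ext fun x => ?_
      simp [LinearMap.sum_apply]
    rw [hdec (v l) (aop_pot hG hB' hC (hv l))]
    exact Finset.sum_eq_zero fun j _ => by rw [h3, LinearMap.comp_zero]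

end step

end Pool.Agent.U222.SL.Mo
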