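import Pool.Agent.TH125.Gal.Pub2

/-!
# Motives cut out by idempotent correspondences, their homomorphisms and realizations: definitions
-/

set_option autoImplicit false

open CategoryTheory AlgebraicGeometry
open scoped TensorProduct

universe u

namespace Pool.Agent.U222.SL.Mot

section linear

variable (K : Type) [Field K] {L : Type} [AddCommGroup L] [Module K L] (S : AddSubgroup L)

/-- The linear map `ρ : K ⊗ S → L`, `t ⊗ u ↦ t u`, for a subgroup `S`. (If `S` is a vector space over
`ℚ`, the tensor product over `ℤ` is also the tensor product over `ℚ`.) -/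
noncomputable def rho (x : K ⊗[ℤ] S) : L := S.subtype.toIntLinearMap.liftBaseChange K x

/-- The map `ρ : K ⊗ S → L` is injective. -/
def IsInjective : Prop := Function.Injective (rho K S)

/-- `u` is in the image of the map `ρ : K ⊗ S → L`. -/
def IsInImage (u : L) : Prop := ∃ x, rho K S x = u

end linear

section algebra

variable {K Γ H H' : Type} [Field K] [Group Γ] [AddCommGroup H] [Module K H] [AddCommGroup H']
  [Module K H']

/-- `u` is a homomorphism `H(m) → H'(m + d)` of representations of the group `Δ`: it commutes with the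
actions `ρ` and `ρ'` of the elements of `Δ`, up to the twist with `χ ^ d`. -/
def IsEquivariant (χ : Γ →* Kˣ) (Δ : Subgroup Γ) (ρ : Γ → H → H) (ρ' : Γ → H' → H') (d : ℤ)
    (u : H →ₗ[K] H') : Prop :=
  ∀ g ∈ Δ, ∀ a, ρ' g (u a) = (((χ g) ^ d : Kˣ) : K) • u (ρ g a)

/-- A motive `(H, p, m)` over the fixed field of `Δ`: `p` is an idempotent correspondence (a member of
the set `C`) which is fixed by `Δ`, and `m` is an integer. -/
structure Motive (χ : Γ →* Kˣ) (Δ : Subgroup Γ) (ρ : Γ → H → H) (C : Set (H →ₗ[K] H)) where
  /-- the twist -/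
  m : ℤ
  /-- the projector -/
  p : H →ₗ[K] H
  idem : ∀ a, p (p a) = p a
  mem : p ∈ C
  fixed : IsEquivariant χ Δ ρ ρ 0 p

variable {χ : Γ →* Kˣ} {Δ : Subgroup Γ} {ρ : Γ → H → H} {ρ' : Γ → H' → H'} {C : Set (H →ₗ[K] H)}
  {C' : Set (H' →ₗ[K] H')}

/-- `u` is a homomorphism of the realizations `p H(m) → p' H'(m')` which commutes with `Δ` (extended
by `0` on the kernel of `p`). -/
def IsGaloisHom (M : Motive χ Δ ρ C) (M' : Motive χ Δ ρ' C') (u : H →ₗ[K] H') : Prop :=
  IsEquivariant χ Δ ρ ρ' (M'.m - M.m) u ∧ (∀ a, u (M.p a) = u a) ∧ ∀ a, M'.p (u a) = u a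

/-- The group `Hom(M, M')` (a vector space over `ℚ`), generated by the correspondences of degree
`m' - m` (the members of `D (m' - m)`) which are homomorphisms of the realizations fixed by `Δ`. (Sums
and differences of such correspondences are again such correspondences.) -/
def Hom (M : Motive χ Δ ρ C) (M' : Motive χ Δ ρ' C') (D : ℤ → Set (H →ₗ[K] H')) :
    AddSubgroup (H →ₗ[K] H') :=
  AddSubgroup.closure {u | u ∈ D (M'.m - M.m) ∧ IsGaloisHom M M' u}

/-- For all subgroups `Δ` of finite index and all motives `M = (H, p, m)`, `M' = (H', p', m')` over the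
fixed field of `Δ`, the map `ρ : K ⊗ Hom(M, M') → Hom(H, H')` is injective (for `t = true`),
respectively all homomorphisms of the realizations which commute with `Δ` are in its image (for
`t = false`). -/
def AllMotives (t : Bool) (χ : Γ →* Kˣ) (ρ : Γ → H → H) (ρ' : Γ → H' → H') (C : Set (H →ₗ[K] H))
    (C' : Set (H' →ₗ[K] H')) (D : ℤ → Set (H →ₗ[K] H')) : Prop :=
  ∀ Δ : Subgroup Γ, Δ.FiniteIndex → ∀ (M : Motive χ Δ ρ C) (M' : Motive χ Δ ρ' C'),
    (t = true → IsInjective K (Hom M M' D)) ∧
      (t = false → ∀ u, IsGaloisHom M M' u → IsInImage K (Hom M M' D) u)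

/-- The operators given by the correspondences of degree `d` on a variety of dimension `n`: the members
of `alg (n + d)` act by `corr`. -/
def operators {R : Type} (corr : R → (H →ₗ[K] H')) (alg : ℕ → Set R) (n : ℕ) (d : ℤ) :
    Set (H →ₗ[K] H') :=
  {u | u = 0 ∨ ∃ r : ℕ, (r : ℤ) = n + d ∧ ∃ c ∈ alg r, corr c = u}

/-- `χ` maps `σ` to the number `q`. -/
def MapsTo (χ : Γ →* Kˣ) (σ : Γ) (q : ℕ) : Prop := ((χ σ : Kˣ) : K) = q

/-- The action as a map. -/
def action {A : Type} [Ring A] [Algebra K A] (ρ : Γ →* (A ≃ₐ[K] A)) (g : Γ) (a : A) : A := ρ g a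

/-- The action as a linear map. -/
def linAction {A : Type} [Ring A] [Algebra K A] (ρ : Γ →* (A ≃ₐ[K] A)) (g : Γ) : Module.End K A :=
  (ρ g).toLinearMap

end algebra

open Pool.Agent.H914 Pool.Agent.H914.VarClass Pool.Agent.H914.VarClass.Obj
  Pool.Agent.H914.WeilCohomology Pool.Agent.H281R3.HT Pool.Agent.TH125.Gal

variable {k : Type u} [Field k] {𝒱 : VarClass k} {ops : CycleOps 𝒱}
  {W : WeilCohomology.{u, 0} ops} {Γ : Type} [Group Γ]

/-- `A` is a product `X i₁ × (X i₂ × (⋯ × Z))` for the list of the indices, with an action of `Γ` on the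
cohomology which is compatible with the projections, and all partial products are in `G`. -/
inductive IsProductOver (G : Set (GVar W Γ)) {ι : Type} (X : ι → GVar W Γ) (Z : GVar W Γ) :
    List ι → GVar W Γ → Prop
  | base : IsProductOver G X Z [] Z
  | step {L : List ι} {B C : GVar W Γ} (i : ι) : IsProductOver G X Z L B → C ∈ G →
      IsProdVar (X i) B C → IsProductOver G X Z (i :: L) C

/-- The operators on the cohomology given by the correspondences of degree `d` from `X` to `Y` with
rational coefficients: the classes of cycles of codimension `dim X + d` on `X × Y` (`0` if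
`dim X + d < 0`). -/
def correspondences (W : WeilCohomology.{u, 0} ops) (X Y : 𝒱.Obj) :
    ℤ → Set (W.H X →ₗ[W.K] W.H Y) :=
  operators W.corr (algClasses W (X.prod Y)) X.dim

/-- The statement on the motives `(A, p, m)` and `(B, p', m')` for all twists and all finite extensions
of the base field: the map `ρ` is injective (`t = true`), respectively all homomorphisms of the
realizations which commute with the Galois group are in its image (`t = false`). -/
def TateFor (t : Bool) (χ : Γ →* W.Kˣ) (A B : GVar W Γ) : Prop :=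
  AllMotives t χ (action A.act) (action B.act) (correspondences W A.X A.X 0)
    (correspondences W B.X B.X 0) (correspondences W A.X B.X)

end Pool.Agent.U222.SL.Mot
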