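import Pool.Agent.U222.SL.Mo3
import Pool.Agent.U222.SL.MotDefs

/-!
# Operators on products with varieties without resonances: all steps
-/

set_option autoImplicit false

open CategoryTheory AlgebraicGeometry
open scoped TensorProduct

universe u

namespace Pool.Agent.U222.SL.Mo

open Pool.Agent.H914 Pool.Agent.H914.VarClass Pool.Agent.H914.VarClass.Obj
  Pool.Agent.H914.WeilCohomology Pool.Agent.H281R3.HT Pool.Agent.W552 Pool.Agent.TH125.Gal
  Pool.Agent.TH132.A Pool.Agent.N876.FL Pool.Agent.U222.SL.Mot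

variable {k : Type u} [Field k] {𝒱 : VarClass k} {ops : CycleOps 𝒱}
  {W : WeilCohomology.{u, 0} ops} {Γ : Type} [Group Γ] {χ : Γ →* W.Kˣ}
  {G : Set (GVar W Γ)} {ι : Type} {X : ι → GVar W Γ} {P Z Z' : GVar W Γ} {S : ι → Set W.K} {σ : Γ}

variable [IsAlgClosed W.K]

/-- the eigenvalues on the products -/
theorem tower_shape (h : Sys χ G X P σ S) (hZ : Z ∈ G) {L : List ι} {V : GVar W Γ}
    (hV : IsProductOver G X Z L V) (hL : L.Nodup) :
    V ∈ G ∧ ∀ γ, (op V σ).HasEigenvalue γ →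
      Shape S {β | (op Z σ).HasEigenvalue β} ((χ σ : W.Kˣ) : W.K) L γ := by
  classical
  induction hV with
  | base =>
    refine ⟨hZ, fun γ hγ => ⟨∅, fun _ => 0, γ, 0, 1, by simp, by simp, hγ, one_pos, ?_⟩⟩
    rw [Finset.prod_empty, pow_zero, one_mul, one_mul]
  | @step L B C i hB hC hP ih =>
    rw [List.nodup_cons] at hL
    obtain ⟨hBG, hτ'⟩ := ih hL.2
    refine ⟨hC, fun γ hγ => ?_⟩
    obtain ⟨α, β', hα, hβ', rfl⟩ := eig_prod (A := X i) (B := B) hP hγ
    obtain ⟨I, α', β, e, m, hI, hα', hβ, hm, hγ'⟩ := hτ' β' hβ'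
    have hiI : i ∉ I := fun hi => hL.1 (hI i hi)
    rcases eig_factor (h.gal.galois _ (h.mem i)) (h.cv i) hα with hαS | ⟨m', j, hm', hαm⟩
    · refine ⟨insert i I, Function.update α' i α, β, e, m, ?_, ?_, hβ, hm, ?_⟩
      · intro i' hi'
        rcases Finset.mem_insert.1 hi' with rfl | hi'
        · exact List.mem_cons_self
        · exact List.mem_cons_of_mem _ (hI i' hi')
      · intro i' hi'
        rcases Finset.mem_insert.1 hi' with rfl | hi'
        · rw [Function.update_self]; exact hαS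
        · rw [Function.update_of_ne (ne_of_mem_of_not_mem hi' hiI)]
          exact hα' i' hi'
      · rw [Finset.prod_insert hiI, Function.update_self, mul_pow, hγ', ← mul_pow]
        congr 1
        rw [Finset.prod_congr rfl fun i' hi' =>
          Function.update_of_ne (ne_of_mem_of_not_mem hi' hiI) α α']
        ring
    · refine ⟨I, α', β, e + j, m * m', fun i' hi' => List.mem_cons_of_mem _ (hI i' hi'), hα', hβ,
        Nat.mul_pos hm hm', ?_⟩
      have h3 : α ^ (m * m') = (((χ σ : W.Kˣ) : W.K) ^ j) ^ (m * m') := by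
        rw [mul_comm m m', pow_mul, hαm, ← pow_mul, ← pow_mul]
        congr 1
        ring
      rw [mul_pow, h3, pow_mul β', hγ', ← pow_mul ((∏ i ∈ I, α' i) * _ * β), ← mul_pow]
      congr 1
      rw [pow_add]
      ring

omit [IsAlgClosed W.K] in
/-- products of eigenvalues -/
theorem eig_mul {A B C : GVar W Γ} (hC : IsProdVar A B C) {α β : W.K}
    (hα : (op A σ).HasEigenvalue α) (hβ : (op B σ).HasEigenvalue β) :
    (op C σ).HasEigenvalue (α * β) := by
  cases hC with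
  | mk υ h1 h2 =>
  obtain ⟨x, hx⟩ := hα.exists_hasEigenvector
  obtain ⟨y, hy⟩ := hβ.exists_hasEigenvector
  refine Module.End.hasEigenvalue_of_hasEigenvector
    (x := kunnethMap (W.map (fst A.X B.X)) (W.map (snd A.X B.X)) (x ⊗ₜ y))
    (Module.End.hasEigenvector_iff.2 ⟨Module.End.mem_eigenspace_iff.2 ?_, ?_⟩)
  · have h3 := kun_op h1 h2 σ 1 (x ⊗ₜ[W.K] y)
    rw [pow_one, pow_one, TensorProduct.map_tmul, hx.apply_eq_smul, hy.apply_eq_smul,
      TensorProduct.smul_tmul_smul, map_smul] at h3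
    exact h3
  · intro h0
    have h3 : x ⊗ₜ[W.K] y = 0 := (W.kunneth A.X B.X).1 (by rw [h0, map_zero])
    apply hx.2
    refine (Module.forall_dual_apply_eq_zero_iff W.K x).1 fun φ => ?_
    have h4 : φ x • y = 0 := by
      have h5 := congrArg (fun t => TensorProduct.lid W.K _ (φ.rTensor (W.H B.X) t)) h3
      simpa only [LinearMap.rTensor_tmul, TensorProduct.lid_tmul, map_zero] using h5
    exact (smul_eq_zero.1 h4).resolve_right hy.2

omit [IsAlgClosed W.K] in
/-- no coincidences -/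
theorem rz (h : Sys χ G X P σ S) {E E' : Set W.K}
    (hE : ∀ β ∈ E, ∀ β' ∈ E', (op P σ).HasEigenvalue (β * β')) {i : ι} {L L' : List ι}
    (hi : i ∉ L) (hi' : i ∉ L') (hLL : L.Disjoint L') {B B' : GVar W Γ}
    (hB : ∀ γ, (op B σ).HasEigenvalue γ → Shape S E ((χ σ : W.Kˣ) : W.K) L γ)
    (hB' : ∀ γ, (op B' σ).HasEigenvalue γ → Shape S E' ((χ σ : W.Kˣ) : W.K) L' γ)
    (hG : IsGaloisVar χ B') :
    Rz ((χ σ : W.Kˣ) : W.K) (S i) {γ | (op B σ).HasEigenvalue γ}
      {γ | (op B' σ).HasEigenvalue γ} := by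
  classical
  intro α hα γ hγ γ' hγ' m hm d heq
  set q : W.K := ((χ σ : W.Kˣ) : W.K) with hq
  have hq0 : q ≠ 0 := Units.ne_zero _
  obtain ⟨hγ0, hγd⟩ := dual_eig hG hγ'
  rw [← hq] at hγd
  set γ'' : W.K := q ^ B'.X.dim / γ' with hγ''
  obtain ⟨I, a, β, e, m1, hI, ha, hβ, hm1, h1⟩ := hB γ hγ
  obtain ⟨I', a', β', e', m2, hI', ha', hβ', hm2, h2⟩ := hB' γ'' hγd
  have hiI : i ∉ I := fun h0 => hi (hI i h0)
  have hiI' : i ∉ I' := fun h0 => hi' (hI' i h0)
  have hII : Disjoint I I' := by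
    rw [Finset.disjoint_left]
    intro j hj hj'
    exact hLL (hI j hj) (hI' j hj')
  have hγγ : γ' * γ'' = q ^ B'.X.dim := by
    rw [hγ'', mul_div_assoc', mul_div_cancel_left₀ _ hγ0]
  -- the exponent
  obtain ⟨E0, w, hw⟩ : ∃ (E0 w : ℕ), (d + B'.X.dim : ℤ) + E0 = w := by
    refine ⟨(-(d + B'.X.dim : ℤ)).toNat, (d + B'.X.dim : ℤ).toNat, ?_⟩
    omega
  let f : ι → W.K := fun j => if j = i then α else if j ∈ I then a j else a' j
  have hfi : f i = α := if_pos rfl
  have hfI : ∀ j ∈ I, f j = a j := by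
    intro j hj
    have h3 : j ≠ i := ne_of_mem_of_not_mem hj hiI
    show (if j = i then α else if j ∈ I then a j else a' j) = a j
    rw [if_neg h3, if_pos hj]
  have hfI' : ∀ j ∈ I', f j = a' j := by
    intro j hj
    have h3 : j ≠ i := ne_of_mem_of_not_mem hj hiI'
    have h4 : j ∉ I := fun h0 => (Finset.disjoint_left.1 hII) h0 hj
    show (if j = i then α else if j ∈ I then a j else a' j) = a' j
    rw [if_neg h3, if_neg h4]
  have hiU : i ∉ I ∪ I' := by
    rw [Finset.mem_union]; exact fun h0 => h0.elim hiI hiI'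
  refine h.res (insert i (I ∪ I')) (Finset.insert_nonempty _ _) f ?_ (β * β')
    (hE β hβ β' hβ') (e + e' + E0) (m * (m1 * m2)) w (by positivity) ?_
  · intro j hj
    rcases Finset.mem_insert.1 hj with rfl | hj
    · rw [hfi]; exact hα
    · rcases Finset.mem_union.1 hj with hj | hj
      · rw [hfI j hj]; exact ha j hj
      · rw [hfI' j hj]; exact ha' j hj
  · rw [Finset.prod_insert hiU, hfi, Finset.prod_union hII, Finset.prod_congr rfl hfI,
      Finset.prod_congr rfl hfI']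
    rw [← hq]
    have h3 : α * ((∏ i ∈ I, a i) * ∏ i ∈ I', a' i) * q ^ (e + e' + E0) * (β * β') =
        α * ((∏ i ∈ I, a i) * q ^ e * β) * ((∏ i ∈ I', a' i) * q ^ e' * β') * q ^ E0 := by
      rw [pow_add, pow_add]; ring
    have h4 : ((∏ i ∈ I, a i) * q ^ e * β) ^ (m * (m1 * m2)) = γ ^ (m * (m1 * m2)) := by
      have h5 : m * (m1 * m2) = m1 * (m * m2) := by ring
      rw [h5, pow_mul, ← h1, ← pow_mul]
    have h5 : ((∏ i ∈ I', a' i) * q ^ e' * β') ^ (m * (m1 * m2)) = γ'' ^ (m * (m1 * m2)) := by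
      have h6 : m * (m1 * m2) = m2 * (m * m1) := by ring
      rw [h6, pow_mul, ← h2, ← pow_mul]
    rw [h3, mul_pow, mul_pow, mul_pow, h4, h5]
    have h6 : α ^ (m * (m1 * m2)) * γ ^ (m * (m1 * m2)) =
        (((q ^ m) ^ d) * γ' ^ m) ^ (m1 * m2) := by
      rw [← mul_pow, pow_mul, heq]
    rw [h6]
    have h7 : (((q ^ m) ^ d) * γ' ^ m) ^ (m1 * m2) * γ'' ^ (m * (m1 * m2)) =
        ((q ^ m) ^ d * (γ' * γ'') ^ m) ^ (m1 * m2) := by
      rw [pow_mul γ'', ← mul_pow]
      congr 1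
      rw [mul_pow γ' γ'']
      ring
    rw [h7, hγγ]
    have h8 : (q ^ m) ^ d * (q ^ B'.X.dim) ^ m = (q ^ m) ^ (d + (B'.X.dim : ℤ)) := by
      rw [zpow_add₀ (pow_ne_zero _ hq0), zpow_natCast, ← pow_mul, ← pow_mul, mul_comm m B'.X.dim]
    have h9 : (q ^ E0) ^ (m * (m1 * m2)) = ((q ^ m) ^ (E0 : ℤ)) ^ (m1 * m2) := by
      rw [zpow_natCast, ← pow_mul, ← pow_mul, ← pow_mul]
      congr 1
      ring
    rw [h8, h9, ← mul_pow, ← zpow_add₀ (pow_ne_zero _ hq0), hw, zpow_natCast, ← pow_mul, ← pow_mul]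
    congr 1
    ring

/-- all steps -/
theorem main_steps (h : Sys χ G X P σ S) (hP : IsProdVar Z Z' P) (hZ : Z ∈ G) (hZ' : Z' ∈ G)
    {L L' : List ι} (hLL : (L ++ L').Nodup) {V V' : GVar W Γ} (hV : IsProductOver G X Z L V)
    (hV' : IsProductOver G X Z' L' V') :
    (PotS χ V V' ↔ PotS χ Z Z') ∧ (RatF V V' ↔ RatF Z Z') := by
  rw [List.nodup_append'] at hLL
  obtain ⟨hL, hL', hdis⟩ := hLL
  have hE : ∀ β ∈ {β | (op Z σ).HasEigenvalue β}, ∀ β' ∈ {β | (op Z' σ).HasEigenvalue β},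
      (op P σ).HasEigenvalue (β * β') := fun β hβ β' hβ' => eig_mul hP hβ hβ'
  have hE' : ∀ β ∈ {β | (op Z' σ).HasEigenvalue β}, ∀ β' ∈ {β | (op Z σ).HasEigenvalue β},
      (op P σ).HasEigenvalue (β * β') := fun β hβ β' hβ' => by
    rw [mul_comm]; exact eig_mul hP hβ' hβ
  obtain ⟨hVG', hsh'⟩ := tower_shape h hZ' hV' hL'
  have key1 : (PotS χ V V' ↔ PotS χ Z V') ∧ (RatF V V' ↔ RatF Z V') := by
    induction hV with
    | base => exact ⟨Iff.rfl, Iff.rfl⟩
    | @step L B C i hB hC hPr ih =>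
      rw [List.nodup_cons] at hL
      rw [List.disjoint_cons_left] at hdis
      obtain ⟨hBG, hsh⟩ := tower_shape h hZ hB hL.2
      obtain ⟨e1, e2⟩ := ih hL.2 hdis.2
      cases hPr with
      | mk υ h1 h2 =>
      obtain ⟨f1, f2⟩ := left_step h.gal (h.mem i) hBG hVG' hC h1 h2 (h.cv i) (h.homEqNum i)
        (h.one i) (rz h hE hL.1 hdis.1 hdis.2 hsh hsh' (h.gal.galois _ hVG'))
      exact ⟨f1.trans e1, f2.trans e2⟩
  have key2 : (PotS χ Z V' ↔ PotS χ Z Z') ∧ (RatF Z V' ↔ RatF Z Z') := by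
    clear key1 hsh' hVG' hdis
    induction hV' with
    | base => exact ⟨Iff.rfl, Iff.rfl⟩
    | @step L' B C i hB hC hPr ih =>
      rw [List.nodup_cons] at hL'
      obtain ⟨hBG, hsh⟩ := tower_shape h hZ' hB hL'.2
      obtain ⟨e1, e2⟩ := ih hL'.2
      cases hPr with
      | mk υ h1 h2 =>
      obtain ⟨-, hsh0⟩ := tower_shape h hZ (IsProductOver.base (G := G) (X := X) (Z := Z))
        List.nodup_nil
      obtain ⟨f1, f2⟩ := right_step h.gal (h.mem i) hBG hZ hC h1 h2 (h.cv i) (h.homEqNum i)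
        (h.one i) (rz h hE' hL'.1 (List.not_mem_nil) (List.disjoint_nil_right _) hsh hsh0
          (h.gal.galois _ hZ))
      exact ⟨f1.trans e1, f2.trans e2⟩
  exact ⟨key1.1.trans key2.1, key1.2.trans key2.2⟩

end Pool.Agent.U222.SL.Mo
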