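import Pool.Agent.U222.SL.Mo4

/-!
# Averages and homogeneous parts
-/

set_option autoImplicit false

open CategoryTheory AlgebraicGeometry
open scoped TensorProduct

universe u

namespace Pool.Agent.U222.SL.Mo

open Pool.Agent.H914 Pool.Agent.H914.VarClass Pool.Agent.H914.VarClass.Obj
  Pool.Agent.H914.WeilCohomology Pool.Agent.H281R3.HT Pool.Agent.W552 Pool.Agent.TH125.Gal
  Pool.Agent.TH132.A Pool.Agent.N876.FL Pool.Agent.U222.SL.Mot

/-- averages -/
theorem average {K G V : Type} [Field K] [CharZero K] [Group G] [AddCommGroup V] [Module K V]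
    (ρ : G →* Module.End K V) (C : Set V) (h0 : (0 : V) ∈ C)
    (hadd : ∀ x ∈ C, ∀ y ∈ C, x + y ∈ C) (hq : ∀ (n : ℕ), ∀ x ∈ C, ((n : K))⁻¹ • x ∈ C)
    (Δ : Subgroup G) (hst : ∀ g ∈ Δ, ∀ x ∈ C, ρ g x ∈ C)
    (hfix : ∀ x ∈ C, ∃ Δ' : Subgroup G, Δ'.FiniteIndex ∧ ∀ g ∈ Δ', ρ g x = x) {n : ℕ}
    (t : Fin n → K) (x : Fin n → V) (hx : ∀ l, x l ∈ C) {u : V} (hu : u = ∑ l, t l • x l)
    (hu' : ∀ g ∈ Δ, ρ g u = u) :
    ∃ w : Fin n → V, (∀ l, w l ∈ C) ∧ (∀ l, ∀ g ∈ Δ, ρ g (w l) = w l) ∧ u = ∑ l, t l • w l := by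
  classical
  choose D hD hDx using fun l => hfix (x l) (hx l)
  have hfin : (⨅ l, D l).FiniteIndex := Subgroup.finiteIndex_iInf hD
  set Δ' := ⨅ l, D l with hΔ'
  have hx' : ∀ l, ∀ g ∈ Δ', ρ g (x l) = x l := fun l g hg => hDx l g (by
    rw [hΔ', Subgroup.mem_iInf] at hg; exact hg l)
  letI : Fintype (Δ ⧸ Δ'.subgroupOf Δ) := Subgroup.fintypeQuotientOfFiniteIndex
  let a : V →ₗ[K] V := ∑ q : Δ ⧸ Δ'.subgroupOf Δ, ρ ((q.out : Δ) : G)
  have ha : ∀ y, a y = ∑ q : Δ ⧸ Δ'.subgroupOf Δ, ρ ((q.out : Δ) : G) y := by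
    intro y
    show (∑ q : Δ ⧸ Δ'.subgroupOf Δ, ρ ((q.out : Δ) : G)) y = _
    rw [LinearMap.sum_apply]
  have haC : ∀ y ∈ C, a y ∈ C := by
    intro y hy
    rw [ha]
    refine Finset.sum_induction _ (fun z => z ∈ C) (fun x y hx hy => hadd x hx y hy) h0 ?_
    intro q _
    exact hst _ q.out.2 y hy
  have hainv : ∀ y, (∀ g ∈ Δ', ρ g y = y) → ∀ g ∈ Δ, ρ g (a y) = a y := by
    intro y hy g hg
    rw [ha, map_sum]
    rw [← Equiv.sum_comp (MulAction.toPerm (⟨g, hg⟩ : Δ))
      (fun q : Δ ⧸ Δ'.subgroupOf Δ => ρ ((q.out : Δ) : G) y)]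
    refine Finset.sum_congr rfl fun q _ => ?_
    obtain ⟨h, hh⟩ := QuotientGroup.mk_out_eq_mul (Δ'.subgroupOf Δ) ((⟨g, hg⟩ : Δ) * q.out)
    have h1 : (MulAction.toPerm (⟨g, hg⟩ : Δ)) q =
        (QuotientGroup.mk ((⟨g, hg⟩ : Δ) * q.out) : Δ ⧸ Δ'.subgroupOf Δ) := by
      show (⟨g, hg⟩ : Δ) • q = _
      conv_lhs => rw [← QuotientGroup.out_eq' q]
      rfl
    rw [h1, hh]
    have h2 : ρ ((h : Δ) : G) y = y := hy _ (Subgroup.mem_subgroupOf.1 h.2)
    show ρ g (ρ ((q.out : Δ) : G) y) = ρ (g * ((q.out : Δ) : G) * ((h : Δ) : G)) y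
    rw [map_mul, map_mul, Module.End.mul_apply, Module.End.mul_apply, h2]
  have hN : (Fintype.card (Δ ⧸ Δ'.subgroupOf Δ) : K) ≠ 0 := by
    rw [Nat.cast_ne_zero]
    exact Fintype.card_ne_zero
  refine ⟨fun l => ((Fintype.card (Δ ⧸ Δ'.subgroupOf Δ) : K))⁻¹ • a (x l),
    fun l => hq _ _ (haC _ (hx l)), fun l g hg => ?_, ?_⟩
  · rw [map_smul, hainv _ (hx' l) g hg]
  · have h1 : a u = (Fintype.card (Δ ⧸ Δ'.subgroupOf Δ) : K) • u := by
      rw [ha, Finset.sum_congr rfl fun q _ => hu' _ q.out.2, Finset.sum_const, Finset.card_univ,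
        Nat.cast_smul_eq_nsmul]
    have h2 : u = ((Fintype.card (Δ ⧸ Δ'.subgroupOf Δ) : K))⁻¹ • a u := by
      rw [h1, smul_smul, inv_mul_cancel₀ hN, one_smul]
    conv_lhs => rw [h2, hu]
    rw [map_sum, Finset.smul_sum]
    refine Finset.sum_congr rfl fun l _ => ?_
    rw [map_smul, smul_comm]

/-- eigenvectors -/
theorem eig_sum_zero {K V ι : Type} [Field K] [AddCommGroup V] [Module K V] [DecidableEq ι]
    (T : Module.End K V) {μ : ι → K} (hμ : Function.Injective μ) (s : Finset ι) :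
    ∀ v : ι → V, (∀ e, T (v e) = μ e • v e) → ∑ e ∈ s, v e = 0 → ∀ e ∈ s, v e = 0 := by
  induction s using Finset.induction_on with
  | empty => intro v _ _ e he; exact absurd he (Finset.notMem_empty e)
  | insert a s ha ih =>
    intro v hv h
    rw [Finset.sum_insert ha] at h
    have h1 : ∑ e ∈ s, (μ e - μ a) • v e = 0 := by
      have h2 := congrArg (fun x => T x - μ a • x) h
      simp only [map_add, map_sum, smul_add, Finset.smul_sum, map_zero, smul_zero, sub_zero] at h2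
      rw [hv a] at h2
      have h3 : ∑ e ∈ s, (μ e - μ a) • v e = ∑ e ∈ s, T (v e) - ∑ e ∈ s, μ a • v e := by
        rw [← Finset.sum_sub_distrib]
        exact Finset.sum_congr rfl fun e _ => by rw [sub_smul, hv e]
      rw [h3, ← h2]
      abel
    have h2 := ih (fun e => (μ e - μ a) • v e)
      (fun e => by rw [map_smul, hv e, smul_comm]) h1
    have h3 : ∀ e ∈ s, v e = 0 := by
      intro e he
      refine (smul_eq_zero.1 (h2 e he)).resolve_left (sub_ne_zero.2 fun h4 => ?_)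
      exact ha (hμ h4 ▸ he)
    intro e he
    rcases Finset.mem_insert.1 he with rfl | he
    · rw [Finset.sum_eq_zero h3, add_zero] at h
      exact h
    · exact h3 e he

/-- the part of one eigenvalue -/
theorem eig_part {K V ι : Type} [Field K] [AddCommGroup V] [Module K V] [DecidableEq ι]
    (T : Module.End K V) {μ : ι → K} (hμ : Function.Injective μ) (s : Finset ι) {v : ι → V}
    (hv : ∀ e, T (v e) = μ e • v e) {u : V} {d : ι} (hu : T u = μ d • u)
    (h : u = ∑ e ∈ s, v e) : u = 0 ∨ u = v d := by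
  by_cases hd : d ∈ s
  · right
    have h1 := eig_sum_zero T hμ s (fun e => if e = d then v e - u else v e) ?_ ?_ d hd
    · simp only [if_true] at h1
      exact (sub_eq_zero.1 h1).symm
    · intro e
      by_cases he : e = d
      · subst he; simp only [if_true]; rw [map_sub, hv, hu, smul_sub]
      · simp only [if_neg he]; exact hv e
    · rw [← Finset.add_sum_erase s _ hd]
      simp only [if_true]
      rw [Finset.sum_congr rfl fun e he => if_neg (Finset.ne_of_mem_erase he)]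
      rw [← Finset.add_sum_erase s v hd] at h
      rw [sub_add_eq_add_sub, ← h, sub_self]
  · left
    have h1 := eig_sum_zero T hμ (insert d s) (fun e => if e = d then -u else v e) ?_ ?_ d
      (Finset.mem_insert_self _ _)
    · simp only [if_true] at h1
      exact neg_eq_zero.1 h1
    · intro e
      by_cases he : e = d
      · subst he; simp only [if_true]; rw [map_neg, hu, smul_neg]
      · simp only [if_neg he]; exact hv e
    · rw [Finset.sum_insert hd]
      simp only [if_true]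
      rw [Finset.sum_congr rfl fun e he => if_neg (ne_of_mem_of_not_mem he hd), ← h,
        neg_add_cancel]

end Pool.Agent.U222.SL.Mo
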