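import Pool.Agent.W484.CK.Motivic
import Pool.Agent.U222.SL.SloDefs

/-!
# Definitions for `MP_81632f_ag.LargePrimeCoverings`

Adapted from the definitions for `MP_81632f_ag.HyperplaneCoverings` (helper876, `N876/R816/Defs`).
-/

set_option autoImplicit false

open Finset Polynomial CategoryTheory AlgebraicGeometry

namespace Pool.Agent.U222.SL.R8

open Pool.Agent.H914 Pool.Agent.H914.VarClass Pool.Agent.H914.VarClass.Obj Pool.Agent.W492.BB
  Pool.Agent.W484.CK

/-- A cyclic covering `w ^ N = ∏ l_k (x) ^ a_k` of the projective space of dimension `n`, and a root of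
unity `z`. -/
structure Covering (κ : Type) [Field κ] : Type where
  N : ℕ
  n : ℕ
  s : ℕ
  l : Fin s → Fin (n + 1) → κ
  a : Fin s → ℕ
  z : κ

/-- `N` is a prime number, `z` has order `N`, the exponents are prime to `N` and have the sum `N`, one
of them is `N - A` with `A ≥ 2` (so `w ^ N` is a form of degree `A` in affine coordinates),
`A ^ 2 b + A < N`, and `lam < n`. -/
structure Covering.IsLarge {κ : Type} [Field κ] (X : Covering κ) (lam b : ℕ) : Prop where
  prime : X.N.Prime
  root : IsPrimitiveRoot X.z X.N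
  coprime : ∀ k, (X.a k).Coprime X.N
  sum : ∑ k, X.a k = X.N
  large : ∃ k, 2 ≤ X.N - X.a k ∧ (X.N - X.a k) ^ 2 * b + (X.N - X.a k) < X.N
  dim : lam < X.n

/-- The value of the form `∏ l_k ^ a_k` at a vector with coordinates in `L`. -/
def Covering.value {κ : Type} [Field κ] (X : Covering κ) (L : Type) [Field L] [Algebra κ L]
    (x : Fin (X.n + 1) → L) : L :=
  ∏ k, (∑ t, algebraMap κ L (X.l k t) * x t) ^ X.a k

/-- The number of vectors over `L` where the form is not zero. -/
noncomputable def Covering.openCount {κ : Type} [Field κ] (X : Covering κ) (L : Type) [Field L]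
    [Algebra κ L] : ℕ :=
  Set.ncard {x : Fin (X.n + 1) → L | X.value L x ≠ 0}

/-- The number of vectors over `L` where the form is not zero and its power with the exponent
`(|L| - 1) / N` is `z ^ i`. -/
noncomputable def Covering.fixCount {κ : Type} [Field κ] (X : Covering κ) (L : Type) [Field L]
    [Fintype L] [Algebra κ L] (i : ℕ) : ℕ :=
  Set.ncard {x : Fin (X.n + 1) → L | X.value L x ≠ 0 ∧
    (X.value L x) ^ ((Fintype.card L - 1) / X.N) = algebraMap κ L X.z ^ i}

/-- `T` is the part without invariants of the cohomology of degree `n` of a smooth projective model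
of the covering, with the Frobenius `Φ` and the generator `g` of the covering group. The trace
of `Φ ^ [L : κ] g ^ i` is up to the sign the difference of the number of fixed points over the open
set `∏ l_k ≠ 0` of projective space (`N` points over each point where the form has the power residue
symbol `z ^ i`) and of the number of the points of this open set. -/
structure IsCyclicCovering {κ : Type} [Field κ] (X : Covering κ) {K T : Type} [Field K]
    [AddCommGroup T] [Module K T] (Φ g : Module.End K T) : Prop where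
  commute : Commute Φ g
  order : g ^ X.N = 1
  invariants : ∀ t, g t = t → t = 0
  lefschetz : ∀ (L : Type) [Field L] [Fintype L] [Algebra κ L] (i : ℕ),
    ((Fintype.card L : K) - 1) *
        ((-1) ^ X.n * LinearMap.trace K T (Φ ^ Module.finrank κ L * g ^ i)) =
      (X.N : K) * (X.fixCount L i : K) - (X.openCount L : K)

/-- The space `H` is generated by the subspace `P` (the classes of algebraic cycles) and a subspace `T`
which is stable under `Φ` (the Frobenius) and `g` (a generator of the covering group), `T` is the part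
without invariants (`IsCyclicCovering`), and pure of weight `n`. The complex numbers enter by an
embedding `τ` of the coefficient field. -/
def IsCoveringCohomology {κ : Type} [Field κ] [Fintype κ] (C : Covering κ) {K H : Type} [Field K]
    [AddCommGroup H] [Module K H] (P : Submodule K H) (Φ g : Module.End K H) (τ : K →+* ℂ) : Prop :=
  ∃ (T : Submodule K H) (hΦ : ∀ t ∈ T, Φ t ∈ T) (hg : ∀ t ∈ T, g t ∈ T), P ⊔ T = ⊤ ∧
    IsCyclicCovering C (Φ.restrict hΦ) (g.restrict hg) ∧
    ∀ α, Module.End.HasEigenvalue (Φ.restrict hΦ) α → ‖τ α‖ ^ 2 = (Fintype.card κ : ℝ) ^ C.n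

/-- The images of the eigenvalues of `Φ` under the embedding `τ` of the coefficient field. -/
def eigenvalues {K H : Type} [Field K] [AddCommGroup H] [Module K H] (Φ : Module.End K H)
    (τ : K →+* ℂ) : Set ℂ :=
  {b | ∃ β : K, Φ.HasEigenvalue β ∧ τ β = b}

/-- The conditions on a set `B` of complex numbers: they are algebraic with `|β| ^ 2 = q ^ d`, and
* at most `b` of the conjugates of `β` have a slope smaller than `(d - lam) / 2`,
* or `β` is of level at most `lam`,
* or the minimal polynomial of `β` has at most `2 b + 1` irreducible factors over the field of the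
  roots of unity of order `N`, for instance because it has degree at most `2 b + 1`. -/
def IsFewBase (c : ℕ) [Fact c.Prime] (q N lam b : ℕ) (B : Set ℂ) : Prop :=
  ∀ β ∈ B, IsAlgebraic ℚ β ∧ ∃ d : ℕ, ‖β‖ ^ 2 = (q : ℝ) ^ d ∧
    ((lowSlopes c q lam d β).ncard ≤ b ∨
      IsIntegral ℤ ((q : ℂ) ^ lam * β / starRingEnd ℂ β) ∨
      factorCount N β ≤ 2 * b + 1 ∨ (minpoly ℚ β).natDegree ≤ 2 * b + 1)

/-- An endomorphism of an algebra as a linear map. -/
def ofHom {K H : Type} [Field K] [Ring H] [Algebra K H] (g : H →ₐ[K] H) : Module.End K H :=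
  g.toLinearMap

/-- `IsCoveringCohomology` for endomorphisms of an algebra. -/
def IsCoveringAlgebra {κ : Type} [Field κ] [Fintype κ] (C : Covering κ) {K H : Type} [Field K]
    [Ring H] [Algebra K H] (P : Submodule K H) (φ g : H →ₐ[K] H) (τ : K →+* ℂ) : Prop :=
  IsCoveringCohomology C P (ofHom φ) (ofHom g) τ

/-- The images of the eigenvalues of an endomorphism of an algebra. -/
def eigenvaluesOf {K H : Type} [Field K] [Ring H] [Algebra K H] (φ : H →ₐ[K] H) (τ : K →+* ℂ) :
    Set ℂ :=
  eigenvalues (ofHom φ) τ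

/-- The images under `τ` of the products of the eigenvalues of an endomorphism of an algebra and
the roots of the polynomial `χ`. -/
def productsOf {K H : Type} [Field K] [CharZero K] [Ring H] [Algebra K H] (φ : H →ₐ[K] H)
    (χ : ℚ[X]) (τ : K →+* ℂ) : Set ℂ :=
  {b | ∃ β ρ : K, (ofHom φ).HasEigenvalue β ∧ aeval ρ χ = 0 ∧ τ (β * ρ) = b}

/-- The field `κ` has `c ^ f` elements, the coverings are large, of different degrees `N` with
`c ≡ 1` modulo `N`. -/
structure IsLargeSystem {κ : Type} [Field κ] [Fintype κ] {ι : Type} (C : ι → Covering κ)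
    (c f lam b : ℕ) : Prop where
  card : Fintype.card κ = c ^ f
  large : ∀ i, (C i).IsLarge lam b
  different : ∀ i j, i ≠ j → (C i).N ≠ (C j).N
  congruent : ∀ i, c % (C i).N = 1

section geometry

variable {κ : Type} [Field κ] {𝒱 : VarClass κ} {A : TheoryData.{0, 0, 0} 𝒱 ℚ} {K : Type} [Field K]

/-- The span of the classes of cycles on `X`. -/
def cycleSpan (H : WeilTheoryData.{0, 0, 0} A K) (X : 𝒱.Obj) : Submodule K (H.A X) :=
  Submodule.span K {a | ∃ (i : ℕ) (z : A.A X), A.Deg i z ∧ a = H.cl z}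

/-- `X`, with the Frobenius endomorphism `φ`, is a model of the covering `C`, with a generator `g` of
the covering group. -/
def IsModel [Fintype κ] (C : Covering κ) (H : WeilTheoryData.{0, 0, 0} A K) {X : 𝒱.Obj}
    (φ : X ⟶ X) (τ : K →+* ℂ) : Prop :=
  ∃ g : X ⟶ X, IsCoveringAlgebra C (cycleSpan H X) (H.pull φ) (H.pull g) τ

/-- There is a divisor on `X` whose power with the exponent `dim X` is not zero in the cohomology. -/
def IsPolarized (H : WeilTheoryData.{0, 0, 0} A K) (X : 𝒱.Obj) : Prop :=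
  ∃ D : A.A X, A.Deg 1 D ∧ H.cl D ^ X.dim ≠ 0

/-- The product `X i₁ × (X i₂ × (⋯ × Z))`. -/
noncomputable def productOf {ι : Type} (X : ι → 𝒱.Obj) (Z : 𝒱.Obj) : List ι → 𝒱.Obj
  | [] => Z
  | i :: L => (X i).prod (productOf X Z L)

/-- The sum of the dimensions of the `X i`. -/
def dimension {ι : Type} (X : ι → 𝒱.Obj) : List ι → ℕ
  | [] => 0
  | i :: L => (X i).dim + dimension X L

/-- `F` is the Frobenius endomorphism of the varieties over `κ`, the varieties `X i` are models of the
coverings, and `Z` and the polynomial `χ` satisfy `IsFewBase`. -/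
structure IsCoveringSystem [Fintype κ] [CharZero K] {ι : Type} [Fintype ι] (C : ι → Covering κ)
    (c : ℕ) [Fact c.Prime] (lam b : ℕ) (H : WeilTheoryData.{0, 0, 0} A K) (τ : K →+* ℂ)
    (F : ∀ X : 𝒱.Obj, X ⟶ X) (X : ι → 𝒱.Obj) (Z : 𝒱.Obj) (χ : ℚ[X]) : Prop where
  standard : IsStandard H
  frobenius : ∀ X, IsFrobenius A (F X) (Fintype.card κ)
  product : ∀ X Y, F (X.prod Y) = prodMap (F X) (F Y)
  model : ∀ i, IsModel (C i) H (F (X i)) τ
  polarized : ∀ i, IsPolarized H (X i)
  algebraic : ∀ b ∈ eigenvaluesOf (H.pull (F Z)) τ, IsAlgebraic ℚ b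
  ne_zero : χ.coeff 0 ≠ 0
  base : IsFewBase c (Fintype.card κ) (∏ i, (C i).N) lam b (productsOf (H.pull (F Z)) χ τ)

/-- Homologically trivial correspondences of degree zero act as zero. -/
def IsHomological (H : WeilTheoryData.{0, 0, 0} A K) (R : MotivicData A) : Prop :=
  ∀ {X : 𝒱.Obj} (Γ : A.A (X.prod X)), A.Deg X.dim Γ → (∀ a : H.A X, H.act (H.cl Γ) a = 0) →
    ∀ r : R.M X, R.app Γ r = 0

/-- The maps `φ` commute with the operation of correspondences. -/
def IsCommuting (R : MotivicData A) (φ : ∀ X, R.M X →ₗ[ℚ] R.M X) : Prop :=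
  ∀ {X Y : 𝒱.Obj} (Γ : A.A (X.prod Y)) (r : R.M X), φ Y (R.app Γ r) = R.app Γ (φ X r)

/-- `χ (φ) = 0` in all degrees. -/
def IsRoot (R : MotivicData A) (φ : ∀ X, R.M X →ₗ[ℚ] R.M X) (χ : ℚ[X]) : Prop :=
  ∀ {X : 𝒱.Obj} {n : ℤ} {r : R.M X}, R.Deg n r → aeval (φ X) χ r = 0

/-- `Φ r - q ^ n r`, where `Φ` is the Frobenius endomorphism of `X × U`: the product of `φ` and of
the Frobenius endomorphism of `X`. -/
noncomputable def defect (R : MotivicData A) (φ : ∀ X, R.M X →ₗ[ℚ] R.M X)
    (F : ∀ X : 𝒱.Obj, X ⟶ X) (q : ℕ) (X : 𝒱.Obj) (n : ℤ) (r : R.M X) : R.M X :=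
  R.app (A.down (Obj.lift (F X) (𝟙 X)) 1) (φ X r) - (q : ℚ) ^ n • r

/-- `R` is a theory with correspondences with an endomorphism `φ` (the Frobenius on the
cohomology of a variety `U`), homologically trivial correspondences act as zero, `φ` preserves the
degrees and commutes with correspondences, and `χ (φ)` is zero. -/
structure IsMixedTheory (H : WeilTheoryData.{0, 0, 0} A K) (R : MotivicData A)
    (φ : ∀ X, R.M X →ₗ[ℚ] R.M X) (χ : ℚ[X]) : Prop where
  motivic : IsMotivic R
  homological : IsHomological H R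
  degree : ∀ {X : 𝒱.Obj} {n : ℤ} {r : R.M X}, R.Deg n r → R.Deg n (φ X r)
  comm : IsCommuting R φ
  root : IsRoot R φ χ

/-- `T` is a theory with correspondences with an endomorphism `φ` which commutes with
correspondences, and the Frobenius endomorphism `Φ` is `q ^ n` on `T^n(X)`. -/
structure IsCycleTheory (T : MotivicData A) (φ : ∀ X, T.M X →ₗ[ℚ] T.M X)
    (F : ∀ X : 𝒱.Obj, X ⟶ X) (q : ℕ) : Prop where
  motivic : IsMotivic T
  comm : IsCommuting T φ
  power : ∀ {X : 𝒱.Obj} {n : ℤ} {t : T.M X}, T.Deg n t → defect T φ F q X n t = 0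

/-- The maps `reg` from the theory `T` to the theory `R` preserve degrees and commute with the
operation of correspondences and with the Frobenius of `U`. -/
structure IsRegulator (T R : MotivicData A) (φT : ∀ X, T.M X →ₗ[ℚ] T.M X)
    (φ : ∀ X, R.M X →ₗ[ℚ] R.M X) (reg : ∀ X, T.M X →ₗ[ℚ] R.M X) : Prop where
  mem : ∀ {X : 𝒱.Obj} {n : ℤ} {t : T.M X}, T.Deg n t → R.Deg n (reg X t)
  corr : ∀ {X Y : 𝒱.Obj} (Γ : A.A (X.prod Y)) (t : T.M X), reg Y (T.app Γ t) = R.app Γ (reg X t)
  frob : ∀ {X : 𝒱.Obj} (t : T.M X), reg X (φT X t) = φ X (reg X t)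

/-- The eigenvalue `q ^ n` of `Φ` on `R^n(X)` is semisimple: the kernel of `(Φ - q ^ n) ^ 2` is the
kernel of `Φ - q ^ n`. -/
def IsSemisimpleIn (R : MotivicData A) (φ : ∀ X, R.M X →ₗ[ℚ] R.M X) (F : ∀ X : 𝒱.Obj, X ⟶ X)
    (q : ℕ) (X : 𝒱.Obj) (n : ℤ) : Prop :=
  ∀ r : R.M X, R.Deg n r → defect R φ F q X n (defect R φ F q X n r) = 0 →
    defect R φ F q X n r = 0

/-- Every element `r` of `R^n(X)` with `Φ r = q ^ n r` is the image of an element of `T^n(X)`. -/
def IsOnto {T R : MotivicData A} (reg : ∀ X, T.M X →ₗ[ℚ] R.M X) (φ : ∀ X, R.M X →ₗ[ℚ] R.M X)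
    (F : ∀ X : 𝒱.Obj, X ⟶ X) (q : ℕ) (X : 𝒱.Obj) (n : ℤ) : Prop :=
  ∀ r : R.M X, R.Deg n r → defect R φ F q X n r = 0 → ∃ t : T.M X, T.Deg n t ∧ reg X t = r

/-- The map `reg` from `T^n(X)` to `R^n(X)` is injective. -/
def IsInjective {T R : MotivicData A} (reg : ∀ X, T.M X →ₗ[ℚ] R.M X) (X : 𝒱.Obj) (n : ℤ) : Prop :=
  ∀ t : T.M X, T.Deg n t → reg X t = 0 → t = 0

/-- The conclusions for the product `V` of the `X i` with `i ∈ L` and of `Z`. -/
structure Conclusions (H : WeilTheoryData.{0, 0, 0} A K) (F : ∀ X : 𝒱.Obj, X ⟶ X) (q : ℕ)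
    (χ : ℚ[X]) {ι : Type} (X : ι → 𝒱.Obj) (Z : 𝒱.Obj) {T R : MotivicData A}
    (φT : ∀ X, T.M X →ₗ[ℚ] T.M X) (φ : ∀ X, R.M X →ₗ[ℚ] R.M X)
    (reg : ∀ X, T.M X →ₗ[ℚ] R.M X) (L : List ι) : Prop where
  tate : ∀ n : ℤ, IsOnto reg φ F q (productOf X Z L) n ∧ IsSemisimpleIn R φ F q (productOf X Z L) n ↔
    ∀ l : ℤ, n - dimension X L ≤ l → l ≤ n → IsOnto reg φ F q Z l ∧ IsSemisimpleIn R φ F q Z l
  beilinson : (∀ L, Nilpotence H (productOf X Z L)) → IsRoot T φT χ → ∀ n : ℤ,
    IsInjective reg (productOf X Z L) n ∧ IsOnto reg φ F q (productOf X Z L) n ∧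
      IsSemisimpleIn R φ F q (productOf X Z L) n ↔
    ∀ l : ℤ, n - dimension X L ≤ l → l ≤ n → IsInjective reg Z l ∧ IsOnto reg φ F q Z l ∧
      IsSemisimpleIn R φ F q Z l

end geometry

end Pool.Agent.U222.SL.R8
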