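import Pool.Agent.N876.CG.GenT
import Pool.Agent.W484.CK.Main
import Pool.Agent.U222.SL.R8Defs
import Pool.Agent.U222.SL.Crd

/-!
# Proof of `MP_81632f_ag.LargePrimeCoverings`

Adapted from the proof of `MP_81632f_ag.HyperplaneCoverings` (helper876, `N876/R816/Proof`).
-/

set_option autoImplicit false

open Finset Polynomial CategoryTheory AlgebraicGeometry

namespace Pool.Agent.U222.SL.R8

open Pool.Agent.H914 Pool.Agent.H914.VarClass Pool.Agent.H914.VarClass.Obj Pool.Agent.W492.BB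
  Pool.Agent.W484.CK

/-- the conditions on the set of the other eigenvalues -/
theorem fewSet_of {c : ℕ} [Fact c.Prime] {q N lam b : ℕ} (hq : 1 < q) {B : Set ℂ}
    (hB : IsFewBase c q N lam b B) : FewSet c q N lam b B := by
  intro β hβ
  obtain ⟨h1, d, h2, h3⟩ := hB β hβ
  refine ⟨h1, d, h2, ?_⟩
  rcases h3 with h3 | h3 | h3 | h3
  · exact Or.inl h3
  · left
    have h4 : lowConj c q lam d β = ∅ := lowConj_of_level hq h1 h2 h3
    rw [h4, Set.ncard_empty]
    exact Nat.zero_le _
  · exact Or.inr h3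
  · exact Or.inr ((numFac_le h1).trans h3)

theorem main (c : ℕ) [Fact c.Prime] (κ : Type) [Field κ] [Fintype κ] [CharP κ c] {ι : Type}
    [Fintype ι] (C : ι → Covering κ) (f lam b : ℕ) (hC : IsLargeSystem C c f lam b)
    {𝒱 : VarClass κ} (A : TheoryData.{0, 0, 0} 𝒱 ℚ) [IsChow A] {K : Type} [Field K]
    [IsAlgClosed K] [CharZero K] (H : WeilTheoryData.{0, 0, 0} A K) [IsWeil H] (τ : K →+* ℂ)
    (F : ∀ X : 𝒱.Obj, X ⟶ X) (X : ι → 𝒱.Obj) (Z : 𝒱.Obj) (χ : ℚ[X])
    (h : IsCoveringSystem C c lam b H τ F X Z χ) (T R : MotivicData A)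
    (φT : ∀ X, T.M X →ₗ[ℚ] T.M X) (hT : IsCycleTheory T φT F (Fintype.card κ))
    (φ : ∀ X, R.M X →ₗ[ℚ] R.M X) (hR : IsMixedTheory H R φ χ)
    (reg : ∀ X, T.M X →ₗ[ℚ] R.M X) (hreg : IsRegulator T R φT φ reg) (L : List ι)
    (hL : L.Nodup) : Conclusions H F (Fintype.card κ) χ X Z φT φ reg L := by
  obtain ⟨hf, hlarge, hne, hone'⟩ := hC
  obtain ⟨hstd, hfrob, hprod, hmodel, hpol, halg, hχ0, hbase⟩ := h
  have hfin := hstd.finite
  choose g T' hσT hgT hT' hcov hpure using hmodel
  have hcov' : ∀ i, Pool.Agent.N876.TC.IsCov (C i).N (C i).l (C i).a (C i).z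
      ((ofHom (H.pull (F (X i)))).restrict (hσT i)) ((ofHom (H.pull (g i))).restrict (hgT i)) :=
    fun i => ⟨(hcov i).commute, (hcov i).order, (hcov i).invariants,
      fun L _ _ _ t => (hcov i).lefschetz L t⟩
  obtain ⟨hres, hres1, hint⟩ := large_facts (lam := lam) (b := b) (d := fun i => (C i).N)
    (n := fun i => (C i).n) (s := fun i => (C i).s) κ hf (fun i => (hlarge i).prime)
    (fun i => (hlarge i).root) (fun i => (C i).l) (fun i => (C i).a) (fun i => (hlarge i).coprime)
    (fun i => (hlarge i).sum) (fun i => (hlarge i).large) (fun i => (hlarge i).dim) hne hone' τ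
    hcov' hpure
  have htw : ∀ L : List ι, productOf X Z L = Pool.Agent.N876.CG.tw X Z L := by
    intro L
    induction L with
    | nil => rfl
    | cons i L ih => rw [productOf, Pool.Agent.N876.CG.tw, ih]
  have hdim : ∀ L : List ι, dimension X L = Pool.Agent.N876.CG.dims X L := by
    intro L
    induction L with
    | nil => rfl
    | cons i L ih => rw [dimension, Pool.Agent.N876.CG.dims, ih]
  have hq0 : Fintype.card κ ≠ 0 := Fintype.card_ne_zero
  have hsys : Pool.Agent.N876.CG.Cr H F (Fintype.card κ) X Z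
      (fun i => {α | Module.End.HasEigenvalue
          ((ofHom (H.pull (F (X i)))).restrict (hσT i)) α}) {ρ | aeval ρ χ = 0} :=
    { std := isStandard_bridge hstd
      one_lt := Fintype.one_lt_card
      frob := fun X => isFrobenius_bridge (hfrob X)
      prod := hprod
      cg := fun i => ⟨T' i, hσT i, hT' i, fun α hα => hα⟩
      int := fun i α hα => hint i α hα
      ne := fun i α hα h0 => by
        have h1 := hpure i α hα
        rw [h0, map_zero, norm_zero, zero_pow two_ne_zero] at h1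
        have h2 : (0 : ℝ) < (Fintype.card κ : ℝ) := by exact_mod_cast Nat.pos_of_ne_zero hq0
        exact (pow_pos h2 _).ne h1
      intZ := fun β hβ => Pool.Agent.N876.CG.integral_of_emb τ (halg _ ⟨β, hβ, rfl⟩)
      res := by
        have himg : (τ '' {γ | ∃ β ρ, (Pool.Agent.W484.CH.frob H (F Z)).HasEigenvalue β ∧
            ρ ∈ {ρ : K | aeval ρ χ = 0} ∧ γ = β * ρ}) = productsOf (H.pull (F Z)) χ τ := by
          ext b
          constructor
          · rintro ⟨_, ⟨β, ρ, hβ, hρ, rfl⟩, rfl⟩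
            exact ⟨β, ρ, hβ, hρ, rfl⟩
          · rintro ⟨β, ρ, hβ, hρ, rfl⟩
            exact ⟨_, ⟨β, ρ, hβ, hρ, rfl⟩, rfl⟩
        refine hres _ ?_
        rw [himg]
        exact fewSet_of Fintype.one_lt_card hbase
      res1 := hres1 }
  have hFr : ∀ X, Pool.Agent.W484.CH.IsFrobenius A (F X) (Fintype.card κ) := hsys.frob
  have hrel : ∀ (R : MotivicData A) (φ : ∀ X, R.M X →ₗ[ℚ] R.M X) (χ : ℚ[X]),
      IsMixedTheory H R φ χ → Pool.Agent.N876.CG.RelTheory
        (Pool.Agent.N876.CG.genT (toCorr R) φ F (Fintype.card κ)) φ F (Fintype.card κ) χ :=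
    fun R φ χ hR => Pool.Agent.N876.CG.genT_rel (toCorr_isCorrTheory hR.motivic) hR.comm hq0 hFr
      hprod hsys.std (fun X n t ht => hR.root ht)
  have hnil' : ∀ (R : MotivicData A) (φ : ∀ X, R.M X →ₗ[ℚ] R.M X) (χ : ℚ[X]),
      IsMixedTheory H R φ χ → ∀ V, Pool.Agent.N876.CG.NilT H
        (Pool.Agent.N876.CG.genT (toCorr R) φ F (Fintype.card κ)) V := by
    intro R φ χ hR V Γ hΓ h0
    refine ⟨1, ?_⟩
    rw [pow_one]
    exact LinearMap.ext fun r => hR.homological Γ hΓ h0 r
  -- invariant elements are generalized eigenvectors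
  have hinv : ∀ (V : 𝒱.Obj) (n : ℤ) (r : R.M V), R.Deg n r →
      defect R φ F (Fintype.card κ) V n r = 0 →
      r ∈ (Pool.Agent.N876.CG.genT (toCorr R) φ F (Fintype.card κ)).gr V n := by
    intro V n r hr h0
    refine Pool.Agent.N876.CG.mem_genT.2 ⟨hr, 1, ?_⟩
    rw [pow_one]
    exact h0
  -- the image of the regulator
  have himg : ∀ (V : 𝒱.Obj) (n : ℤ) (t : T.M V), T.Deg n t →
      defect R φ F (Fintype.card κ) V n (reg V t) = 0 := by
    intro V n t ht
    have h1 : defect R φ F (Fintype.card κ) V n (reg V t) =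
        reg V (defect T φT F (Fintype.card κ) V n t) := by
      rw [defect, defect, map_sub, map_smul, hreg.corr, hreg.frob]
    rw [h1, hT.power ht, map_zero]
  have hS : ∀ (V : 𝒱.Obj) (n : ℤ), IsOnto reg φ F (Fintype.card κ) V n ∧
      IsSemisimpleIn R φ F (Fintype.card κ) V n ↔
      ∀ r ∈ (Pool.Agent.N876.CG.genT (toCorr R) φ F (Fintype.card κ)).gr V n,
        ∃ t ∈ (toCorr T).gr V n, reg V t = r := by
    intro V n
    have hss := Pool.Agent.N876.CG.ss_iff (toCorr_isCorrTheory hR.motivic) hFr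
      (fun X n t ht => hR.degree ht) V n
    constructor
    · rintro ⟨h1, h2⟩ r hr
      exact h1 r (Pool.Agent.N876.CG.mem_genT.1 hr).1 (hss.1 h2 r hr)
    · intro h0
      refine ⟨fun r hr hi => h0 r (hinv V n r hr hi), hss.2 fun r hr => ?_⟩
      obtain ⟨t, ht, rfl⟩ := h0 r hr
      exact himg V n t ht
  have hnat : Pool.Agent.N876.CG.Nat' (toCorr T)
      (Pool.Agent.N876.CG.genT (toCorr R) φ F (Fintype.card κ)) reg :=
    ⟨fun {V n t} ht => hinv V n _ (hreg.mem ht) (himg V n t ht), hreg.corr⟩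
  have hcorrT := toCorr_isCorrTheory hT.motivic
  have hcorrR : Pool.Agent.W484.CH.IsCorrTheory
      (Pool.Agent.N876.CG.genT (toCorr R) φ F (Fintype.card κ)) := (hrel R φ χ hR).corr
  have htate : ∀ n : ℤ, IsOnto reg φ F (Fintype.card κ) (productOf X Z L) n ∧
      IsSemisimpleIn R φ F (Fintype.card κ) (productOf X Z L) n ↔
      ∀ l : ℤ, n - dimension X L ≤ l → l ≤ n → IsOnto reg φ F (Fintype.card κ) Z l ∧
        IsSemisimpleIn R φ F (Fintype.card κ) Z l := by
    intro n
    rw [hS]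
    simp only [hS]
    rw [htw L, hdim L]
    exact hsys.induct hpol (fun V n =>
        ∀ r ∈ (Pool.Agent.N876.CG.genT (toCorr R) φ F (Fintype.card κ)).gr V n,
          ∃ t ∈ (toCorr T).gr V n, reg V t = r)
      (Pool.Agent.N876.CG.genT (toCorr R) φ F (Fintype.card κ)) φ χ hχ0 (fun ρ hρ => hρ)
      (hrel R φ χ hR) (fun L => hnil' R φ χ hR _) (fun i V J _ deg D E h1 h2 n =>
        Pool.Agent.N876.CG.surj_deg h1 hcorrT hcorrR hnat h2 n) hL n
  refine ⟨htate, fun hnil hroot n => ?_⟩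
  · have hinj : IsInjective reg (productOf X Z L) n ↔
        ∀ l : ℤ, n - dimension X L ≤ l → l ≤ n → IsInjective reg Z l := by
      rw [htw L, hdim L]
      exact hsys.induct hpol (fun V n => IsInjective reg V n) (toCorr T) φT χ hχ0 (fun ρ hρ => hρ)
        { corr := hcorrT
          comm := hT.comm
          power := fun X n t ht => ⟨1, by
            rw [pow_one]
            exact hT.power ht⟩
          poly := fun X n t ht => hroot ht }
        (fun L => Pool.Agent.N876.CG.nilT_of hcorrT (by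
          rw [← htw L]; exact nilpotence_bridge (hnil L)))
        (fun i V J _ deg D E h1 h2 n =>
          Pool.Agent.N876.CG.inj_deg h1 hcorrT hnat h2 n) hL n
    rw [hinj, htate n]
    exact ⟨fun ⟨h1, h2⟩ l hl1 hl2 => ⟨h1 l hl1 hl2, h2 l hl1 hl2⟩,
      fun h0 => ⟨fun l hl1 hl2 => (h0 l hl1 hl2).1, fun l hl1 hl2 => (h0 l hl1 hl2).2⟩⟩

end Pool.Agent.U222.SL.R8
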