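import Pool.Agent.U222.SL.Core
import Pool.Agent.N876.FL.Core

/-!
# No resonances with other motives, from separated conjugates
-/

set_option autoImplicit false

namespace Pool.Agent.U222.SL

open Finset Polynomial Pool.Agent.N876.TC Pool.Agent.N876.UV Pool.Agent.W528.HA Pool.Agent.W528.HB

variable {c : ℕ} [Fact c.Prime]

/-- separated characters -/
def SepI {ι : Type} (c f N δ b : ℕ) (d n s : ι → ℕ) (a : ∀ i, Fin (s i) → ℕ) (I : Finset ι) :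
    Prop :=
  ∀ j : ι → ℕ, (∀ i ∈ I, ¬ d i ∣ j i) → ∃ u : Fin (b + 1) → ℕ,
    (∀ k, (u k).Coprime N ∧ Lo c f N δ d n s a I (fun i => u k * j i)) ∧
    ∀ k l, k ≠ l → ∃ v : ℕ, v.Coprime N ∧ Lo c f N 0 d n s a I (fun i => v * u k * j i) ∧
      Lo c f N 0 d n s a I (fun i => (N - 1) * (v * u l) * j i)

section

variable {ι : Type} {N lam b : ℕ} (hN : 0 < N) {d n s : ι → ℕ}
    (hd : ∀ i, 2 ≤ d i) (hdN : ∀ i, d i ∣ N) (κ : Type) [Field κ] [Fintype κ] [CharP κ c] {f : ℕ}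
    (hf : Fintype.card κ = c ^ f) {z : ι → κ} (hz : ∀ i, IsPrimitiveRoot (z i) (d i))
    (l : ∀ i, Fin (s i) → Fin (n i + 1) → κ) (a : ∀ i, Fin (s i) → ℕ)
    (ha : ∀ i k, (a i k).Coprime (d i))
    {W : ι → Type} [∀ i, AddCommGroup (W i)] [∀ i, Module ℂ (W i)]
    [∀ i, FiniteDimensional ℂ (W i)] {Φ g : ∀ i, Module.End ℂ (W i)}
    (h : ∀ i, IsCov (d i) (l i) (a i) (z i) (Φ i) (g i))

include hN hd hdN hf hz ha h

/-- no resonance, for given eigenvalues -/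
theorem core_few {I : Finset ι} (hI : I.Nonempty) (hsep : SepI c f N lam b d n s a I)
    {α : ι → ℂ} (hα : ∀ i ∈ I, (Φ i).HasEigenvalue (α i))
    (hpure : ∀ i ∈ I, ‖α i‖ ^ 2 = (Fintype.card κ : ℝ) ^ n i)
    {β : ℂ} (hβ : IsAlgebraic ℚ β) {j : ℕ} (hβj : ‖β‖ ^ 2 = (Fintype.card κ : ℝ) ^ j)
    (hfew : (lowConj c (Fintype.card κ) lam j β).ncard ≤ b ∨ numFac N β ≤ 2 * b + 1) {e m w : ℕ}
    (hm : 0 < m) (heq : ((∏ i ∈ I, α i) * (Fintype.card κ : ℂ) ^ e * β) ^ m =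
      (Fintype.card κ : ℂ) ^ (m * w)) : False := by
  classical
  have hq : 1 < Fintype.card κ := Fintype.one_lt_card
  have hq1 : (1 : ℝ) < Fintype.card κ := by exact_mod_cast hq
  have hq0 : (0 : ℝ) < Fintype.card κ := by linarith
  have hα0 : ∀ i ∈ I, α i ≠ 0 := by
    intro i hi h0
    have h1 := hpure i hi
    rw [h0, norm_zero, zero_pow two_ne_zero] at h1
    exact (pow_pos hq0 (n i)).ne h1
  obtain ⟨fe⟩ : Nonempty (AA →+* PadicAlgCl c) := by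
    have : Algebra.IsAlgebraic ℚ AA := algebraicClosure.isAlgebraic ℚ ℂ
    exact ⟨((IsAlgClosed.lift : AA →ₐ[ℚ] PadicAlgCl c) : AA →+* PadicAlgCl c)⟩
  obtain ⟨ζ, hζ⟩ : ∃ ζ : AA, IsPrimitiveRoot ζ N := by
    have : NeZero ((N : ℕ) : AA) := ⟨by exact_mod_cast hN.ne'⟩
    exact HasEnoughRootsOfUnity.exists_primitiveRoot AA N
  obtain ⟨hx, j0, hj0, hst⟩ := states hN hd hdN κ hf hz l a ha h hα hα0 fe hζ
  obtain ⟨u, hu1, hu2⟩ := hsep j0 hj0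
  have hw := Pool.Agent.N876.FL.weights hq hpure hβj hm heq
  have hβA : β ∈ AA := mem_algebraicClosure_iff.mpr hβ
  have hQ0 : 0 < ‖((Fintype.card κ : ℕ) : PadicAlgCl c)‖ := norm_card_pos (c := c) (L := κ)
  have hQ1 : ‖((Fintype.card κ : ℕ) : PadicAlgCl c)‖ < 1 := norm_card_lt (c := c) (L := κ)
  set A : AA := ∏ i ∈ I.attach, (⟨α i.1, hx i.1 i.2⟩ : AA) with hAdef
  have hrel : (A * ((Fintype.card κ : ℕ) : AA) ^ e * ⟨β, hβA⟩) ^ m =
      ((Fintype.card κ : ℕ) : AA) ^ (m * w) := by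
    apply Subtype.ext
    rw [hAdef]
    push_cast
    rw [← heq, ← prod_attach I]
  have hcj : A * cj A = ((Fintype.card κ : ℕ) : AA) ^ (∑ i ∈ I, n i) := by
    rw [hAdef, map_prod, ← prod_mul_distrib, ← prod_pow_eq_pow_sum,
      ← prod_attach I (fun i => ((Fintype.card κ : ℕ) : AA) ^ n i)]
    refine prod_congr rfl fun i _ => ?_
    apply Subtype.ext
    push_cast
    show α i.1 * starRingEnd ℂ (α i.1) = _
    rw [Complex.mul_conj, Complex.normSq_eq_norm_sq, hpure i.1 i.2]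
    push_cast
    rfl
  have hnorm : ∀ σ : AA ≃ₐ[ℚ] AA, ‖fe (σ A)‖ =
      ∏ i ∈ I.attach, ‖(fe.comp ((σ : AA ≃+* AA) : AA →+* AA)) ⟨α i.1, hx i.1 i.2⟩‖ := by
    intro σ
    rw [hAdef, map_prod, map_prod, norm_prod]
    rfl
  have hlow : ∀ (u' δ : ℕ), u'.Coprime N → Lo c f N δ d n s a I (fun i => u' * j0 i) →
      ∀ σ : AA ≃ₐ[ℚ] AA, σ ζ = ζ ^ u' →
        ‖fe (σ A)‖ ^ 2 < ‖((Fintype.card κ : ℕ) : PadicAlgCl c)‖ ^ (∑ i ∈ I, n i + δ) := by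
    intro u' δ h1 h2 σ h3
    rw [hnorm σ]
    refine hst u' δ h1 h2 (fe.comp ((σ : AA ≃+* AA) : AA →+* AA)) ?_
    show fe (σ ζ) = _
    rw [h3, map_pow]
  have hN1 : (N - 1).Coprime N := by
    have h1 : ∃ i, i ∈ I := hI
    obtain ⟨i, hi⟩ := h1
    have h2 := Nat.le_of_dvd hN (hdN i)
    have h3 := hd i
    have h4 : (N - 1).Coprime (N - 1 + 1) := by simp
    rwa [Nat.sub_add_cancel hN] at h4
  have key := core hN hζ fe hQ0 hQ1 (lam := lam) (b := b) hm hrel hcj hw u (fun k => (hu1 k).1)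
    (fun k σ hσ => hlow _ _ (hu1 k).1 (hu1 k).2 σ hσ) (by
      intro k l' hkl
      obtain ⟨v, hv1, hv2, hv3⟩ := hu2 k l' hkl
      refine ⟨v, hv1, ?_, ?_⟩
      · intro σ hσ
        exact hlow _ 0 (hv1.mul_left (hu1 k).1) hv2 σ hσ
      · intro σ hσ
        exact hlow _ 0 (hN1.mul_left (hv1.mul_left (hu1 l').1)) hv3 σ hσ)
  rcases hfew with h1 | h1
  · exact absurd (key.1.trans h1) (by omega)
  · exact absurd (key.2.trans h1) (by omega)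

/-- no resonances -/
theorem nores_few (hpure : ∀ i (α : ℂ), (Φ i).HasEigenvalue α → ‖α‖ ^ 2 = (Fintype.card κ : ℝ) ^ n i)
    (hsep : ∀ I : Finset ι, I.Nonempty → SepI c f N lam b d n s a I)
    {B : Type} [AddCommGroup B] [Module ℂ B] {ΦB : Module.End ℂ B}
    (hB : ∀ β, ΦB.HasEigenvalue β →
      IsAlgebraic ℚ β ∧ ∃ j : ℕ, ‖β‖ ^ 2 = (Fintype.card κ : ℝ) ^ j)
    (hfew : ∀ β, ΦB.HasEigenvalue β → ∀ j : ℕ, ‖β‖ ^ 2 = (Fintype.card κ : ℝ) ^ j →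
      (lowConj c (Fintype.card κ) lam j β).ncard ≤ b ∨ numFac N β ≤ 2 * b + 1) :
    Pool.Agent.N876.FL.NoRes (Fintype.card κ) Φ ΦB := by
  intro I hI α hα β hβ e m w hm heq
  obtain ⟨h1, j, h2⟩ := hB β hβ
  exact core_few hN hd hdN κ hf hz l a ha h hI (hsep I hI) hα (fun i hi => hpure i _ (hα i hi)) h1
    h2 (hfew β hβ j h2) hm heq

end

end Pool.Agent.U222.SL
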